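import Pool.Agent.WGT.Asy

/-!
# The inequality for common divisors of `b ^ n + 1` and of a form in powers of `b`, with the true exponent
-/

set_option autoImplicit false
set_option linter.unusedVariables false

namespace CZF

open Finset Polynomial WGT

/-- The inequality for `z = ∑ c_i ∏ (b ^ e_j) ^ m_ij`, a form of degree `D ≥ 1` in the `k + 1` powers `b ^ e_j`. The proof of
`WGT.form_ineq`, with the exponent which it gives. -/
theorem form_ineq' (b n k D A N g : ℕ) (hb : 2 ≤ b) (hx : ¬ Exc b) (hn : Odd n) (hD : 1 ≤ D) (hA2 : 2 ≤ A)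
    (hq : ∀ q : ℕ, q.Prime → q ∣ n → (A * D) ^ k < q) (c : Fin N → ℤ) (m : Fin N → Fin (k + 1) → ℕ)
    (e : Fin (k + 1) → ℕ) (hm : ∀ i, ∑ j, m i j = D)
    (hg1 : (g : ℤ) ∣ (b : ℤ) ^ n + 1) (hg2 : (g : ℤ) ∣ ∑ i, c i * ∏ j, ((b : ℤ) ^ e j) ^ m i j)
    (hnd : ¬ ((b : ℤ) ^ n + 1 ∣ ∑ i, c i * ∏ j, ((b : ℤ) ^ e j) ^ m i j)) :
    (g : ℤ) ^ A ≤ (b : ℤ) ^ (2 * n) * ((b : ℤ) ^ 2 * ∑ i, |c i|) ^ (A * (A * D) ^ k) := by
  have hb' : (2 : ℤ) ≤ b := by exact_mod_cast hb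
  have hbn : (0 : ℤ) < (b : ℤ) ^ n := by positivity
  have hn0 : 0 < n := hn.pos
  set H : ℤ := ∑ i, |c i| with hH
  have hH1 : 1 ≤ H := by
    by_contra hlt
    have h0 : H = 0 := le_antisymm (by omega) (Finset.sum_nonneg fun _ _ => abs_nonneg _)
    have h1 : ∀ j, c j = 0 := by
      intro j
      have h2 := (Finset.sum_eq_zero_iff_of_nonneg (fun (i : Fin N) _ => abs_nonneg (c i))).1 h0 j
        (Finset.mem_univ _)
      exact abs_eq_zero.1 h2
    apply hnd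
    simp [h1]
  have hb2 : (1 : ℤ) ≤ (b : ℤ) ^ 2 := one_le_pow₀ (by linarith)
  have hbH : (1 : ℤ) ≤ (b : ℤ) ^ 2 * H := by nlinarith
  have h1bn : (1 : ℤ) ≤ (b : ℤ) ^ (2 * n) := one_le_pow₀ (by linarith)
  have hA : 1 ≤ A := by omega
  have hAD : 2 ≤ A * D := by nlinarith
  -- the approximation
  set e' : Fin (k + 1) → ℕ := fun j => e j + (n - 1) * e 0 with he'
  obtain ⟨d, hd1, hdA, μ, hμ⟩ := dirichlet n k (A * D) (by omega) (by omega) (fun j => e' j.succ)
  set μ' : Fin (k + 1) → ℕ := Fin.cons (d * e 0) μ with hμ'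
  have happ0 : ∀ j, |(d : ℤ) * e' j - μ' j * n| * (A * D) ≤ n := by
    intro j
    refine Fin.cases ?_ (fun j => ?_) j
    · have h1 : (d : ℤ) * e' 0 - μ' 0 * n = 0 := by
        have h2 : e' 0 = n * e 0 := by
          rw [he']
          obtain ⟨t, rfl⟩ : ∃ t, n = t + 1 := ⟨n - 1, by omega⟩
          simp only [Nat.add_sub_cancel]
          ring
        rw [h2, hμ', Fin.cons_zero]
        push_cast
        ring
      rw [h1, abs_zero, zero_mul]
      exact Nat.cast_nonneg _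
    · have h1 : μ' j.succ = μ j := by rw [hμ', Fin.cons_succ]
      rw [h1]
      have := hμ j
      push_cast at this
      exact this
  -- exponents of the terms
  set E : Fin N → ℕ := fun i => ∑ j, m i j * e' j with hE
  set P : Fin N → ℕ := fun i => ∑ j, m i j * μ' j with hP
  have happ : ∀ i, |(d : ℤ) * E i - P i * n| * A ≤ n := by
    intro i
    have h1 : (d : ℤ) * E i - P i * n = ∑ j, (m i j : ℤ) * ((d : ℤ) * e' j - μ' j * n) := by
      rw [hE, hP]
      push_cast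
      rw [Finset.mul_sum, Finset.sum_mul, ← Finset.sum_sub_distrib]
      refine Finset.sum_congr rfl fun j _ => ?_
      ring
    have h2 : |(d : ℤ) * E i - P i * n| ≤ ∑ j, (m i j : ℤ) * |(d : ℤ) * e' j - μ' j * n| := by
      rw [h1]
      refine (Finset.abs_sum_le_sum_abs _ _).trans (le_of_eq ?_)
      refine Finset.sum_congr rfl fun j _ => ?_
      rw [abs_mul, Nat.abs_cast]
    have h3 : |(d : ℤ) * E i - P i * n| * (A * D) ≤ D * n := by
      calc |(d : ℤ) * E i - P i * n| * (A * D)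
          ≤ (∑ j, (m i j : ℤ) * |(d : ℤ) * e' j - μ' j * n|) * (A * D) :=
            mul_le_mul_of_nonneg_right h2 (by positivity)
        _ = ∑ j, (m i j : ℤ) * (|(d : ℤ) * e' j - μ' j * n| * (A * D)) := by
            rw [Finset.sum_mul]
            refine Finset.sum_congr rfl fun j _ => ?_
            ring
        _ ≤ ∑ j, (m i j : ℤ) * n :=
            Finset.sum_le_sum fun j _ => mul_le_mul_of_nonneg_left (happ0 j) (Nat.cast_nonneg _)
        _ = D * n := by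
            rw [← Finset.sum_mul, ← hm i]
            push_cast
            rfl
    have hDpos : (0 : ℤ) < D := by exact_mod_cast hD
    have h4 : (D : ℤ) * (|(d : ℤ) * E i - P i * n| * A) ≤ D * n := by
      calc (D : ℤ) * (|(d : ℤ) * E i - P i * n| * A) = |(d : ℤ) * E i - P i * n| * (A * D) := by ring
        _ ≤ D * n := h3
    exact le_of_mul_le_mul_left h4 hDpos
  have hcop : n.Coprime d := by
    rw [Nat.coprime_iff_gcd_eq_one]
    by_contra hne
    obtain ⟨q, hqp, hqd⟩ := Nat.exists_prime_and_dvd hne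
    have h1 := hq q hqp (hqd.trans (Nat.gcd_dvd_left _ _))
    have h2 := Nat.le_of_dvd hd1 (hqd.trans (Nat.gcd_dvd_right _ _))
    omega
  -- the new sum
  have hsum : ∑ i, c i * (b : ℤ) ^ E i =
      (b : ℤ) ^ (D * ((n - 1) * e 0)) * ∑ i, c i * ∏ j, ((b : ℤ) ^ e j) ^ m i j := by
    rw [Finset.mul_sum]
    refine Finset.sum_congr rfl fun i _ => ?_
    have h1 : ∏ j, ((b : ℤ) ^ e j) ^ m i j = (b : ℤ) ^ (∑ j, m i j * e j) := by
      rw [← Finset.prod_pow_eq_pow_sum]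
      refine Finset.prod_congr rfl fun j _ => ?_
      rw [← pow_mul, mul_comm]
    have h2 : E i = D * ((n - 1) * e 0) + ∑ j, m i j * e j := by
      rw [hE, he']
      simp only [mul_add, Finset.sum_add_distrib]
      rw [← Finset.sum_mul, hm i, add_comm]
    rw [h1, h2, pow_add]
    ring
  have hg3 : (g : ℤ) ∣ ∑ i, c i * (b : ℤ) ^ E i := by
    rw [hsum]; exact Dvd.dvd.mul_left hg2 _
  have hnd' : ¬ ((b : ℤ) ^ n + 1 ∣ ∑ i, c i * (b : ℤ) ^ E i) := by
    intro h1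
    apply hnd
    rw [hsum] at h1
    have h2 : IsCoprime ((b : ℤ) ^ n + 1) ((b : ℤ) ^ (D * ((n - 1) * e 0))) := by
      apply IsCoprime.pow_right
      refine ⟨1, -(b : ℤ) ^ (n - 1), ?_⟩
      have h3 : (b : ℤ) ^ n = (b : ℤ) ^ (n - 1) * b := by
        rw [← pow_succ, Nat.sub_add_cancel (by omega)]
      rw [h3]; ring
    exact h2.dvd_of_dvd_mul_left h1
  have hmain := core_ineq b n A d g hb hx hn hd1 hA hcop c E P happ hg1 hg3 hnd'
  refine hmain.trans (mul_le_mul_of_nonneg_left ?_ (by positivity))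
  refine pow_le_pow_right₀ hbH ?_
  exact Nat.mul_le_mul_left _ hdA

/-- The same for the greatest common divisor. -/
theorem form_gcd (b n k D A N : ℕ) (hb : 2 ≤ b) (hx : ¬ Exc b) (hn : Odd n) (hD : 1 ≤ D) (hA2 : 2 ≤ A)
    (hq : ∀ q : ℕ, q.Prime → q ∣ n → (A * D) ^ k < q) (c : Fin N → ℤ) (m : Fin N → Fin (k + 1) → ℕ)
    (e : Fin (k + 1) → ℕ) (hm : ∀ i, ∑ j, m i j = D)
    (hnd : ¬ ((b : ℤ) ^ n + 1 ∣ ∑ i, c i * ∏ j, ((b : ℤ) ^ e j) ^ m i j)) :
    (Int.gcd (∑ i, c i * ∏ j, ((b : ℤ) ^ e j) ^ m i j) ((b : ℤ) ^ n + 1)) ^ A ≤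
      b ^ (2 * n) * (b ^ 2 * ∑ i, (c i).natAbs) ^ (A * (A * D) ^ k) := by
  have h := form_ineq' b n k D A N
    (Int.gcd (∑ i, c i * ∏ j, ((b : ℤ) ^ e j) ^ m i j) ((b : ℤ) ^ n + 1)) hb hx hn hD hA2 hq c m e hm
    (Int.gcd_dvd_right _ _) (Int.gcd_dvd_left _ _) hnd
  have h2 : ((b ^ (2 * n) * (b ^ 2 * ∑ i, (c i).natAbs) ^ (A * (A * D) ^ k) : ℕ) : ℤ) =
      (b : ℤ) ^ (2 * n) * ((b : ℤ) ^ 2 * ∑ i, |c i|) ^ (A * (A * D) ^ k) := by
    push_cast
    rfl
  rw [← h2] at h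
  exact_mod_cast h

end CZF
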