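import Pool.Agent.CZF.ND
import Pool.Agent.CZF.FI

/-!
# Factors of `b + ζ` given by short formulas

Let `b` be not excluded, `p` an odd prime not dividing `b + 1`, `29 (29 D log b) ^ (w - 1) log (b L) ≤ p`, and
`x = F(ζ ^ e_1, ..., ζ ^ e_w)`, `F` an integral form of degree `D` whose coefficients have the sum of absolute values at most
`L`. Then `b + ζ` divides `x`, or every common divisor `y` of `x` and `b + ζ` is a unit: otherwise the norm of `y` is
exponentially large and divides `gcd (F((-b) ^ e_1, ..., (-b) ^ e_w), b ^ p + 1)`, which is small by the theorem `ShortFormulas`.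
-/

set_option autoImplicit false

open Polynomial

namespace CZF

theorem a3_size (b p k L D : ℕ) (hb : 2 ≤ b) (hL : 1 ≤ L) (hD : 1 ≤ D)
    (H : 29 * (29 * D * Real.log b) ^ k * Real.log (b * L) ≤ p) :
    (20.1 : ℝ) ≤ p ∧ (29 * D * Real.log b) ^ k < p := by
  have hl2 := Real.log_two_gt_d9
  have hb2 : (2 : ℝ) ≤ b := by exact_mod_cast hb
  have hL1 : (1 : ℝ) ≤ L := by exact_mod_cast hL
  have hβ2 : Real.log 2 ≤ Real.log b := Real.log_le_log (by norm_num) hb2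
  have hbL : Real.log (b * L) = Real.log b + Real.log L := Real.log_mul (by positivity) (by positivity)
  have hLL : 0 ≤ Real.log L := Real.log_nonneg hL1
  have hD1 : (1 : ℝ) ≤ D := by exact_mod_cast hD
  have hE0 : 29 * Real.log b ≤ 29 * D * Real.log b := by nlinarith
  have hE1 : (1 : ℝ) ≤ 29 * D * Real.log b := by linarith
  have hE : 1 ≤ (29 * D * Real.log b) ^ k := one_le_pow₀ hE1
  have h3 : 20.1 * (29 * D * Real.log b) ^ k ≤ 29 * (29 * D * Real.log b) ^ k * Real.log (b * L) := by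
    have h4 : (20.1 : ℝ) ≤ 29 * Real.log (b * L) := by linarith
    nlinarith
  constructor
  · linarith
  · linarith

theorem a3_real (b p k L A D g : ℕ) (hb : 2 ≤ b) (hL : 1 ≤ L) (hD : 1 ≤ D)
    (hA : A = ⌈27 * Real.log b⌉₊)
    (H : 29 * (29 * D * Real.log b) ^ k * Real.log (b * L) ≤ p)
    (h1 : ((7 : ℝ) / 2) ^ (p - 1) ≤ (g : ℝ) ^ 8)
    (h2 : (g : ℝ) ^ A ≤ (b : ℝ) ^ (2 * p) * ((b : ℝ) ^ 2 * L) ^ (A * (A * D) ^ k)) : False := by
  have hl2 := Real.log_two_gt_d9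
  have hb2 : (2 : ℝ) ≤ b := by exact_mod_cast hb
  have hL1 : (1 : ℝ) ≤ L := by exact_mod_cast hL
  set β := Real.log b with hβ
  have hβ2 : Real.log 2 ≤ β := Real.log_le_log (by norm_num) hb2
  have hβ0 : 0 < β := by linarith
  have hbL : Real.log (b * L) = β + Real.log L := Real.log_mul (by positivity) (by positivity)
  have hLL : 0 ≤ Real.log L := Real.log_nonneg hL1
  have hD1 : (1 : ℝ) ≤ D := by exact_mod_cast hD
  have hE1 : 0 ≤ 29 * D * β := by positivity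
  have hp20 : (20.1 : ℝ) ≤ p := (a3_size b p k L D hb hL hD H).1
  have hA27 : 27 * β ≤ A := by rw [hA]; exact Nat.le_ceil _
  have hA29 : (A : ℝ) ≤ 29 * β := by
    have := Nat.ceil_lt_add_one (show 0 ≤ 27 * β by positivity)
    rw [← hA] at this
    linarith
  have hAw : ((A * (A * D) ^ k : ℕ) : ℝ) * Real.log (b * L) ≤ p * β := by
    have h3 : ((A * (A * D) ^ k : ℕ) : ℝ) ≤ 29 * β * (29 * D * β) ^ k := by
      push_cast
      apply mul_le_mul hA29 _ (by positivity) (by positivity)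
      apply pow_le_pow_left₀ (by positivity)
      nlinarith
    have h4 : 0 ≤ Real.log (b * L) := by rw [hbL]; linarith
    calc ((A * (A * D) ^ k : ℕ) : ℝ) * Real.log (b * L) ≤ 29 * β * (29 * D * β) ^ k * Real.log (b * L) :=
          mul_le_mul_of_nonneg_right h3 h4
      _ = (29 * (29 * D * β) ^ k * Real.log (b * L)) * β := by ring
      _ ≤ p * β := mul_le_mul_of_nonneg_right H hβ0.le
  have h72 : (1.25 : ℝ) ≤ Real.log (7 / 2) := by
    have h3 : Real.exp 5 ≤ ((7 : ℝ) / 2) ^ 4 := by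
      have h4 : Real.exp 5 = Real.exp 1 ^ 5 := by rw [← Real.exp_nat_mul]; norm_num
      have h5 := Real.exp_one_lt_d9
      rw [h4]
      calc Real.exp 1 ^ 5 ≤ (2.7182818286 : ℝ) ^ 5 := pow_le_pow_left₀ (Real.exp_pos _).le h5.le 5
        _ ≤ ((7 : ℝ) / 2) ^ 4 := by norm_num
    have h6 : (5 : ℝ) ≤ Real.log (((7 : ℝ) / 2) ^ 4) := (Real.le_log_iff_exp_le (by positivity)).2 h3
    rw [Real.log_pow] at h6
    push_cast at h6
    linarith
  have hg0 : (0 : ℝ) < g := by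
    rcases Nat.eq_zero_or_pos g with h | h
    · rw [h] at h1
      have : (0 : ℝ) < ((7 : ℝ) / 2) ^ (p - 1) := by positivity
      norm_num at h1
      linarith
    · exact_mod_cast h
  have hp1 : ((p - 1 : ℕ) : ℝ) = (p : ℝ) - 1 := by
    have : 1 ≤ p := by
      have : (1 : ℝ) ≤ p := by linarith
      exact_mod_cast this
    rw [Nat.cast_sub this, Nat.cast_one]
  have l1 : ((p : ℝ) - 1) * Real.log (7 / 2) ≤ 8 * Real.log g := by
    have := Real.log_le_log (by positivity) h1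
    rw [Real.log_pow, Real.log_pow, hp1] at this
    exact_mod_cast this
  have l2 : (A : ℝ) * Real.log g ≤ 2 * p * β + ((A * (A * D) ^ k : ℕ) : ℝ) * (2 * β + Real.log L) := by
    have h3 := Real.log_le_log (by positivity) h2
    rw [Real.log_mul (by positivity) (by positivity), Real.log_pow, Real.log_pow, Real.log_pow,
      Real.log_mul (by positivity) (by positivity), Real.log_pow] at h3
    push_cast at h3 ⊢
    linarith
  have hA0 : (0 : ℝ) < A := by linarith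
  have l3 : ((A * (A * D) ^ k : ℕ) : ℝ) * (2 * β + Real.log L) ≤ 2 * (p * β) := by
    have h3 : ((A * (A * D) ^ k : ℕ) : ℝ) * (2 * β + Real.log L) ≤ 2 * (((A * (A * D) ^ k : ℕ) : ℝ) * Real.log (b * L)) := by
      rw [hbL]
      have : (0 : ℝ) ≤ ((A * (A * D) ^ k : ℕ) : ℝ) := Nat.cast_nonneg _
      nlinarith
    linarith
  have l4 : (A : ℝ) * (((p : ℝ) - 1) * Real.log (7 / 2)) ≤ 8 * ((A : ℝ) * Real.log g) := by
    have := mul_le_mul_of_nonneg_left l1 hA0.le
    linarith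
  have l5 : 27 * β * (((p : ℝ) - 1) * 1.25) ≤ (A : ℝ) * (((p : ℝ) - 1) * Real.log (7 / 2)) := by
    apply mul_le_mul hA27 _ (by nlinarith) hA0.le
    apply mul_le_mul_of_nonneg_left h72 (by linarith)
  have l6 : 27 * β * (((p : ℝ) - 1) * 1.25) ≤ 32 * (p * β) := by linarith
  have l7 : 27 * (((p : ℝ) - 1) * 1.25) ≤ 32 * p := by
    have : (27 * (((p : ℝ) - 1) * 1.25)) * β ≤ (32 * p) * β := by linarith
    exact le_of_mul_le_mul_right this hβ0
  linarith

theorem common_form (b : ℕ) (hb : 2 ≤ b) (hx : ¬ WGT.Exc b) (p w D N L : ℕ) (hp : p.Prime) (hp2 : p ≠ 2)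
    (hnd : ¬ p ∣ b + 1) (hw : 1 ≤ w) (hD : 1 ≤ D) (hL : 1 ≤ L)
    (H : 29 * (29 * D * Real.log b) ^ (w - 1) * Real.log (b * L) ≤ p) (ζ : ℂ) (hζ : IsPrimitiveRoot ζ p)
    (x y u v : Algebra.adjoin ℤ ({ζ} : Set ℂ)) (hx1 : (y : ℂ) * (u : ℂ) = x) (hy1 : (y : ℂ) * (v : ℂ) = (b : ℂ) + ζ)
    (c : Fin N → ℤ)
    (m : Fin N → Fin w → ℕ) (e : Fin w → ℕ) (hm : ∀ i, ∑ j, m i j = D) (hc : ∑ i, |c i| ≤ (L : ℤ))
    (hα : (x : ℂ) = ∑ i, (c i : ℂ) * ∏ j, (ζ ^ e j) ^ m i j) :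
    (∃ t : Algebra.adjoin ℤ ({ζ} : Set ℂ), (x : ℂ) = ((b : ℂ) + ζ) * t) ∨ IsUnit y := by
  classical
  obtain ⟨k, rfl⟩ : ∃ k, w = k + 1 := ⟨w - 1, by omega⟩
  rw [Nat.add_sub_cancel] at H
  by_contra hcon
  rw [not_or] at hcon
  obtain ⟨hdivn, hyu⟩ := hcon
  have hodd : Odd p := hp.odd_of_ne_two hp2
  have hζp : ζ ^ p = 1 := hζ.pow_eq_one
  -- polynomials for the two factors
  have hpoly : ∀ x : Algebra.adjoin ℤ ({ζ} : Set ℂ), ∃ U : ℤ[X], aeval ζ U = (x : ℂ) := by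
    intro x
    have h3 : (x : ℂ) ∈ (Polynomial.aeval ζ : ℤ[X] →ₐ[ℤ] ℂ).range := by
      rw [← Algebra.adjoin_singleton_eq_range_aeval]; exact x.2
    exact h3
  have hunit : ∀ (x : Algebra.adjoin ℤ ({ζ} : Set ℂ)) (U : ℤ[X]), (x : ℂ) * aeval ζ U = 1 → IsUnit x := by
    intro x U hU
    exact IsUnit.of_mul_eq_one ⟨aeval ζ U, aeval_mem_adjoin_singleton ℤ ζ⟩ (Subtype.ext hU)
  obtain ⟨Y, hY⟩ := hpoly y
  obtain ⟨U, hU⟩ := hpoly u
  obtain ⟨T, hT⟩ := hpoly v
  set G : ℤ[X] := ∑ i, C (c i) * ∏ j, (X ^ e j) ^ m i j with hG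
  have hGα : aeval ζ G = (x : ℂ) := by
    rw [hα, hG, map_sum]
    refine Finset.sum_congr rfl fun j _ => ?_
    rw [map_mul, aeval_C, map_prod]
    simp only [map_pow, aeval_X]
    rfl
  -- the integer `z = G(-b)`
  set z : ℤ := G.eval (-(b : ℤ)) with hz
  obtain ⟨V, hV⟩ : (X - C (-(b : ℤ))) ∣ G - C z := X_sub_C_dvd_sub_C_eval
  have hαz : (x : ℂ) - (z : ℂ) = ((b : ℂ) + ζ) * aeval ζ V := by
    have h1 := congrArg (fun f => aeval ζ f) hV
    simp only [map_sub, map_mul, aeval_X, aeval_C] at h1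
    rw [hGα] at h1
    have h2 : (algebraMap ℤ ℂ) (-(b : ℤ)) = -(b : ℂ) := by simp
    have h3 : (algebraMap ℤ ℂ) z = (z : ℂ) := rfl
    rw [h2, h3] at h1
    rw [h1]; ring
  -- `b ^ p + 1`
  obtain ⟨V₂, hV₂⟩ : (X - C (-(b : ℤ))) ∣ (X ^ p : ℤ[X]) - C ((X ^ p : ℤ[X]).eval (-(b : ℤ))) :=
    X_sub_C_dvd_sub_C_eval
  have hbp : ((b : ℂ) ^ p + 1) = ((b : ℂ) + ζ) * aeval ζ V₂ := by
    have h1 := congrArg (fun f => aeval ζ f) hV₂
    simp only [map_sub, map_mul, map_pow, aeval_X, aeval_C, eval_pow, eval_X] at h1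
    have h2 : (algebraMap ℤ ℂ) (-(b : ℤ)) = -(b : ℂ) := by simp
    rw [h2, hζp, hodd.neg_pow] at h1
    linear_combination h1
  -- the expansion of `z`
  set c' : Fin N → ℤ := fun i => c i * ∏ j, ((-1) ^ e j) ^ m i j with hc'
  have hzsum : z = ∑ i, c' i * ∏ j, ((b : ℤ) ^ e j) ^ m i j := by
    rw [hz, hG, eval_finsetSum]
    refine Finset.sum_congr rfl fun i _ => ?_
    rw [eval_mul, eval_C, eval_prod, hc', mul_assoc, ← Finset.prod_mul_distrib]
    congr 1
    refine Finset.prod_congr rfl fun j _ => ?_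
    rw [eval_pow, eval_pow, eval_X, neg_pow, mul_pow]
  by_cases hdiv : (b : ℤ) ^ p + 1 ∣ z
  · -- then `b + ζ` divides `x`
    obtain ⟨k, hk⟩ := hdiv
    apply hdivn
    refine ⟨⟨aeval ζ (C k * V₂ + V), aeval_mem_adjoin_singleton ℤ ζ⟩, ?_⟩
    have hzC : (z : ℂ) = ((b : ℂ) ^ p + 1) * (k : ℂ) := by rw [hk]; push_cast; ring
    have h2 : aeval ζ (C k * V₂ + V) = (k : ℂ) * aeval ζ V₂ + aeval ζ V := by
      rw [map_add, map_mul, aeval_C]; rfl
    show (x : ℂ) = ((b : ℂ) + ζ) * aeval ζ (C k * V₂ + V)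
    rw [h2]
    linear_combination hαz + hzC + (k : ℂ) * hbp
  · -- the gcd
    set g : ℕ := Int.gcd z ((b : ℤ) ^ p + 1) with hg
    set A : ℕ := ⌈27 * Real.log b⌉₊ with hA
    have hbpos : (0 : ℤ) < (b : ℤ) ^ p + 1 := by positivity
    have hg0 : g ≠ 0 := by
      intro h
      have := (Int.gcd_eq_zero_iff.1 h).2
      omega
    have hbez := Int.gcd_eq_gcd_ab z ((b : ℤ) ^ p + 1)
    rw [← hg] at hbez
    set r := Int.gcdA z ((b : ℤ) ^ p + 1) with hr
    set s := Int.gcdB z ((b : ℤ) ^ p + 1) with hs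
    have hgC : ((g : ℤ) : ℂ) = (z : ℂ) * (r : ℂ) + ((b : ℂ) ^ p + 1) * (s : ℂ) := by
      rw [hbez]; push_cast; ring
    have h1 : (b : ℂ) + ζ ^ 1 = aeval ζ Y * aeval ζ T := by rw [pow_one, hY, hT, hy1]
    have h2 : ((g : ℤ) : ℂ) = aeval ζ Y * aeval ζ (C r * (U - T * V) + C s * T * V₂) := by
      have h3 : aeval ζ (C r * (U - T * V) + C s * T * V₂) =
          (r : ℂ) * ((u : ℂ) - (v : ℂ) * aeval ζ V) + (s : ℂ) * (v : ℂ) * aeval ζ V₂ := by
        rw [map_add, map_mul, map_mul, map_mul, map_sub, map_mul, aeval_C, aeval_C, hT, hU]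
        rfl
      rw [h3, hY, hgC]
      linear_combination (-(r : ℂ)) * hαz - (r : ℂ) * hx1 + (s : ℂ) * hbp +
        ((r : ℂ) * aeval ζ V - (s : ℂ) * aeval ζ V₂) * hy1
    have hpw : ¬ p ∣ 1 := fun h => hp.one_lt.ne' (Nat.dvd_one.1 h)
    -- size of `p`
    obtain ⟨hp20, hEp⟩ := a3_size b p k L D hb hL hD H
    have hl2 := Real.log_two_gt_d9
    have hb2 : (2 : ℝ) ≤ b := by exact_mod_cast hb
    have hβ2 : Real.log 2 ≤ Real.log b := Real.log_le_log (by norm_num) hb2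
    have hp11 : 11 ≤ p := by
      have : (11 : ℝ) ≤ p := by linarith
      exact_mod_cast this
    have hnorm := norm_bound p hp hp11 ζ hζ b hnd 1 hpw Y T h1 (by
      rintro ⟨W, hW⟩
      rw [hY] at hW
      exact hyu (hunit y W hW))
    have hle := norm_dvd p hp ζ hζ b hnd 1 hpw Y T _ (g : ℤ) (by exact_mod_cast hg0) h1 h2
    have hgR : |(((g : ℤ) : ℤ) : ℝ)| = (g : ℝ) := by
      rw [Int.cast_natCast, abs_of_nonneg (Nat.cast_nonneg g)]
    rw [hgR] at hle
    have hlow : ((7 : ℝ) / 2) ^ (p - 1) ≤ (g : ℝ) ^ 8 :=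
      hnorm.trans (pow_le_pow_left₀ (norm_nonneg _) hle 8)
    -- ShortFormulas
    have hA2 : 2 ≤ A := by
      have h3 : 27 * Real.log b ≤ A := Nat.le_ceil _
      have h4 : (2 : ℝ) ≤ A := by linarith
      exact_mod_cast h4
    have hAw : (A * D) ^ k < p := by
      have hA29 : (A : ℝ) ≤ 29 * Real.log b := by
        have := Nat.ceil_lt_add_one (show 0 ≤ 27 * Real.log b by positivity)
        rw [← hA] at this
        linarith
      have h3 : (((A * D) ^ k : ℕ) : ℝ) < p := by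
        push_cast
        refine lt_of_le_of_lt ?_ hEp
        apply pow_le_pow_left₀ (by positivity)
        have hD0 : (0 : ℝ) ≤ D := Nat.cast_nonneg _
        nlinarith
      exact_mod_cast h3
    have hine := form_gcd b p k D A N hb hx hodd hD hA2
      (fun q hq hqp => by
        have : q = p := (Nat.prime_dvd_prime_iff_eq hq hp).1 hqp
        rw [this]; exact hAw) c' m e hm
      (by rw [← hzsum]; exact hdiv)
    rw [← hzsum, ← hg] at hine
    have hcsum : ∑ i, (c' i).natAbs ≤ L := by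
      have h3 : ((∑ i, (c' i).natAbs : ℕ) : ℤ) = ∑ i, |c i| := by
        push_cast
        refine Finset.sum_congr rfl fun i _ => ?_
        rw [hc', abs_mul, Finset.abs_prod]
        have : ∏ j, |((-1 : ℤ) ^ e j) ^ m i j| = 1 := by
          apply Finset.prod_eq_one
          intro j _
          rw [abs_pow, abs_pow, abs_neg, abs_one, one_pow, one_pow]
        rw [this, mul_one]
      have h4 : ((∑ i, (c' i).natAbs : ℕ) : ℤ) ≤ L := by rw [h3]; exact hc
      exact_mod_cast h4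
    have hine2 : g ^ A ≤ b ^ (2 * p) * (b ^ 2 * L) ^ (A * (A * D) ^ k) :=
      hine.trans (Nat.mul_le_mul_left _ (Nat.pow_le_pow_left (Nat.mul_le_mul_left _ hcsum) _))
    exact a3_real b p k L A D g hb hL hD hA H hlow (by exact_mod_cast hine2)

end CZF
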