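import Pool.Agent.CZF.Defs

/-!
# Resultants of integer polynomials through complex roots
-/

set_option autoImplicit false

namespace CZF

open Polynomial

theorem card_rts (P : ℤ[X]) : Multiset.card (rts P) = P.natDegree := by
  unfold rts
  rw [← (IsAlgClosed.splits (P.map (Int.castRingHom ℂ))).natDegree_eq_card_roots,
    natDegree_map_eq_of_injective (RingHom.injective_int _)]

theorem mem_rts {P : ℤ[X]} (hP : P ≠ 0) (r : ℂ) : r ∈ rts P ↔ aeval r P = 0 := by
  unfold rts
  rw [mem_roots']
  constructor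
  · intro h
    have := h.2
    rw [IsRoot.def, eval_map] at this
    rwa [aeval_def]
  · intro h
    refine ⟨?_, ?_⟩
    · rwa [Ne, Polynomial.map_eq_zero_iff (RingHom.injective_int _)]
    · rw [IsRoot.def, eval_map]
      rwa [aeval_def] at h

theorem res_eq (P G : ℤ[X]) (m : ℕ) (hG : G.natDegree ≤ m) :
    ((resultant P G P.natDegree m : ℤ) : ℂ)
      = (P.leadingCoeff : ℂ) ^ m * ((rts P).map (fun r => aeval r G)).prod := by
  have h1 := resultant_eq_prod_eval (P.map (Int.castRingHom ℂ)) (G.map (Int.castRingHom ℂ)) m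
    (natDegree_map_le.trans hG) (IsAlgClosed.splits _)
  rw [natDegree_map_eq_of_injective (RingHom.injective_int _),
    leadingCoeff_map_of_injective (RingHom.injective_int _)] at h1
  rw [resultant_map_map] at h1
  have h2 : ((resultant P G P.natDegree m : ℤ) : ℂ)
      = (Int.castRingHom ℂ) (resultant P G P.natDegree m) := rfl
  rw [h2, h1]
  congr 1
  unfold rts
  congr 1
  apply Multiset.map_congr rfl
  intro x _
  rw [eval_map, aeval_def]
  rfl

theorem one_le_lc {P : ℤ[X]} (hP : P ≠ 0) : 1 ≤ |(P.leadingCoeff : ℝ)| := by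
  have h := Int.one_le_abs (leadingCoeff_ne_zero.mpr hP)
  exact_mod_cast h

theorem b0_one_le_prod_max (P : ℤ[X]) : 1 ≤ ((rts P).map (fun r => max 1 ‖r‖)).prod :=
  Polynomial.one_le_prod_max_one_norm_roots _

theorem one_le_mm {P : ℤ[X]} (hP : P ≠ 0) : 1 ≤ mm P := by
  unfold mm
  calc (1 : ℝ) = 1 * 1 := by norm_num
    _ ≤ _ := mul_le_mul (one_le_lc hP) (b0_one_le_prod_max P) (by norm_num) (by positivity)

/-- a product bound over the roots -/
theorem res_le (P G : ℤ[X]) (hP : P ≠ 0) (m : ℕ) (hG : G.natDegree ≤ m) (c : ℝ) (hc : 0 ≤ c)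
    (h : ∀ r ∈ rts P, ‖aeval r G‖ ≤ c * (max 1 ‖r‖) ^ m) :
    |((resultant P G P.natDegree m : ℤ) : ℝ)| ≤ c ^ P.natDegree * mm P ^ m := by
  have h1 := congrArg (fun z : ℂ => ‖z‖) (res_eq P G m hG)
  simp only [norm_mul, norm_pow, Complex.norm_intCast] at h1
  rw [h1]
  have h2 : ‖((rts P).map (fun r => aeval r G)).prod‖ ≤
      ((rts P).map (fun r => c * (max 1 ‖r‖) ^ m)).prod := by
    have : ‖((rts P).map (fun r => aeval r G)).prod‖ = ((rts P).map (fun r => ‖aeval r G‖)).prod := by
      have := map_multiset_prod (normHom (α := ℂ)) ((rts P).map (fun r => aeval r G))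
      simpa [Multiset.map_map] using this
    rw [this]
    exact Multiset.prod_map_le_prod_map₀ _ _ (fun i _ => norm_nonneg _) h
  have h3 : ((rts P).map (fun r => c * (max 1 ‖r‖) ^ m)).prod
      = c ^ P.natDegree * (((rts P).map (fun r => max 1 ‖r‖)).prod) ^ m := by
    rw [Multiset.prod_map_mul, Multiset.map_const', Multiset.prod_replicate, card_rts,
      Multiset.prod_map_pow]
  rw [h3] at h2
  unfold mm
  rw [mul_pow]
  calc _ ≤ |(P.leadingCoeff : ℝ)| ^ m * (c ^ P.natDegree * (((rts P).map (fun r => max 1 ‖r‖)).prod) ^ m) :=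
        mul_le_mul_of_nonneg_left h2 (by positivity)
    _ = _ := by ring

end CZF
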