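import Pool.Agent.CZF.Defs

open Polynomial

namespace CZF

theorem ca_int {q : ℚ} {n : ℕ} {z : ℤ} (h : q ^ n = z) (hn : n ≠ 0) : ∃ t : ℤ, q = t := by
  have h1 : (q ^ n).den = 1 := by rw [h]; exact Rat.den_intCast _
  rw [Rat.den_pow] at h1
  have h2 : q.den = 1 := by
    rcases Nat.pow_eq_one.mp h1 with h | h
    · exact h
    · exact absurd h hn
  exact ⟨q.num, by exact (Rat.den_eq_one_iff q).mp h2 |>.symm⟩

theorem ca_pow {q : ℚ} {n b : ℕ} (h : q ^ n = b ∨ q ^ n = -b) (hn : n ≠ 0) : ∃ t : ℕ, t ^ n = b := by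
  have h' : ∃ z : ℤ, q ^ n = z ∧ z.natAbs = b := by
    rcases h with h | h
    · exact ⟨b, by simpa using h, by simp⟩
    · exact ⟨-b, by simpa using h, by simp⟩
  obtain ⟨z, hz, hzb⟩ := h'
  obtain ⟨t, ht⟩ := ca_int hz hn
  refine ⟨t.natAbs, ?_⟩
  rw [← Int.natAbs_pow, ← hzb]
  congr 1
  rw [ht] at hz
  exact_mod_cast hz

theorem ca_four {q : ℚ} {b : ℕ} (h : 4 * q ^ 4 = b) : ∃ c : ℕ, 4 * c ^ 4 = b := by
  have h1 : (2 * q) ^ 4 = ((4 * b : ℕ) : ℚ) := by
    push_cast
    rw [← h]; ring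
  obtain ⟨t, ht⟩ := ca_pow (Or.inl h1) (by norm_num)
  have h2 : 2 ∣ t := by
    have : 2 ∣ t ^ 4 := ⟨2 * b, by rw [ht]; ring⟩
    exact Nat.prime_two.dvd_of_dvd_pow this
  obtain ⟨c, rfl⟩ := h2
  refine ⟨c, ?_⟩
  have : (2 * c) ^ 4 = 4 * (4 * c ^ 4) := by ring
  omega

theorem ca_norm_gen {K : Type} [Field K] {E : Type} [Field E] [Algebra K E] (x : E) (n : ℕ)
    (hn : 0 < n) (a : K) (hx : minpoly K x = X ^ n - C a) :
    Algebra.norm K (IntermediateField.AdjoinSimple.gen K x) = (-1) ^ (n + 1) * a := by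
  have hi : IsIntegral K x := not_not.mp fun h ↦ by
    simpa only [degree_zero, degree_X_pow_sub_C hn,
      WithBot.natCast_ne_bot] using congr_arg degree (hx.symm.trans (dif_neg h))
  rw [← IntermediateField.adjoin.powerBasis_gen hi,
    Algebra.PowerBasis.norm_gen_eq_coeff_zero_minpoly]
  simp only [IntermediateField.adjoin.powerBasis_gen, IntermediateField.minpoly_gen, hx,
    IntermediateField.adjoin.powerBasis_dim, natDegree_X_pow_sub_C]
  have h0 : (X ^ n - C a : K[X]).coeff 0 = -a := by simp [coeff_X_pow, hn.ne]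
  rw [h0]; ring

theorem ca_fin {K : Type} [Field K] {E : Type} [Field E] [Algebra K E] (x : E) (n : ℕ)
    (hn : 0 < n) (a : K) (hx : minpoly K x = X ^ n - C a) :
    IsIntegral K x ∧ Module.finrank K (IntermediateField.adjoin K {x}) = n := by
  have hi : IsIntegral K x := not_not.mp fun h ↦ by
    simpa only [degree_zero, degree_X_pow_sub_C hn,
      WithBot.natCast_ne_bot] using congr_arg degree (hx.symm.trans (dif_neg h))
  refine ⟨hi, ?_⟩
  rw [IntermediateField.adjoin.finrank hi, hx, natDegree_X_pow_sub_C]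

theorem ca_two (r : ℕ) : ∀ {K : Type} [Field K] (a : K), (∀ b : K, b ^ 2 ≠ a) →
    (∀ b : K, b ^ 2 ≠ -a) → Irreducible (X ^ (2 ^ r) - C a) := by
  induction r with
  | zero => intro K _ a _ _; simpa using irreducible_X_sub_C a
  | succ r ih =>
    intro K _ a h1 h2
    rw [pow_succ]
    apply X_pow_mul_sub_C_irreducible (X_pow_sub_C_irreducible_of_prime Nat.prime_two h1)
    intro E _ _ x hx
    have hN := ca_norm_gen x 2 (by norm_num) a hx
    obtain ⟨hi, hf⟩ := ca_fin x 2 (by norm_num) a hx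
    apply ih
    · intro b hb
      apply h2 (Algebra.norm K b)
      rw [← map_pow, hb, hN]; ring
    · intro b hb
      apply h2 (Algebra.norm K b)
      have h3 : -(IntermediateField.AdjoinSimple.gen K x) =
          algebraMap K _ (-1) * IntermediateField.AdjoinSimple.gen K x := by simp
      rw [← map_pow, hb, h3, map_mul, hN, Algebra.norm_algebraMap, hf]; ring

theorem ca_sq {K : Type} [Field K] (h20 : (2 : K) ≠ 0) (a : K) (ha : ∀ q : K, q ^ 2 ≠ a)
    {E : Type} [Field E] [Algebra K E] (x : E)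
    (hx : minpoly K x = X ^ 2 - C a) (β : IntermediateField.adjoin K {x})
    (h : β ^ 2 = IntermediateField.AdjoinSimple.gen K x ∨
      β ^ 2 = -IntermediateField.AdjoinSimple.gen K x) : ∃ q : K, -(4 * q ^ 4) = a := by
  obtain ⟨hi, hf⟩ := ca_fin x 2 (by norm_num) _ hx
  set g := IntermediateField.AdjoinSimple.gen K x with hg
  have hg2 : g ^ 2 = algebraMap K _ a := by
    have h0 : aeval g (minpoly K g) = 0 := minpoly.aeval K g
    rw [hg, IntermediateField.minpoly_gen, hx, ← hg] at h0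
    simp only [map_sub, map_pow, aeval_X, aeval_C] at h0
    exact sub_eq_zero.mp h0
  have hlin : ∀ s t : K, algebraMap K (IntermediateField.adjoin K {x}) s +
      algebraMap K (IntermediateField.adjoin K {x}) t * g = 0 → t = 0 ∧ s = 0 := by
    intro s t hst
    have ht : t = 0 := by
      by_contra ht
      have h1 : g = algebraMap K _ (-s / t) := by
        have ht' : algebraMap K (IntermediateField.adjoin K {x}) t ≠ 0 := by
          simpa using ht
        rw [map_div₀, map_neg, eq_div_iff ht']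
        linear_combination hst
      rw [h1, ← map_pow] at hg2
      exact ha _ ((algebraMap K (IntermediateField.adjoin K {x})).injective hg2)
    refine ⟨ht, ?_⟩
    rw [ht, map_zero, zero_mul, add_zero] at hst
    simpa using hst
  obtain ⟨f, hfd, hfe⟩ := (IntermediateField.adjoin.powerBasis hi).exists_eq_aeval β
  rw [IntermediateField.adjoin.powerBasis_dim, hx, natDegree_X_pow_sub_C] at hfd
  rw [IntermediateField.adjoin.powerBasis_gen, ← hg,
    eq_X_add_C_of_natDegree_le_one (by omega : f.natDegree ≤ 1)] at hfe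
  simp only [map_add, map_mul, aeval_C, aeval_X] at hfe
  set v := f.coeff 1
  set u := f.coeff 0
  have key : ∀ e : K, e ^ 2 = 1 → β ^ 2 = algebraMap K _ e * g → ∃ q : K, -(4 * q ^ 4) = a := by
    intro e he hbe
    have h1 := hlin (u ^ 2 + v ^ 2 * a) (2 * u * v - e) (by
      rw [hfe] at hbe
      simp only [map_sub, map_add, map_mul, map_pow, map_ofNat] at hbe hg2 ⊢
      linear_combination hbe - (algebraMap K _ v) ^ 2 * hg2)
    obtain ⟨h2, h3⟩ := h1
    have hv : v ≠ 0 := by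
      intro hv
      rw [hv] at h2
      have : e = 0 := by linear_combination -h2
      rw [this] at he; norm_num at he
    refine ⟨1 / (2 * v), ?_⟩
    have h4 : a = -(u ^ 2 / v ^ 2) := by
      field_simp; linear_combination h3
    have h5 : u = e / (2 * v) := by
      field_simp; linear_combination h2
    rw [h4, h5]
    have : (e / (2 * v)) ^ 2 = 1 / (2 * v) ^ 2 := by rw [div_pow, he]
    rw [this]
    field_simp
    ring
  rcases h with h | h
  · exact key 1 (by norm_num) (by rw [h]; simp)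
  · exact key (-1) (by norm_num) (by rw [h]; simp)

theorem ca_even {K : Type} [Field K] (h20 : (2 : K) ≠ 0) (a : K) (ha : ∀ q : K, q ^ 2 ≠ a)
    (h4 : ∀ q : K, -(4 * q ^ 4) ≠ a) (r : ℕ) :
    Irreducible (X ^ (2 ^ r) - C a : K[X]) := by
  cases r with
  | zero => simpa using irreducible_X_sub_C a
  | succ r =>
    rw [pow_succ]
    apply X_pow_mul_sub_C_irreducible (X_pow_sub_C_irreducible_of_prime Nat.prime_two ha)
    intro E _ _ x hx
    apply ca_two
    · intro β hβ
      obtain ⟨c, hc⟩ := ca_sq h20 a ha x hx β (Or.inl hβ)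
      exact h4 c hc
    · intro β hβ
      obtain ⟨c, hc⟩ := ca_sq h20 a ha x hx β (Or.inr hβ)
      exact h4 c hc

theorem ca_gen {K : Type} [Field K] (h20 : (2 : K) ≠ 0) (a : K) (ha : ∀ q : K, q ^ 2 ≠ a)
    (h4 : ∀ q : K, -(4 * q ^ 4) ≠ a) (r m : ℕ) (hm : Odd m)
    (hodd : ∀ p : ℕ, p.Prime → p ∣ m → ∀ q : K, ¬ (q ^ p = a ∨ q ^ p = -a)) :
    Irreducible (X ^ (m * 2 ^ r) - C a : K[X]) := by
  apply X_pow_mul_sub_C_irreducible (ca_even h20 a ha h4 r)
  intro E _ _ x hx
  apply X_pow_sub_C_irreducible_of_odd hm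
  intro p hp hpm β hβ
  apply hodd p hp hpm (Algebra.norm K β)
  rw [← map_pow, hβ, ca_norm_gen x _ (by positivity) _ hx]
  rcases neg_one_pow_eq_or K (2 ^ r + 1) with h | h <;> rw [h] <;> simp

/-- row CA (Capelli) -/
theorem capelli (b : ℕ) (hb : 2 ≤ b) (h1 : ∀ a m : ℕ, 3 ≤ m → Odd m → a ^ m ≠ b)
    (h4 : ∀ c : ℕ, 4 * c ^ 4 ≠ b) (k : ℕ) (hk : 1 ≤ k) :
    Irreducible (X ^ k + C (b : ℚ) : ℚ[X]) := by
  obtain ⟨r, m, hm, rfl⟩ := Nat.exists_eq_two_pow_mul_odd (by omega : k ≠ 0)
  have e : (X ^ (2 ^ r * m) + C (b : ℚ) : ℚ[X]) = X ^ (m * 2 ^ r) - C (-(b : ℚ)) := by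
    rw [mul_comm m]; simp
  rw [e]
  have hb2 : (2 : ℚ) ≤ b := by exact_mod_cast hb
  apply ca_gen (by norm_num) _ _ _ r m hm
  · intro p hp hpm q hq
    have hq' : q ^ p = b ∨ q ^ p = -b := by
      rcases hq with h | h
      · exact Or.inr h
      · exact Or.inl (by rw [h]; ring)
    obtain ⟨t, ht⟩ := ca_pow hq' hp.ne_zero
    have hpo : Odd p := Odd.of_dvd_nat hm hpm
    have hp3 : 3 ≤ p := by
      have := hp.two_le
      rcases hpo with ⟨l, hl⟩; omega
    exact h1 t p hp3 hpo ht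
  · intro q hq
    have h3 : (0 : ℚ) ≤ q ^ 2 := sq_nonneg _
    linarith
  · intro q hq
    obtain ⟨c, hc⟩ := ca_four (q := q) (b := b) (by linarith)
    exact h4 c hc

end CZF
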