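import Pool.Agent.CZF.Defs

/-! Basic facts on complex roots, Mahler measure and resultants. -/

open scoped BigOperators
open Polynomial

namespace CZF


theorem sb_inj : Function.Injective (Int.castRingHom ℂ) := Int.cast_injective

theorem sb_ne {P : ℤ[X]} (h : P ≠ 0) : P.map (Int.castRingHom ℂ) ≠ 0 :=
  (Polynomial.map_ne_zero_iff sb_inj).2 h

theorem sb_natDegree (P : ℤ[X]) : (P.map (Int.castRingHom ℂ)).natDegree = P.natDegree :=
  natDegree_map_eq_of_injective sb_inj P

theorem sb_lc (P : ℤ[X]) : (P.map (Int.castRingHom ℂ)).leadingCoeff = (P.leadingCoeff : ℂ) := by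
  rw [leadingCoeff_map_of_injective sb_inj]; rfl

theorem sb_card (P : ℤ[X]) : (rts P).card = P.natDegree := by
  rw [← sb_natDegree]
  exact (splits_iff_card_roots.1 (IsAlgClosed.splits (P.map (Int.castRingHom ℂ))))

theorem sb_eval (G : ℤ[X]) (z : ℂ) : (G.map (Int.castRingHom ℂ)).eval z = aeval z G := by
  rw [eval_map, aeval_def]; rfl

theorem sb_mem {P : ℤ[X]} (h : P ≠ 0) (z : ℂ) : z ∈ rts P ↔ aeval z P = 0 := by
  rw [rts, mem_roots (sb_ne h), IsRoot, sb_eval]

theorem sb_one_le_prod (s : Multiset ℂ) : 1 ≤ (s.map fun z => max 1 ‖z‖).prod := by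
  induction s using Multiset.induction with
  | empty => simp
  | cons a s ih =>
    rw [Multiset.map_cons, Multiset.prod_cons]
    exact one_le_mul_of_one_le_of_one_le (le_max_left _ _) ih

theorem sb_one_le_mm {P : ℤ[X]} (hP : P ≠ 0) : 1 ≤ mm P := by
  have h1 : (1 : ℝ) ≤ |(P.leadingCoeff : ℝ)| := by
    have : P.leadingCoeff ≠ 0 := leadingCoeff_ne_zero.2 hP
    exact_mod_cast Int.one_le_abs this
  exact one_le_mul_of_one_le_of_one_le h1 (sb_one_le_prod _)

/-- the resultant with formal degree `m`, as a product over the complex roots -/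
theorem sb_resultant (P G : ℤ[X]) (m : ℕ) (hG : G.natDegree ≤ m) :
    ((resultant P G P.natDegree m : ℤ) : ℂ) =
      (P.leadingCoeff : ℂ) ^ m * ((rts P).map fun z => aeval z G).prod := by
  have h1 := resultant_eq_prod_eval (P.map (Int.castRingHom ℂ)) (G.map (Int.castRingHom ℂ)) m
    ((sb_natDegree G).trans_le hG) (IsAlgClosed.splits _)
  have h2 : resultant (P.map (Int.castRingHom ℂ)) (G.map (Int.castRingHom ℂ)) P.natDegree m =
      ((resultant P G P.natDegree m : ℤ) : ℂ) :=
    resultant_map_map P G P.natDegree m (Int.castRingHom ℂ)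
  rw [sb_natDegree, h2, sb_lc] at h1
  rw [h1, rts]
  congr 2
  refine Multiset.map_congr rfl fun z _ => ?_
  exact sb_eval G z

theorem sb_norm_prod_le (s : Multiset ℂ) (f : ℂ → ℂ) (g : ℂ → ℝ) (h : ∀ z ∈ s, ‖f z‖ ≤ g z) :
    ‖(s.map f).prod‖ ≤ (s.map g).prod := by
  induction s using Multiset.induction with
  | empty => simp
  | cons a s ih =>
    rw [Multiset.map_cons, Multiset.map_cons, Multiset.prod_cons, Multiset.prod_cons, norm_mul]
    exact mul_le_mul (h a (Multiset.mem_cons_self a s))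
      (ih fun z hz => h z (Multiset.mem_cons_of_mem hz)) (norm_nonneg _)
      ((norm_nonneg _).trans (h a (Multiset.mem_cons_self a s)))

/-- upper bound for a resultant when `‖G(z)‖ ≤ B max(1,‖z‖)^m` at the roots -/
theorem sb_resultant_le (P G : ℤ[X]) (m : ℕ) (hG : G.natDegree ≤ m) (B : ℝ)
    (hB : ∀ z ∈ rts P, ‖aeval z G‖ ≤ B * max 1 ‖z‖ ^ m) :
    |((resultant P G P.natDegree m : ℤ) : ℝ)| ≤ B ^ P.natDegree * mm P ^ m := by
  have h0 : |((resultant P G P.natDegree m : ℤ) : ℝ)| =
      ‖((resultant P G P.natDegree m : ℤ) : ℂ)‖ := by rw [Complex.norm_intCast]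
  rw [h0, sb_resultant P G m hG, norm_mul, norm_pow, Complex.norm_intCast]
  have h1 := sb_norm_prod_le (rts P) (fun z => aeval z G) (fun z => B * max 1 ‖z‖ ^ m) hB
  have h2 : ((rts P).map fun z => B * max 1 ‖z‖ ^ m).prod =
      B ^ P.natDegree * ((rts P).map fun z => max 1 ‖z‖).prod ^ m := by
    rw [Multiset.prod_map_mul, Multiset.map_const', Multiset.prod_replicate, sb_card,
      Multiset.prod_map_pow]
  rw [h2] at h1
  rw [mm, mul_pow]
  calc |(P.leadingCoeff : ℝ)| ^ m * ‖((rts P).map fun z => aeval z G).prod‖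
      ≤ |(P.leadingCoeff : ℝ)| ^ m *
        (B ^ P.natDegree * ((rts P).map fun z => max 1 ‖z‖).prod ^ m) :=
        mul_le_mul_of_nonneg_left h1 (by positivity)
    _ = _ := by ring

/-- vanishing at one root of an irreducible polynomial is vanishing at every root -/
theorem sb_root_iff {P : ℤ[X]} (hP : Irreducible P) (hg : 1 ≤ P.natDegree) (G : ℤ[X]) {z z' : ℂ}
    (hz : aeval z P = 0) (hz' : aeval z' P = 0) : aeval z G = 0 ↔ aeval z' G = 0 := by
  have hprim : P.IsPrimitive := hP.isPrimitive (by omega)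
  have hirr : Irreducible (P.map (Int.castRingHom ℚ)) :=
    (IsPrimitive.Int.irreducible_iff_irreducible_map_cast hprim).1 hP
  have hc : ∀ (x : ℂ) (H : ℤ[X]), aeval x (H.map (Int.castRingHom ℚ)) = aeval x H := by
    intro x H
    rw [aeval_def, aeval_def, eval₂_map]
    congr 1
  have key : ∀ x : ℂ, aeval x P = 0 → ∀ H : ℤ[X],
      (aeval x H = 0 ↔ minpoly ℚ x ∣ H.map (Int.castRingHom ℚ)) := by
    intro x _ H
    rw [minpoly.dvd_iff, hc]
  have hm : ∀ x : ℂ, aeval x P = 0 → minpoly ℚ x =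
      P.map (Int.castRingHom ℚ) * C (P.map (Int.castRingHom ℚ)).leadingCoeff⁻¹ := by
    intro x hx
    exact (minpoly.eq_of_irreducible hirr (by rw [hc, hx])).symm
  rw [key z hz, key z' hz', hm z hz, hm z' hz']

end CZF
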