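import Pool.Agent.CZF.Defs
import Pool.Agent.CZF.SB

open scoped BigOperators
open Polynomial

namespace CZF

theorem co_one_lt_norm_prod (s : Multiset ℂ) (f : ℂ → ℂ) (h : ∀ z ∈ s, 1 < ‖f z‖)
    (hs : 0 < s.card) : 1 < ‖(s.map f).prod‖ := by
  induction s using Multiset.induction with
  | empty => simp at hs
  | cons a s ih =>
    rw [Multiset.map_cons, Multiset.prod_cons, norm_mul]
    have h1 := h a (Multiset.mem_cons_self a s)
    have h2 : 1 ≤ ‖(s.map f).prod‖ := by
      rcases Nat.eq_zero_or_pos s.card with h0 | h0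
      · rw [Multiset.card_eq_zero.1 h0]; simp
      · exact (ih (fun z hz => h z (Multiset.mem_cons_of_mem hz)) h0).le
    nlinarith

/-- row CO (converse): a factorisation of X^m + b gives nontrivial short factorisations -/
theorem converse (b m : ℕ) (hb : 2 ≤ b) (hm : 1 ≤ m) (A A' : ℤ[X]) (hA : 1 ≤ A.natDegree)
    (hA' : 1 ≤ A'.natDegree) (h : A * A' = X ^ m + C (b : ℤ)) :
    ∃ p₀ : ℕ, ∀ p : ℕ, p.Prime → p₀ < p → ∀ η : ℂ, IsPrimitiveRoot η p →
      ∀ U : ℤ[X], aeval η A * aeval η U ≠ 1 := by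
  refine ⟨m * (b + 2), fun p hp hpp η hη U hU => ?_⟩
  haveI : Fact p.Prime := ⟨hp⟩
  have hA0 : A ≠ 0 := by
    rintro rfl
    simp at hA
  -- the roots of `A`
  have hroot : ∀ z ∈ rts A, ‖z‖ ^ m = b := by
    intro z hz
    have h1 : aeval z A = 0 := (sb_mem hA0 z).1 hz
    have h2 : aeval z (A * A') = 0 := by rw [map_mul, h1, zero_mul]
    rw [h, map_add, map_pow, aeval_X, aeval_C] at h2
    have h3 : z ^ m = -(b : ℂ) := by
      have : z ^ m + (b : ℂ) = 0 := by simpa using h2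
      linear_combination this
    have h4 := congrArg norm h3
    rw [norm_pow, norm_neg, Complex.norm_natCast] at h4
    exact h4
  have hbR : (2 : ℝ) ≤ b := by exact_mod_cast hb
  have hbig : ∀ z ∈ rts A, 1 < ‖aeval z (cyclotomic p ℤ)‖ := by
    intro z hz
    have hz1 : 1 < ‖z‖ := by
      by_contra hcon
      push Not at hcon
      have := pow_le_one₀ (n := m) (norm_nonneg z) hcon
      rw [hroot z hz] at this
      linarith
    have hzb : ‖z‖ ≤ b := by
      rw [← hroot z hz]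
      exact le_self_pow₀ hz1.le (by omega)
    have hzp : (b : ℝ) + 2 < ‖z‖ ^ p := by
      have h1 : ‖z‖ ^ (m * (b + 2)) < ‖z‖ ^ p := pow_lt_pow_right₀ hz1 hpp
      have h2 : ‖z‖ ^ (m * (b + 2)) = (b : ℝ) ^ (b + 2) := by rw [pow_mul, hroot z hz]
      have h3 : (2 : ℝ) ^ (b + 2) ≤ (b : ℝ) ^ (b + 2) := pow_le_pow_left₀ (by norm_num) hbR _
      have h4 : ((b + 2 : ℕ) : ℝ) < (2 : ℝ) ^ (b + 2) := by exact_mod_cast Nat.lt_two_pow_self
      push_cast at h4
      linarith
    have hmul : aeval z (cyclotomic p ℤ) * (z - 1) = z ^ p - 1 := by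
      have := congrArg (aeval z) (cyclotomic_prime_mul_X_sub_one ℤ p)
      simpa using this
    have hn := congrArg norm hmul
    rw [norm_mul] at hn
    have h5 : ‖z - 1‖ ≤ ‖z‖ + 1 := (norm_sub_le _ _).trans (by simp)
    have h6 : ‖z‖ ^ p - 1 ≤ ‖z ^ p - 1‖ := by
      have := norm_sub_norm_le (z ^ p) 1
      rw [norm_pow, norm_one] at this
      exact this
    by_contra hcon
    push Not at hcon
    have h7 : ‖aeval z (cyclotomic p ℤ)‖ * ‖z - 1‖ ≤ 1 * (‖z‖ + 1) :=
      mul_le_mul hcon h5 (norm_nonneg _) zero_le_one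
    linarith
  -- coprimality
  have hdvd : cyclotomic p ℤ ∣ A * U - 1 := by
    rw [cyclotomic_eq_minpoly hη hp.pos]
    refine minpoly.isIntegrallyClosed_dvd (hη.isIntegral hp.pos) ?_
    rw [map_sub, map_mul, hU, map_one, sub_self]
  obtain ⟨V, hV⟩ := hdvd
  have hcop : IsCoprime (cyclotomic p ℤ) A := ⟨-V, U, by linear_combination hV⟩
  have hunit := (isUnit_resultant_iff_isCoprime (cyclotomic.monic p ℤ)).2 hcop
  rw [resultant_comm] at hunit
  have hunit2 : IsUnit (resultant A (cyclotomic p ℤ) A.natDegree (cyclotomic p ℤ).natDegree) :=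
    isUnit_of_mul_isUnit_right hunit
  have habs : |((resultant A (cyclotomic p ℤ) A.natDegree (cyclotomic p ℤ).natDegree : ℤ) : ℝ)|
      = 1 := by
    rcases Int.isUnit_iff.1 hunit2 with h1 | h1 <;> rw [h1] <;> simp
  have hprod := sb_resultant A (cyclotomic p ℤ) (cyclotomic p ℤ).natDegree le_rfl
  have h8 := congrArg norm hprod
  rw [Complex.norm_intCast, habs, norm_mul, norm_pow, Complex.norm_intCast] at h8
  have h9 : 1 < ‖((rts A).map fun z => aeval z (cyclotomic p ℤ)).prod‖ :=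
    co_one_lt_norm_prod _ _ hbig (by rw [sb_card]; omega)
  have h10 : (1 : ℝ) ≤ |(A.leadingCoeff : ℝ)| ^ (cyclotomic p ℤ).natDegree := by
    refine one_le_pow₀ ?_
    have : A.leadingCoeff ≠ 0 := leadingCoeff_ne_zero.2 hA0
    exact_mod_cast Int.one_le_abs this
  nlinarith

end CZF
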