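import Pool.Agent.CZF.Defs
import Pool.Agent.CZF.SB

open scoped BigOperators
open Polynomial

namespace CZF

/-- conjugation of relations -/
theorem conj_rel (p : ℕ) (hp : p.Prime) (ξ : ℂ) (hξ : IsPrimitiveRoot ξ p) (T : ℤ[X])
    (hT : aeval ξ T = 0) (j : ℕ) (hj : ¬ p ∣ j) : aeval (ξ ^ j) T = 0 := by
  have h1 : minpoly ℤ ξ ∣ T := minpoly.isIntegrallyClosed_dvd (hξ.isIntegral hp.pos) hT
  rw [← cyclotomic_eq_minpoly hξ hp.pos] at h1
  have hcop : Nat.Coprime j p := ((Nat.Prime.coprime_iff_not_dvd hp).2 hj).symm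
  have h2 : IsPrimitiveRoot (ξ ^ j) p := hξ.pow_of_coprime j hcop
  rw [cyclotomic_eq_minpoly h2 hp.pos] at h1
  obtain ⟨S, rfl⟩ := h1
  rw [map_mul, minpoly.aeval, zero_mul]

/-- row IN: the norm is an integer -/
theorem prod_int (p : ℕ) (hp : p.Prime) (ξ : ℂ) (hξ : IsPrimitiveRoot ξ p) (T : ℤ[X]) :
    ∃ z : ℤ, ∏ j ∈ Finset.Icc 1 (p - 1), aeval (ξ ^ j) T = (z : ℂ) := by
  refine ⟨resultant (cyclotomic p ℤ) T (cyclotomic p ℤ).natDegree T.natDegree, ?_⟩
  rw [sb_resultant (cyclotomic p ℤ) T T.natDegree le_rfl, (cyclotomic.monic p ℤ).leadingCoeff,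
    Int.cast_one, one_pow, one_mul, rts]
  have h1 : ((cyclotomic p ℤ).map (Int.castRingHom ℂ)).roots = (primitiveRoots p ℂ).val := by
    rw [map_cyclotomic_int]
    haveI : NeZero ((p : ℕ) : ℂ) := ⟨by exact_mod_cast hp.ne_zero⟩
    exact cyclotomic.roots_eq_primitiveRoots_val
  rw [h1]
  change _ = ∏ z ∈ primitiveRoots p ℂ, aeval z T
  refine Finset.prod_nbij (fun j => ξ ^ j) ?_ ?_ ?_ fun j _ => rfl
  · intro j hj
    rw [Finset.mem_Icc] at hj
    rw [mem_primitiveRoots hp.pos]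
    refine hξ.pow_of_coprime j ?_
    refine ((Nat.Prime.coprime_iff_not_dvd hp).2 fun h => ?_).symm
    have := Nat.le_of_dvd (by omega) h
    have := hp.one_lt
    omega
  · intro i hi j hj hij
    rw [Finset.mem_coe, Finset.mem_Icc] at hi hj
    have := hp.one_lt
    exact hξ.pow_inj (by omega) (by omega) hij
  · intro z hz
    rw [Finset.mem_coe, mem_primitiveRoots hp.pos] at hz
    haveI : NeZero p := ⟨hp.ne_zero⟩
    obtain ⟨i, hi, hcop, rfl⟩ := hξ.isPrimitiveRoot_iff.1 hz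
    refine ⟨i, ?_, rfl⟩
    rw [Finset.mem_coe, Finset.mem_Icc]
    refine ⟨?_, by omega⟩
    rcases Nat.eq_zero_or_pos i with h | h
    · subst h
      rw [Nat.coprime_zero_left] at hcop
      exact absurd hcop hp.one_lt.ne'
    · exact h

end CZF
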