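import Mathlib

/-! Cyclotomic factors of b + zeta (MP_ce8d0c_nt), definitions -/

open Polynomial

namespace CZF

/-- complex roots (with multiplicity) of an integer polynomial -/
noncomputable def rts (P : ℤ[X]) : Multiset ℂ := (P.map (Int.castRingHom ℂ)).roots

/-- Mahler measure -/
noncomputable def mm (P : ℤ[X]) : ℝ := |(P.leadingCoeff : ℝ)| * ((rts P).map fun z => max 1 ‖z‖).prod

/-- length -/
def len (F : ℤ[X]) : ℤ := ∑ i ∈ F.support, |F.coeff i|

end CZF
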