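import Pool.Agent.CZF.S5

set_option autoImplicit false

open Polynomial

namespace CZF

/-- rows S5' and S6': sharper forms with `min 1 (d |1 - |ρ| ^ 2|)` -/
theorem s56_min (s : ℝ) (hs0 : 0 ≤ s) (hs1 : s ≤ 1) (d : ℕ) :
    min 1 (d * (1 - s)) ≤ 2 * (1 - s ^ d) := by
  set t := 1 - s with ht
  have ht0 : 0 ≤ t := by linarith
  have h1 : 1 + (d : ℝ) * t ≤ (1 + t) ^ d := one_add_mul_le_pow (by linarith) d
  have h2 : s ^ d * (1 + t) ^ d ≤ 1 := by
    rw [← mul_pow]
    apply pow_le_one₀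
    · exact mul_nonneg hs0 (by linarith)
    · have : s = 1 - t := by rw [ht]; ring
      rw [this]
      nlinarith
  set u := (d : ℝ) * t with hu
  have hu0 : 0 ≤ u := by positivity
  have hsd0 : 0 ≤ s ^ d := pow_nonneg hs0 d
  have h3 : s ^ d * (1 + u) ≤ 1 := (mul_le_mul_of_nonneg_left h1 hsd0).trans h2
  rcases le_total u 1 with h | h
  · rw [min_eq_right h]
    -- u ≤ 2 (1 - x), x (1 + u) ≤ 1
    have h4 : s ^ d ≤ 1 - u / 2 := by
      by_contra hcon
      push Not at hcon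
      have : 1 < s ^ d * (1 + u) := by nlinarith
      linarith
    linarith
  · rw [min_eq_left h]
    nlinarith

theorem s56_point (F : ℤ[X]) (L d : ℕ) (hL : len F ≤ L) (hd : F.natDegree ≤ d) (z : ℂ)
    (hz : aeval z F = 0) :
    ‖aeval z F.reverse‖ ≤ (L : ℝ) * min 1 ((d : ℝ) * |1 - ‖z‖ ^ 2|) * max 1 ‖z‖ ^ (2 * d) := by
  have hm : 1 ≤ max 1 ‖z‖ := le_max_left _ _
  have h1 := s5_point F L d hL hd z hz
  have h2 : ‖aeval z F.reverse‖ ≤ (L : ℝ) * max 1 ‖z‖ ^ (2 * d) := by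
    rw [s5_aeval_reverse]
    refine (norm_sum_le _ _).trans ?_
    have hterm : ∀ j ∈ Finset.range (F.natDegree + 1),
        ‖(F.coeff j : ℂ) * z ^ (F.natDegree - j)‖ ≤ |(F.coeff j : ℝ)| * max 1 ‖z‖ ^ (2 * d) := by
      intro j _
      rw [norm_mul, Complex.norm_intCast, norm_pow]
      refine mul_le_mul_of_nonneg_left ?_ (abs_nonneg _)
      calc ‖z‖ ^ (F.natDegree - j) ≤ max 1 ‖z‖ ^ (F.natDegree - j) :=
            pow_le_pow_left₀ (norm_nonneg z) (le_max_right _ _) _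
        _ ≤ max 1 ‖z‖ ^ (2 * d) := pow_le_pow_right₀ hm (by omega)
    refine (Finset.sum_le_sum hterm).trans ?_
    rw [← Finset.sum_mul]
    have hlen : ∑ j ∈ Finset.range (F.natDegree + 1), |(F.coeff j : ℝ)| ≤ L := by
      have h8 : ((len F : ℤ) : ℝ) = ∑ j ∈ Finset.range (F.natDegree + 1), |(F.coeff j : ℝ)| := by
        unfold len
        push_cast
        refine Finset.sum_subset supp_subset_range_natDegree_succ (fun j _ hj => ?_)
        rw [notMem_support_iff.1 hj]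
        simp
      rw [← h8]
      exact_mod_cast hL
    exact mul_le_mul_of_nonneg_right hlen (by positivity)
  rcases le_total (1 : ℝ) (d * |1 - ‖z‖ ^ 2|) with h | h
  · rw [min_eq_left h, mul_one]
    exact h2
  · rw [min_eq_right h]
    calc _ ≤ _ := h1
      _ = _ := by ring

/-- row S5' -/
theorem circle_gap' (w d : ℕ) (hd1 : 1 ≤ d) (P F : ℤ[X]) (hP : Irreducible P) (hPF : P ∣ F) (hF0 : F.coeff 0 ≠ 0)
    (hL : len F ≤ w) (hd : F.natDegree ≤ d) (hR : ¬ P ∣ F.reverse) :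
    1 ≤ (w : ℝ) ^ P.natDegree * mm P ^ (2 * d) *
      ((rts P).map fun z => min 1 ((d : ℝ) * |1 - ‖z‖ ^ 2|)).prod := by
  have hg := s5_deg P F hPF hR
  have hroot : ∀ z ∈ rts P, aeval z P = 0 := by
    intro z hz
    unfold rts at hz
    have := (mem_roots'.1 hz).2
    rw [IsRoot.def, eval_map] at this
    rw [aeval_def]
    exact this
  have hFz : ∀ z ∈ rts P, aeval z F = 0 := by
    intro z hz
    obtain ⟨Q, hQ⟩ := hPF
    rw [hQ, map_mul, hroot z hz, zero_mul]
  have hrd : F.reverse.natDegree ≤ d := (reverse_natDegree_le F).trans hd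
  have hne : resultant P F.reverse P.natDegree d ≠ 0 := by
    intro h0
    have h1 := s5_res P F.reverse d hrd
    rw [h0, Int.cast_zero] at h1
    have hlc : (P.leadingCoeff : ℂ) ^ d ≠ 0 :=
      pow_ne_zero _ (by exact_mod_cast leadingCoeff_ne_zero.2 hP.ne_zero)
    have h2 := (mul_eq_zero.1 h1.symm).resolve_left hlc
    rw [Multiset.prod_eq_zero_iff, Multiset.mem_map] at h2
    obtain ⟨z, hz, hz0⟩ := h2
    exact hR (s5_dvd P F.reverse hP hg z hz hz0)
  have h1 : (1 : ℝ) ≤ |((resultant P F.reverse P.natDegree d : ℤ) : ℝ)| := by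
    exact_mod_cast Int.one_le_abs hne
  rw [s5_norm P F.reverse d hrd] at h1
  have hlc1 : (1 : ℝ) ≤ |(P.leadingCoeff : ℝ)| := by
    exact_mod_cast Int.one_le_abs (leadingCoeff_ne_zero.2 hP.ne_zero)
  have hbd : ((rts P).map fun z => ‖aeval z F.reverse‖).prod ≤
      ((rts P).map fun z => (w : ℝ) * min 1 ((d : ℝ) * |1 - ‖z‖ ^ 2|) * max 1 ‖z‖ ^ (2 * d)).prod :=
    Multiset.prod_map_le_prod_map₀ _ _ (fun z _ => norm_nonneg _)
      (fun z hz => s56_point F w d hL hd z (hFz z hz))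
  rw [Multiset.prod_map_mul, Multiset.prod_map_mul, Multiset.map_const', Multiset.prod_replicate,
    s5_card, Multiset.prod_map_pow] at hbd
  set A := ((rts P).map fun z => min 1 ((d : ℝ) * |1 - ‖z‖ ^ 2|)).prod with hA
  set B := ((rts P).map fun z => max 1 ‖z‖).prod with hB
  have hA0 : 0 ≤ A := Multiset.prod_nonneg (by
    intro a ha
    obtain ⟨z, -, rfl⟩ := Multiset.mem_map.1 ha
    exact le_min zero_le_one (mul_nonneg (Nat.cast_nonneg _) (abs_nonneg _)))
  have hB0 : 0 ≤ B := Multiset.prod_nonneg (by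
    intro a ha
    obtain ⟨z, -, rfl⟩ := Multiset.mem_map.1 ha
    exact le_trans zero_le_one (le_max_left _ _))
  have hwd : 0 ≤ (w : ℝ) ^ P.natDegree := by positivity
  calc (1 : ℝ) ≤ |(P.leadingCoeff : ℝ)| ^ d * ((rts P).map fun z => ‖aeval z F.reverse‖).prod := h1
    _ ≤ |(P.leadingCoeff : ℝ)| ^ d * ((w : ℝ) ^ P.natDegree * A * B ^ (2 * d)) :=
        mul_le_mul_of_nonneg_left hbd (pow_nonneg (abs_nonneg _) _)
    _ ≤ |(P.leadingCoeff : ℝ)| ^ (2 * d) * ((w : ℝ) ^ P.natDegree * A * B ^ (2 * d)) :=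
        mul_le_mul_of_nonneg_right (pow_le_pow_right₀ hlc1 (by omega))
          (mul_nonneg (mul_nonneg hwd hA0) (pow_nonneg hB0 _))
    _ = (w : ℝ) ^ P.natDegree * mm P ^ (2 * d) * A := by
        unfold mm
        rw [← hB, mul_pow]
        ring

end CZF
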