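import Pool.Agent.CZF.Defs
import Pool.Agent.CZF.SB

open scoped BigOperators
open Polynomial

namespace CZF

/-- the product of the conjugates is a resultant -/
theorem s6_prod_eq (p : ℕ) (hp : p.Prime) (ξ : ℂ) (hξ : IsPrimitiveRoot ξ p) (T : ℤ[X]) :
    ∏ j ∈ Finset.Icc 1 (p - 1), aeval (ξ ^ j) T =
      ((resultant (cyclotomic p ℤ) T (cyclotomic p ℤ).natDegree T.natDegree : ℤ) : ℂ) := by
  rw [sb_resultant (cyclotomic p ℤ) T T.natDegree le_rfl, (cyclotomic.monic p ℤ).leadingCoeff,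
    Int.cast_one, one_pow, one_mul, rts]
  have h1 : ((cyclotomic p ℤ).map (Int.castRingHom ℂ)).roots = (primitiveRoots p ℂ).val := by
    rw [map_cyclotomic_int]
    haveI : NeZero ((p : ℕ) : ℂ) := ⟨by exact_mod_cast hp.ne_zero⟩
    exact cyclotomic.roots_eq_primitiveRoots_val
  rw [h1]
  change _ = ∏ z ∈ primitiveRoots p ℂ, aeval z T
  refine Finset.prod_nbij (fun j => ξ ^ j) ?_ ?_ ?_ fun j _ => rfl
  · intro j hj
    rw [Finset.mem_Icc] at hj
    rw [mem_primitiveRoots hp.pos]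
    refine hξ.pow_of_coprime j ?_
    refine ((Nat.Prime.coprime_iff_not_dvd hp).2 fun h => ?_).symm
    have := Nat.le_of_dvd (by omega) h
    have := hp.one_lt
    omega
  · intro i hi j hj hij
    rw [Finset.mem_coe, Finset.mem_Icc] at hi hj
    have := hp.one_lt
    exact hξ.pow_inj (by omega) (by omega) hij
  · intro z hz
    rw [Finset.mem_coe, mem_primitiveRoots hp.pos] at hz
    haveI : NeZero p := ⟨hp.ne_zero⟩
    obtain ⟨i, hi, hcop, rfl⟩ := hξ.isPrimitiveRoot_iff.1 hz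
    refine ⟨i, ?_, rfl⟩
    rw [Finset.mem_coe, Finset.mem_Icc]
    refine ⟨?_, by omega⟩
    rcases Nat.eq_zero_or_pos i with h | h
    · subst h
      rw [Nat.coprime_zero_left] at hcop
      exact absurd hcop hp.one_lt.ne'
    · exact h

/-- lower bound for the cyclotomic polynomial off the unit circle -/
theorem s6_phi (p : ℕ) (hp : p.Prime) (hp3 : 3 ≤ p) (z : ℂ) (hz : ‖z‖ ≠ 1) :
    max 1 ‖z‖ ^ (p - 3) * |1 - ‖z‖ ^ 2| ≤ 2 * ‖aeval z (cyclotomic p ℤ)‖ := by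
  haveI : Fact p.Prime := ⟨hp⟩
  have hmul : aeval z (cyclotomic p ℤ) * (z - 1) = z ^ p - 1 := by
    have := congrArg (aeval z) (cyclotomic_prime_mul_X_sub_one ℤ p)
    simpa using this
  have hn := congrArg norm hmul
  rw [norm_mul] at hn
  set M := max 1 ‖z‖ with hM
  have hM1 : 1 ≤ M := le_max_left _ _
  have h5 : ‖z - 1‖ ≤ 2 * M := by
    refine (norm_sub_le _ _).trans ?_
    rw [norm_one]
    have := le_max_right 1 ‖z‖
    linarith
  have h6 : M ^ (p - 2) * |1 - ‖z‖ ^ 2| ≤ ‖z ^ p - 1‖ := by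
    rcases lt_or_gt_of_ne hz with h | h
    · have hMe : M = 1 := max_eq_left h.le
      rw [hMe, one_pow, one_mul]
      have h1 : ‖z‖ ^ p ≤ ‖z‖ ^ 2 := pow_le_pow_of_le_one (norm_nonneg _) h.le (by omega)
      have h2 : ‖z‖ ^ 2 ≤ 1 := pow_le_one₀ (norm_nonneg _) h.le
      rw [abs_of_nonneg (by linarith)]
      have h3 := norm_sub_norm_le (1 : ℂ) (z ^ p)
      rw [norm_pow, norm_one, norm_sub_rev] at h3
      linarith
    · have hMe : M = ‖z‖ := max_eq_right h.le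
      rw [hMe]
      have h1 : 1 ≤ ‖z‖ ^ 2 := one_le_pow₀ h.le
      rw [abs_of_nonpos (by linarith)]
      have h3 := norm_sub_norm_le (z ^ p) (1 : ℂ)
      rw [norm_pow, norm_one] at h3
      have h4 : ‖z‖ ^ p = ‖z‖ ^ (p - 2) * ‖z‖ ^ 2 := by
        rw [← pow_add]; congr 1; omega
      have h7 : 1 ≤ ‖z‖ ^ (p - 2) := one_le_pow₀ h.le
      nlinarith
  have h8 : M ^ (p - 2) = M ^ (p - 3) * M := by
    rw [← pow_succ]; congr 1; omega
  rw [h8, ← hn] at h6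
  have h9 : ‖aeval z (cyclotomic p ℤ)‖ * ‖z - 1‖ ≤ ‖aeval z (cyclotomic p ℤ)‖ * (2 * M) :=
    mul_le_mul_of_nonneg_left h5 (norm_nonneg _)
  have h10 : (M ^ (p - 3) * |1 - ‖z‖ ^ 2|) * M ≤ (2 * ‖aeval z (cyclotomic p ℤ)‖) * M := by
    nlinarith
  exact le_of_mul_le_mul_right h10 (by linarith)

theorem s6_prod_le (s : Multiset ℂ) (f : ℂ → ℝ) (g : ℂ → ℂ)
    (h : ∀ z ∈ s, 0 ≤ f z ∧ f z ≤ 2 * ‖g z‖) :
    0 ≤ (s.map f).prod ∧ (s.map f).prod ≤ 2 ^ s.card * ‖(s.map g).prod‖ := by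
  induction s using Multiset.induction with
  | empty => simp
  | cons a s ih =>
    obtain ⟨h0, h1⟩ := ih fun z hz => h z (Multiset.mem_cons_of_mem hz)
    obtain ⟨h2, h3⟩ := h a (Multiset.mem_cons_self a s)
    rw [Multiset.map_cons, Multiset.map_cons, Multiset.prod_cons, Multiset.prod_cons, norm_mul,
      Multiset.card_cons]
    refine ⟨mul_nonneg h2 h0, ?_⟩
    calc f a * (s.map f).prod ≤ (2 * ‖g a‖) * (2 ^ s.card * ‖(s.map g).prod‖) :=
          mul_le_mul h3 h1 h0 (h2.trans h3)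
      _ = _ := by ring

/-- row S6 -/
theorem norm_lower (p : ℕ) (hp : p.Prime) (hp3 : 3 ≤ p) (ξ : ℂ) (hξ : IsPrimitiveRoot ξ p)
    (P : ℤ[X]) (hP : P ≠ 0) (hρ : ∀ z ∈ rts P, ‖z‖ ≠ 1) :
    mm P ^ (p - 3) * ((rts P).map fun z => |1 - ‖z‖ ^ 2|).prod ≤
      2 ^ P.natDegree * ‖∏ j ∈ Finset.Icc 1 (p - 1), aeval (ξ ^ j) P‖ := by
  have hΦ : (cyclotomic p ℤ).natDegree = p - 1 := by
    rw [natDegree_cyclotomic, Nat.totient_prime hp]
  have h1 : ‖∏ j ∈ Finset.Icc 1 (p - 1), aeval (ξ ^ j) P‖ =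
      |(P.leadingCoeff : ℝ)| ^ (p - 1) *
        ‖((rts P).map fun z => aeval z (cyclotomic p ℤ)).prod‖ := by
    rw [s6_prod_eq p hp ξ hξ P, resultant_comm, Int.cast_mul, norm_mul]
    have h2 : ‖(((-1 : ℤ) ^ ((cyclotomic p ℤ).natDegree * P.natDegree) : ℤ) : ℂ)‖ = 1 := by
      push_cast
      rw [norm_pow, norm_neg, norm_one, one_pow]
    rw [h2, one_mul, sb_resultant P (cyclotomic p ℤ) (cyclotomic p ℤ).natDegree le_rfl, norm_mul,
      norm_pow, Complex.norm_intCast, hΦ]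
  have h3 := s6_prod_le (rts P) (fun z => max 1 ‖z‖ ^ (p - 3) * |1 - ‖z‖ ^ 2|)
    (fun z => aeval z (cyclotomic p ℤ))
    (fun z hz => ⟨by positivity, s6_phi p hp hp3 z (hρ z hz)⟩)
  rw [sb_card, Multiset.prod_map_mul, Multiset.prod_map_pow] at h3
  have hlc : (1 : ℝ) ≤ |(P.leadingCoeff : ℝ)| := by
    have : P.leadingCoeff ≠ 0 := leadingCoeff_ne_zero.2 hP
    exact_mod_cast Int.one_le_abs this
  have h4 : |(P.leadingCoeff : ℝ)| ^ (p - 3) ≤ |(P.leadingCoeff : ℝ)| ^ (p - 1) :=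
    pow_le_pow_right₀ hlc (by omega)
  rw [h1, mm, mul_pow]
  calc |(P.leadingCoeff : ℝ)| ^ (p - 3) * ((rts P).map fun z => max 1 ‖z‖).prod ^ (p - 3) *
        ((rts P).map fun z => |1 - ‖z‖ ^ 2|).prod
      = |(P.leadingCoeff : ℝ)| ^ (p - 3) * (((rts P).map fun z => max 1 ‖z‖).prod ^ (p - 3) *
        ((rts P).map fun z => |1 - ‖z‖ ^ 2|).prod) := by ring
    _ ≤ |(P.leadingCoeff : ℝ)| ^ (p - 1) *
        (2 ^ P.natDegree * ‖((rts P).map fun z => aeval z (cyclotomic p ℤ)).prod‖) :=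
        mul_le_mul h4 h3.2 h3.1 (by positivity)
    _ = _ := by ring

end CZF
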