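import Pool.Agent.CZF.S5b
import Pool.Agent.CZF.S6

set_option autoImplicit false

open Polynomial

namespace CZF

theorem s6_phi' (p : ℕ) (hp : p.Prime) (hp3 : 3 ≤ p) (d : ℕ) (hd1 : 1 ≤ d) (hd : 2 * d ≤ p) (z : ℂ)
    (hz : ‖z‖ ≠ 1) :
    max 1 ‖z‖ ^ (p - 3) * min 1 ((d : ℝ) * |1 - ‖z‖ ^ 2|) ≤ 4 * ‖aeval z (cyclotomic p ℤ)‖ := by
  haveI : Fact p.Prime := ⟨hp⟩
  have hmul : aeval z (cyclotomic p ℤ) * (z - 1) = z ^ p - 1 := by
    have := congrArg (aeval z) (cyclotomic_prime_mul_X_sub_one ℤ p)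
    simpa using this
  have hn := congrArg norm hmul
  rw [norm_mul] at hn
  set M := max 1 ‖z‖ with hM
  have hM1 : 1 ≤ M := le_max_left _ _
  have h5 : ‖z - 1‖ ≤ 2 * M := by
    refine (norm_sub_le _ _).trans ?_
    rw [norm_one]
    have := le_max_right 1 ‖z‖
    linarith
  have h6 : M ^ (p - 2) * min 1 ((d : ℝ) * |1 - ‖z‖ ^ 2|) ≤ 2 * ‖z ^ p - 1‖ := by
    rcases lt_or_gt_of_ne hz with h | h
    · have hMe : M = 1 := max_eq_left h.le
      rw [hMe, one_pow, one_mul]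
      have h2 : ‖z‖ ^ 2 ≤ 1 := pow_le_one₀ (norm_nonneg _) h.le
      rw [abs_of_nonneg (by linarith)]
      have h1 := s56_min (‖z‖ ^ 2) (by positivity) h2 d
      have h4 : ‖z‖ ^ p ≤ (‖z‖ ^ 2) ^ d := by
        rw [← pow_mul]
        exact pow_le_pow_of_le_one (norm_nonneg _) h.le hd
      have h3 := norm_sub_norm_le (1 : ℂ) (z ^ p)
      rw [norm_pow, norm_one, norm_sub_rev] at h3
      linarith
    · have hMe : M = ‖z‖ := max_eq_right h.le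
      rw [hMe]
      set r := ‖z‖ with hr
      have hr0 : 0 < r := by linarith
      have h1 : 1 ≤ r ^ 2 := one_le_pow₀ h.le
      have habs : |1 - r ^ 2| = r ^ 2 - 1 := by
        rw [abs_of_nonpos (by linarith)]; ring
      rw [habs]
      have h3 := norm_sub_norm_le (z ^ p) (1 : ℂ)
      rw [norm_pow, norm_one, ← hr] at h3
      have hs := s56_min ((r ^ 2)⁻¹) (by positivity) (inv_le_one_of_one_le₀ h1) d
      have hpd : r ^ p = r ^ (p - 2 * d) * (r ^ 2) ^ d := by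
        rw [← pow_mul, ← pow_add]; congr 1; omega
      have hp2 : r ^ (p - 2) = r ^ (p - 2 * d) * (r ^ 2) ^ (d - 1) := by
        rw [← pow_mul, ← pow_add]; congr 1; omega
      have hge : 1 ≤ r ^ (p - 2 * d) := one_le_pow₀ h.le
      have hq0 : 0 < r ^ 2 := by positivity
      have hqd : (r ^ 2) ^ d = (r ^ 2) ^ (d - 1) * r ^ 2 := by
        rw [← pow_succ]; congr 1; omega
      -- multiply `hs` by `(r²)^d`
      have h7 : (r ^ 2) ^ (d - 1) * min 1 (d * (r ^ 2 - 1)) ≤ 2 * ((r ^ 2) ^ d - 1) := by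
        have e1 : min 1 ((d : ℝ) * (r ^ 2 - 1)) ≤ r ^ 2 * min 1 (d * (1 - (r ^ 2)⁻¹)) := by
          rw [mul_min_of_nonneg _ _ hq0.le]
          apply min_le_min
          · linarith
          · have : r ^ 2 * ((d : ℝ) * (1 - (r ^ 2)⁻¹)) = d * (r ^ 2 - 1) := by
              field_simp
            rw [this]
        have e2 : (r ^ 2) ^ (d - 1) * min 1 (d * (r ^ 2 - 1)) ≤
            (r ^ 2) ^ (d - 1) * (r ^ 2 * min 1 (d * (1 - (r ^ 2)⁻¹))) :=
          mul_le_mul_of_nonneg_left e1 (by positivity)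
        have e3 : (r ^ 2) ^ (d - 1) * (r ^ 2 * min 1 (d * (1 - (r ^ 2)⁻¹))) ≤
            (r ^ 2) ^ d * (2 * (1 - ((r ^ 2)⁻¹) ^ d)) := by
          rw [hqd, mul_assoc]
          exact mul_le_mul_of_nonneg_left (mul_le_mul_of_nonneg_left hs hq0.le) (by positivity)
        have e4 : (r ^ 2) ^ d * (2 * (1 - ((r ^ 2)⁻¹) ^ d)) = 2 * ((r ^ 2) ^ d - 1) := by
          rw [inv_pow]
          have : (r ^ 2) ^ d ≠ 0 := by positivity
          field_simp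
        linarith
      rw [hp2]
      have h8 : r ^ (p - 2 * d) * ((r ^ 2) ^ (d - 1) * min 1 (d * (r ^ 2 - 1))) ≤
          r ^ (p - 2 * d) * (2 * ((r ^ 2) ^ d - 1)) := mul_le_mul_of_nonneg_left h7 (by positivity)
      have h9 : r ^ (p - 2 * d) * (2 * ((r ^ 2) ^ d - 1)) ≤ 2 * (r ^ p - 1) := by
        rw [hpd]
        nlinarith
      calc r ^ (p - 2 * d) * (r ^ 2) ^ (d - 1) * min 1 (d * (r ^ 2 - 1))
          = r ^ (p - 2 * d) * ((r ^ 2) ^ (d - 1) * min 1 (d * (r ^ 2 - 1))) := by ring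
        _ ≤ 2 * (r ^ p - 1) := h8.trans h9
        _ ≤ 2 * ‖z ^ p - 1‖ := by linarith
  have h8 : M ^ (p - 2) = M ^ (p - 3) * M := by
    rw [← pow_succ]; congr 1; omega
  rw [h8, ← hn] at h6
  have h9 : ‖aeval z (cyclotomic p ℤ)‖ * ‖z - 1‖ ≤ ‖aeval z (cyclotomic p ℤ)‖ * (2 * M) :=
    mul_le_mul_of_nonneg_left h5 (norm_nonneg _)
  have h10 : (M ^ (p - 3) * min 1 ((d : ℝ) * |1 - ‖z‖ ^ 2|)) * M ≤ (4 * ‖aeval z (cyclotomic p ℤ)‖) * M := by
    nlinarith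
  exact le_of_mul_le_mul_right h10 (by linarith)

theorem s6_prod_le' (s : Multiset ℂ) (f : ℂ → ℝ) (g : ℂ → ℂ)
    (h : ∀ z ∈ s, 0 ≤ f z ∧ f z ≤ 4 * ‖g z‖) :
    0 ≤ (s.map f).prod ∧ (s.map f).prod ≤ 4 ^ s.card * ‖(s.map g).prod‖ := by
  induction s using Multiset.induction with
  | empty => simp
  | cons a s ih =>
    obtain ⟨h0, h1⟩ := ih fun z hz => h z (Multiset.mem_cons_of_mem hz)
    obtain ⟨h2, h3⟩ := h a (Multiset.mem_cons_self a s)
    rw [Multiset.map_cons, Multiset.map_cons, Multiset.prod_cons, Multiset.prod_cons, norm_mul,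
      Multiset.card_cons]
    refine ⟨mul_nonneg h2 h0, ?_⟩
    calc f a * (s.map f).prod ≤ (4 * ‖g a‖) * (4 ^ s.card * ‖(s.map g).prod‖) :=
          mul_le_mul h3 h1 h0 (h2.trans h3)
      _ = _ := by ring

/-- row S6' -/
theorem norm_lower' (p d : ℕ) (hp : p.Prime) (hp3 : 3 ≤ p) (hd1 : 1 ≤ d) (hd : 2 * d ≤ p) (ξ : ℂ)
    (hξ : IsPrimitiveRoot ξ p) (P : ℤ[X]) (hP : P ≠ 0) (hρ : ∀ z ∈ rts P, ‖z‖ ≠ 1) :
    mm P ^ (p - 3) * ((rts P).map fun z => min 1 ((d : ℝ) * |1 - ‖z‖ ^ 2|)).prod ≤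
      4 ^ P.natDegree * ‖∏ j ∈ Finset.Icc 1 (p - 1), aeval (ξ ^ j) P‖ := by
  have hΦ : (cyclotomic p ℤ).natDegree = p - 1 := by
    rw [natDegree_cyclotomic, Nat.totient_prime hp]
  have h1 : ‖∏ j ∈ Finset.Icc 1 (p - 1), aeval (ξ ^ j) P‖ =
      |(P.leadingCoeff : ℝ)| ^ (p - 1) *
        ‖((rts P).map fun z => aeval z (cyclotomic p ℤ)).prod‖ := by
    rw [s6_prod_eq p hp ξ hξ P, resultant_comm, Int.cast_mul, norm_mul]
    have h2 : ‖(((-1 : ℤ) ^ ((cyclotomic p ℤ).natDegree * P.natDegree) : ℤ) : ℂ)‖ = 1 := by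
      push_cast
      rw [norm_pow, norm_neg, norm_one, one_pow]
    rw [h2, one_mul, sb_resultant P (cyclotomic p ℤ) (cyclotomic p ℤ).natDegree le_rfl, norm_mul,
      norm_pow, Complex.norm_intCast, hΦ]
  have h3 := s6_prod_le' (rts P) (fun z => max 1 ‖z‖ ^ (p - 3) * min 1 ((d : ℝ) * |1 - ‖z‖ ^ 2|))
    (fun z => aeval z (cyclotomic p ℤ))
    (fun z hz => ⟨mul_nonneg (by positivity)
      (le_min zero_le_one (mul_nonneg (Nat.cast_nonneg _) (abs_nonneg _))),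
      s6_phi' p hp hp3 d hd1 hd z (hρ z hz)⟩)
  rw [sb_card, Multiset.prod_map_mul, Multiset.prod_map_pow] at h3
  have hlc : (1 : ℝ) ≤ |(P.leadingCoeff : ℝ)| := by
    have : P.leadingCoeff ≠ 0 := leadingCoeff_ne_zero.2 hP
    exact_mod_cast Int.one_le_abs this
  have h4 : |(P.leadingCoeff : ℝ)| ^ (p - 3) ≤ |(P.leadingCoeff : ℝ)| ^ (p - 1) :=
    pow_le_pow_right₀ hlc (by omega)
  rw [h1, mm, mul_pow]
  calc |(P.leadingCoeff : ℝ)| ^ (p - 3) * ((rts P).map fun z => max 1 ‖z‖).prod ^ (p - 3) *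
        ((rts P).map fun z => min 1 ((d : ℝ) * |1 - ‖z‖ ^ 2|)).prod
      = |(P.leadingCoeff : ℝ)| ^ (p - 3) * (((rts P).map fun z => max 1 ‖z‖).prod ^ (p - 3) *
        ((rts P).map fun z => min 1 ((d : ℝ) * |1 - ‖z‖ ^ 2|)).prod) := by ring
    _ ≤ |(P.leadingCoeff : ℝ)| ^ (p - 1) *
        (4 ^ P.natDegree * ‖((rts P).map fun z => aeval z (cyclotomic p ℤ)).prod‖) :=
        mul_le_mul h4 h3.2 h3.1 (by positivity)
    _ = _ := by ring

end CZF
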