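import Pool.Agent.CZF.Defs

/-!
# Row S2: the conjugates of b + zeta are coprime
-/

set_option autoImplicit false

open Polynomial

namespace CZF

theorem s2_aux (p : ℕ) (hp : p.Prime) (ξ : ℂ) (hξ : IsPrimitiveRoot ξ p) (b : ℕ)
    (hb : ¬ p ∣ b + 1) (u t : ℕ) (ht : ¬ p ∣ t) :
    ∃ U V : ℤ[X], aeval ξ U * ((b : ℂ) + ξ ^ u) + aeval ξ V * ((b : ℂ) + ξ ^ (u + t)) = 1 := by
  have hcop : Nat.Coprime t p := ((Nat.Prime.coprime_iff_not_dvd hp).mpr ht).symm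
  obtain ⟨s, -, hs⟩ := Nat.exists_mul_mod_eq_one_of_coprime hcop hp.one_lt
  set η : ℂ := ξ ^ t with hη
  have hηp : IsPrimitiveRoot η p := hξ.pow_of_coprime t hcop
  have hηs : η ^ s = ξ := by
    rw [hη, ← pow_mul, pow_eq_pow_mod _ hξ.pow_eq_one, hs, pow_one]
  -- p is a multiple of 1 - eta
  set Q : ℤ[X] := ∑ j ∈ Finset.range p, ∑ i ∈ Finset.range j, X ^ (t * i) with hQ
  have hQv : aeval ξ Q * (1 - η) = p := by
    have h1 : aeval ξ Q = ∑ j ∈ Finset.range p, ∑ i ∈ Finset.range j, η ^ i := by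
      rw [hQ, map_sum]
      refine Finset.sum_congr rfl fun j _ => ?_
      rw [map_sum]
      refine Finset.sum_congr rfl fun i _ => ?_
      rw [map_pow, aeval_X, hη, ← pow_mul]
    rw [h1, Finset.sum_mul]
    have h2 : ∀ j ∈ Finset.range p, (∑ i ∈ Finset.range j, η ^ i) * (1 - η) = 1 - η ^ j :=
      fun j _ => geom_sum_mul_neg η j
    rw [Finset.sum_congr rfl h2, Finset.sum_sub_distrib, hηp.geom_sum_eq_zero hp.one_lt, sub_zero]
    simp
  -- 1 - xi^u is a multiple of 1 - eta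
  set Q2 : ℤ[X] := ∑ i ∈ Finset.range (s * u), X ^ (t * i) with hQ2
  have hQ2v : aeval ξ Q2 * (1 - η) = 1 - ξ ^ u := by
    have h1 : aeval ξ Q2 = ∑ i ∈ Finset.range (s * u), η ^ i := by
      rw [hQ2, map_sum]
      refine Finset.sum_congr rfl fun i _ => ?_
      rw [map_pow, aeval_X, hη, ← pow_mul]
    rw [h1, geom_sum_mul_neg, pow_mul, hηs]
  -- Bezout
  have hbc : Nat.Coprime (b + 1) p := ((Nat.Prime.coprime_iff_not_dvd hp).mpr hb).symm
  obtain ⟨x, y, hxy⟩ := Nat.isCoprime_iff_coprime.mpr hbc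
  have hxy' : (x : ℂ) * ((b : ℂ) + 1) + (y : ℂ) * (p : ℂ) = 1 := by
    have := congrArg (fun z : ℤ => (z : ℂ)) hxy
    push_cast at this
    exact this
  have hpow : ξ ^ (u * (p - 1)) * ξ ^ u = 1 := by
    rw [← pow_add]
    have : u * (p - 1) + u = p * u := by
      obtain ⟨p', hp'⟩ : ∃ p', p = p' + 1 := ⟨p - 1, by have := hp.one_lt; omega⟩
      rw [hp']
      simp only [Nat.add_sub_cancel]
      ring
    rw [this, pow_mul, hξ.pow_eq_one, one_pow]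
  have hdiff : (1 : ℂ) - η = ξ ^ (u * (p - 1)) * ((b : ℂ) + ξ ^ u) -
      ξ ^ (u * (p - 1)) * ((b : ℂ) + ξ ^ (u + t)) := by
    rw [pow_add, ← hη]
    linear_combination (η - 1) * hpow
  refine ⟨C x + (C x * Q2 + C y * Q) * X ^ (u * (p - 1)),
    -((C x * Q2 + C y * Q) * X ^ (u * (p - 1))), ?_⟩
  simp only [map_add, map_neg, map_mul, map_pow, aeval_X, map_intCast,
    eq_intCast]
  linear_combination hxy' + (x : ℂ) * hQ2v + (y : ℂ) * hQv -
    ((x : ℂ) * aeval ξ Q2 + (y : ℂ) * aeval ξ Q) * hdiff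

theorem coprime_conj (p : ℕ) (hp : p.Prime) (ξ : ℂ) (hξ : IsPrimitiveRoot ξ p) (b : ℕ)
    (hb : ¬ p ∣ b + 1) (u v : ℕ) (huv : ¬ u ≡ v [MOD p]) :
    ∃ U V : ℤ[X], aeval ξ U * ((b : ℂ) + ξ ^ u) + aeval ξ V * ((b : ℂ) + ξ ^ v) = 1 := by
  rcases le_total u v with h | h
  · obtain ⟨t, rfl⟩ := Nat.exists_eq_add_of_le h
    refine s2_aux p hp ξ hξ b hb u t fun ht => huv ?_
    exact (Nat.modEq_iff_dvd' h).mpr (by simpa using ht)
  · obtain ⟨t, rfl⟩ := Nat.exists_eq_add_of_le h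
    obtain ⟨U, V, hUV⟩ := s2_aux p hp ξ hξ b hb v t fun ht => huv
      ((Nat.modEq_iff_dvd' h).mpr (by simpa using ht)).symm
    exact ⟨V, U, by rw [add_comm]; exact hUV⟩

end CZF
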