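import Pool.Agent.CZF.CR
import Pool.Agent.CZF.S2

/-! Cyclotomic factors of b + zeta: the norm of a factor divides (row S7b) -/

open Polynomial

namespace CZF

/-- row S7b -/
theorem norm_dvd (p : ℕ) (hp : p.Prime) (ξ : ℂ) (hξ : IsPrimitiveRoot ξ p) (b : ℕ)
    (hb : ¬ p ∣ b + 1) (s : ℕ) (hs : ¬ p ∣ s) (P T T' : ℤ[X]) (y : ℤ) (hy : y ≠ 0)
    (h1 : (b : ℂ) + ξ ^ s = aeval ξ P * aeval ξ T) (h2 : (y : ℂ) = aeval ξ P * aeval ξ T') :
    ‖∏ j ∈ Finset.Icc 1 (p - 1), aeval (ξ ^ j) P‖ ≤ |(y : ℝ)| := by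
  have hj : ∀ j ∈ Finset.Icc 1 (p - 1), ¬ p ∣ j := by
    intro j hj hd
    rw [Finset.mem_Icc] at hj
    have := Nat.le_of_dvd (by omega) hd
    have := hp.one_lt
    omega
  -- the conjugate relations
  have c1 : ∀ j ∈ Finset.Icc 1 (p - 1),
      (b : ℂ) + ξ ^ (s * j) = aeval (ξ ^ j) P * aeval (ξ ^ j) T := by
    intro j hjm
    have h3 := conj_rel p hp ξ hξ (C (b : ℤ) + X ^ s - P * T) (by
      rw [map_sub, map_add, map_pow, map_mul, aeval_X, aeval_C, ← h1]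
      simp) j (hj j hjm)
    rw [map_sub, map_add, map_pow, map_mul, aeval_X, aeval_C, sub_eq_zero] at h3
    rw [← h3, ← pow_mul, mul_comm s j]
    simp
  have c2 : ∀ j ∈ Finset.Icc 1 (p - 1), (y : ℂ) = aeval (ξ ^ j) P * aeval (ξ ^ j) T' := by
    intro j hjm
    have h3 := conj_rel p hp ξ hξ (C y - P * T') (by
      rw [map_sub, map_mul, aeval_C, ← h2]
      simp) j (hj j hjm)
    rw [map_sub, map_mul, aeval_C, sub_eq_zero] at h3
    rw [← h3]
    simp
  -- the ring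
  let f : ℤ[X] →ₐ[ℤ] (aeval ξ : ℤ[X] →ₐ[ℤ] ℂ).range := (aeval ξ).rangeRestrict
  have hf : ∀ S, ((f S : (aeval ξ : ℤ[X] →ₐ[ℤ] ℂ).range) : ℂ) = aeval ξ S := fun S => rfl
  have hdvd : ∏ j ∈ Finset.Icc 1 (p - 1), f (expand ℤ j P) ∣ f (C y) := by
    apply Finset.prod_dvd_of_coprime
    · intro i hi j hjm hij
      obtain ⟨U, V, hUV⟩ := coprime_conj p hp ξ hξ b hb (s * i) (s * j) (by
        intro hmod
        have h4 : i ≡ j [MOD p] :=
          Nat.ModEq.cancel_left_of_coprime ((hp.coprime_iff_not_dvd.2 hs)) hmod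
        have h5 := Finset.mem_Icc.1 hi
        have h6 := Finset.mem_Icc.1 hjm
        have h7 := hp.one_lt
        exact hij (Nat.ModEq.eq_of_lt_of_lt h4 (by omega) (by omega)))
      refine ⟨f (U * expand ℤ i T), f (V * expand ℤ j T), ?_⟩
      apply Subtype.ext
      show ((f (U * expand ℤ i T) * f (expand ℤ i P) + f (V * expand ℤ j T) * f (expand ℤ j P) :
        (aeval ξ : ℤ[X] →ₐ[ℤ] ℂ).range) : ℂ) = 1
      rw [← map_mul, ← map_mul, ← map_add, hf, map_add, map_mul, map_mul, map_mul, map_mul,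
        expand_aeval, expand_aeval, expand_aeval, expand_aeval, ← hUV, c1 i hi, c1 j hjm]
      ring
    · intro j hjm
      refine ⟨f (expand ℤ j T'), ?_⟩
      apply Subtype.ext
      rw [← map_mul, hf, hf, map_mul, expand_aeval, expand_aeval, ← c2 j hjm, aeval_C]
      simp
  rw [← map_prod] at hdvd
  obtain ⟨⟨t, S, hS⟩, ht⟩ := hdvd
  obtain ⟨x, hx⟩ := prod_int p hp ξ hξ P
  obtain ⟨z, hz⟩ := prod_int p hp ξ hξ S
  have h3 : (y : ℂ) = x * aeval ξ S := by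
    have h4 := congrArg (fun a : (aeval ξ : ℤ[X] →ₐ[ℤ] ℂ).range => (a : ℂ)) ht
    simp only [hf, aeval_C, Subalgebra.coe_mul] at h4
    simp only [map_prod, expand_aeval] at h4
    rw [hx] at h4
    have h5 : (aeval ξ) S = t := hS
    rw [h5]
    simpa using h4
  have c3 : ∀ j ∈ Finset.Icc 1 (p - 1), (y : ℂ) = x * aeval (ξ ^ j) S := by
    intro j hjm
    have h4 := conj_rel p hp ξ hξ (C y - C x * S) (by
      rw [map_sub, map_mul, aeval_C, aeval_C]
      simp [h3]) j (hj j hjm)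
    rw [map_sub, map_mul, aeval_C, aeval_C, sub_eq_zero] at h4
    simpa using h4
  have h4 : (y : ℂ) ^ (p - 1) = (x : ℂ) ^ (p - 1) * z := by
    rw [← hz]
    have h5 : ∏ j ∈ Finset.Icc 1 (p - 1), (y : ℂ) = ∏ j ∈ Finset.Icc 1 (p - 1),
        ((x : ℂ) * aeval (ξ ^ j) S) := Finset.prod_congr rfl c3
    rw [Finset.prod_const, Finset.prod_mul_distrib, Finset.prod_const, Nat.card_Icc] at h5
    simpa using h5
  have h5 : y ^ (p - 1) = x ^ (p - 1) * z := by exact_mod_cast h4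
  have hz0 : z ≠ 0 := by
    rintro rfl
    rw [mul_zero] at h5
    exact pow_ne_zero _ hy h5
  have h6 : |x| ^ (p - 1) ≤ |y| ^ (p - 1) := by
    rw [← abs_pow, ← abs_pow, h5, abs_mul]
    exact le_mul_of_one_le_right (abs_nonneg _) (Int.one_le_abs hz0)
  have h7 : |x| ≤ |y| := le_of_pow_le_pow_left₀ (by have := hp.one_lt; omega) (abs_nonneg _) h6
  rw [hx, Complex.norm_intCast]
  exact_mod_cast h7

end CZF
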