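import Pool.Agent.CZF.Defs

open Polynomial

namespace CZF

theorem s7c_map_ne_zero {P : ℤ[X]} (hP : P ≠ 0) : P.map (Int.castRingHom ℂ) ≠ 0 :=
  (Polynomial.map_ne_zero_iff (RingHom.injective_int (Int.castRingHom ℂ))).2 hP

theorem s7c_card (P : ℤ[X]) : (rts P).card = P.natDegree := by
  unfold rts
  rw [← (IsAlgClosed.splits (P.map (Int.castRingHom ℂ))).natDegree_eq_card_roots]
  exact natDegree_map_eq_of_injective (RingHom.injective_int (Int.castRingHom ℂ)) P

/-- the resultant as a product over the roots -/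
theorem s7c_res (P G : ℤ[X]) (k : ℕ) (hk : G.natDegree ≤ k) :
    ((resultant P G P.natDegree k : ℤ) : ℂ) =
      (P.leadingCoeff : ℂ) ^ k * ((rts P).map fun z => aeval z G).prod := by
  have hinj := RingHom.injective_int (Int.castRingHom ℂ)
  have h1 := resultant_eq_prod_eval (P.map (Int.castRingHom ℂ)) (G.map (Int.castRingHom ℂ)) k
    (natDegree_map_le.trans hk) (IsAlgClosed.splits _)
  rw [natDegree_map_eq_of_injective hinj, resultant_map_map, leadingCoeff_map_of_injective hinj]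
    at h1
  rw [eq_intCast, eq_intCast] at h1
  rw [h1]
  congr 2
  refine Multiset.map_congr rfl (fun z _ => ?_)
  rw [eval_map, aeval_def]
  rfl

theorem s7c_norm (P G : ℤ[X]) (k : ℕ) (hk : G.natDegree ≤ k) :
    |((resultant P G P.natDegree k : ℤ) : ℝ)| =
      |(P.leadingCoeff : ℝ)| ^ k * ((rts P).map fun z => ‖aeval z G‖).prod := by
  have h1 := congrArg (fun z : ℂ => ‖z‖) (s7c_res P G k hk)
  simp only [norm_mul, norm_pow, Complex.norm_intCast] at h1
  rw [h1]
  congr 1
  have h2 := map_multiset_prod (normHom (α := ℂ)) ((rts P).map fun z => aeval z G)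
  rw [Multiset.map_map] at h2
  exact h2

theorem resultant_bound (P B : ℤ[X]) (k b : ℕ) (hg : 1 ≤ P.natDegree) (hk : B.natDegree ≤ k)
    (hB : ∀ z : ℂ, ‖aeval z B‖ ≤ ((b : ℝ) + 1) * max 1 ‖z‖ ^ k) :
    ∃ (y : ℤ) (U V : ℤ[X]), P * U + B * V = C y ∧
      |(y : ℝ)| ≤ ((b : ℝ) + 1) ^ P.natDegree * mm P ^ k ∧
      (y = 0 → ∃ z ∈ rts P, aeval z B = 0) := by
  have hP : P ≠ 0 := by
    rintro rfl
    simp at hg
  obtain ⟨U, V, -, -, hUV⟩ := exists_mul_add_mul_eq_C_resultant (m := P.natDegree) (n := k) P B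
    le_rfl hk (Or.inl (by omega))
  refine ⟨resultant P B P.natDegree k, U, V, hUV, ?_, ?_⟩
  · rw [s7c_norm P B k hk]
    have h1 : ((rts P).map fun z => ‖aeval z B‖).prod ≤
        ((rts P).map fun z => ((b : ℝ) + 1) * max 1 ‖z‖ ^ k).prod := by
      refine Multiset.prod_map_le_prod_map₀ _ _ (fun z _ => norm_nonneg _) (fun z _ => hB z)
    rw [Multiset.prod_map_mul, Multiset.map_const', Multiset.prod_replicate, s7c_card,
      Multiset.prod_map_pow] at h1
    calc |(P.leadingCoeff : ℝ)| ^ k * ((rts P).map fun z => ‖aeval z B‖).prod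
        ≤ |(P.leadingCoeff : ℝ)| ^ k *
          (((b : ℝ) + 1) ^ P.natDegree * ((rts P).map fun z => max 1 ‖z‖).prod ^ k) :=
          mul_le_mul_of_nonneg_left h1 (pow_nonneg (abs_nonneg _) _)
      _ = ((b : ℝ) + 1) ^ P.natDegree * mm P ^ k := by
          unfold mm
          rw [mul_pow]
          ring
  · intro h0
    have h1 := s7c_res P B k hk
    rw [h0, Int.cast_zero] at h1
    have hlc : (P.leadingCoeff : ℂ) ^ k ≠ 0 :=
      pow_ne_zero _ (by exact_mod_cast leadingCoeff_ne_zero.2 hP)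
    have h2 := (mul_eq_zero.1 h1.symm).resolve_left hlc
    rw [Multiset.prod_eq_zero_iff, Multiset.mem_map] at h2
    exact h2

end CZF
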