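import Pool.Agent.CZF.S3b
import Pool.Agent.CZF.S5b
import Pool.Agent.CZF.S6b
import Pool.Agent.CZF.S7b
import Pool.Agent.CZF.B0
import Pool.Agent.CZF.S7c

open Polynomial

namespace CZF

/-- unit in ℤ[ξ] -/
def Un (ξ : ℂ) (x : ℂ) : Prop := ∃ U : ℤ[X], x * aeval ξ U = 1

theorem un_of_factors (ξ : ℂ) (F : ℤ[X]) (hF : F ≠ 0)
    (h : ∀ P : ℤ[X], Irreducible P → P ∣ F → Un ξ (aeval ξ P)) : Un ξ (aeval ξ F) := by
  have key : ∀ G : ℤ[X], G ∣ F → Un ξ (aeval ξ G) := by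
    intro G
    induction G using WfDvdMonoid.induction_on_irreducible with
    | zero => intro h0; exact absurd (zero_dvd_iff.mp h0) hF
    | unit u hu =>
      intro _
      obtain ⟨v, hv⟩ := hu.exists_right_inv
      exact ⟨v, by rw [← map_mul, hv, map_one]⟩
    | mul a i ha hi ih =>
      intro hd
      obtain ⟨U, hU⟩ := ih (dvd_trans (dvd_mul_left a i) hd)
      obtain ⟨V, hV⟩ := h i hi (dvd_trans (dvd_mul_right i a) hd)
      refine ⟨V * U, ?_⟩
      rw [map_mul, map_mul]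
      linear_combination (aeval ξ a) * (aeval ξ U) * hV + hU
  exact key F dvd_rfl

theorem irr_natDegree_prim (P : ℤ[X]) (hP : Irreducible P) (hg : 1 ≤ P.natDegree) : P.IsPrimitive :=
  hP.isPrimitive (by omega)

/-- two irreducible integer polynomials of positive degree with a common complex root divide each other -/
theorem dvd_of_common_root (P B : ℤ[X]) (hP : Irreducible P) (hg : 1 ≤ P.natDegree)
    (hB : Irreducible B) (hgB : 1 ≤ B.natDegree) (z : ℂ) (h1 : aeval z P = 0) (h2 : aeval z B = 0) :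
    B ∣ P := by
  have hPp := irr_natDegree_prim P hP hg
  have hBp := irr_natDegree_prim B hB hgB
  rw [Polynomial.IsPrimitive.Int.dvd_iff_map_cast_dvd_map_cast B P hBp]
  have hPi : Irreducible (P.map (Int.castRingHom ℚ)) :=
    (Polynomial.IsPrimitive.Int.irreducible_iff_irreducible_map_cast hPp).mp hP
  have hBi : Irreducible (B.map (Int.castRingHom ℚ)) :=
    (Polynomial.IsPrimitive.Int.irreducible_iff_irreducible_map_cast hBp).mp hB
  have e1 : aeval z (P.map (Int.castRingHom ℚ)) = 0 := by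
    rw [aeval_def, eval₂_map, ← h1, aeval_def]; congr 1
  have e2 : aeval z (B.map (Int.castRingHom ℚ)) = 0 := by
    rw [aeval_def, eval₂_map, ← h2, aeval_def]; congr 1
  have m1 := minpoly.dvd ℚ z e1
  have m2 := minpoly.dvd ℚ z e2
  have hint : IsIntegral ℚ z := by
    have : IsAlgebraic ℚ z := ⟨_, hPi.ne_zero, e1⟩
    exact this.isIntegral
  have hmi := minpoly.irreducible hint
  have a2 : Associated (minpoly ℚ z) (B.map (Int.castRingHom ℚ)) := hmi.associated_of_dvd hBi m2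
  exact a2.symm.dvd.trans m1

theorem num_a (K : ℝ) (p k n g : ℕ) (μ : ℝ) (hμ : 1 ≤ μ) (hn32 : 32 * n ≤ p) (hk : 2 * k ≤ p) (hp : 16 ≤ p)
    (H2 : μ ^ (p - 3) ≤ K ^ g * μ ^ (2 * n + k)) :
    μ ^ (p / 4) ≤ K ^ g := by
  have hexp : 2 * n + k + p / 4 ≤ p - 3 := by omega
  have hμ0 : 0 < μ := by linarith
  have h3 : μ ^ (2 * n + k) * μ ^ (p / 4) ≤ μ ^ (2 * n + k) * K ^ g := by
    calc μ ^ (2 * n + k) * μ ^ (p / 4) = μ ^ (2 * n + k + p / 4) := (pow_add _ _ _).symm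
      _ ≤ μ ^ (p - 3) := pow_le_pow_right₀ hμ hexp
      _ ≤ _ := by rw [mul_comm]; exact H2
  exact le_of_mul_le_mul_left h3 (by positivity)

/-- the core statement -/
theorem key (w b p : ℕ) (hp : p.Prime) (hp3 : 3 ≤ p) (hb : ¬ p ∣ b + 1)
    (hirr : ∀ k : ℕ, 1 ≤ k → Irreducible (X ^ k + C (b : ℤ) : ℤ[X]) ∧ Irreducible (C (b : ℤ) * X ^ k + 1 : ℤ[X]))
    (hb1 : 2 ≤ b)
    (ξ : ℂ) (hξ : IsPrimitiveRoot ξ p) (s : ℕ) (hs1 : 1 ≤ s) (hsp : s < p) (F T : ℤ[X])
    (hF0 : F.coeff 0 ≠ 0) (hL : len F ≤ w) (hF32 : 32 * F.natDegree ≤ p)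
    (Hc : ∀ P : ℤ[X], Irreducible P → P ∣ F → ¬ P ∣ F.reverse → 1 ≤ P.natDegree → 1 ≤ F.natDegree →
      mm P ^ (p / 4) ≤ (4 * (w : ℝ) * (b + 1)) ^ P.natDegree → False)
    (hFT : aeval ξ F * aeval ξ T = (b : ℂ) + ξ ^ s) :
    Un ξ (aeval ξ F) ∨ Un ξ (aeval ξ T) := by
  classical
  have hF : F ≠ 0 := fun h => hF0 (by rw [h]; simp)
  have hξp : ξ ^ p = 1 := hξ.pow_eq_one
  have hξ0 : ξ ≠ 0 := hξ.ne_zero hp.ne_zero
  have hps : ¬ p ∣ s := fun h => by have := Nat.le_of_dvd (by omega) h; omega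
  by_contra hcon
  rw [not_or] at hcon
  obtain ⟨hcF, hcT⟩ := hcon
  -- an irreducible factor which is not a unit
  have hex : ∃ P : ℤ[X], Irreducible P ∧ P ∣ F ∧ ¬ Un ξ (aeval ξ P) := by
    by_contra hno
    push Not at hno
    exact hcF (un_of_factors ξ F hF hno)
  obtain ⟨P, hP, hPF, hPu⟩ := hex
  obtain ⟨G, hG⟩ := hPF
  have hFev : aeval ξ F = aeval ξ P * aeval ξ G := by rw [hG, map_mul]
  -- relation for the inverse
  have hrel0 : aeval ξ (F * T - (C (b : ℤ) + X ^ s)) = 0 := by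
    rw [map_sub, map_mul, hFT]; simp
  have hrel : ∀ j : ℕ, ¬ p ∣ j → aeval (ξ ^ j) F * aeval (ξ ^ j) T = (b : ℂ) + (ξ ^ j) ^ s := by
    intro j hj
    have := conj_rel p hp ξ hξ _ hrel0 j hj
    rw [map_sub, map_mul] at this
    have h2 := sub_eq_zero.mp this
    rw [h2]; simp
  -- case (a): P does not divide the reverse
  have hPR : ¬ P ∣ F.reverse := by
    rintro ⟨G', hG'⟩
    apply hPu
    have hj : ¬ p ∣ (p - 1) := fun h => by
      have := Nat.le_of_dvd (by omega) h; omega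
    have h1 := hrel (p - 1) hj
    have hinv : ξ ^ (p - 1) = ξ⁻¹ := by
      apply eq_inv_of_mul_eq_one_left; rw [← pow_succ, Nat.sub_add_cancel (by omega), hξp]
    -- reverse evaluation
    have hrev : aeval ξ F.reverse * (ξ⁻¹) ^ F.natDegree = aeval (ξ⁻¹) F := by
      let _ : Invertible (ξ⁻¹) := invertibleOfNonzero (inv_ne_zero hξ0)
      have := eval₂_reverse_mul_pow (Int.castRingHom ℂ) (ξ⁻¹) F
      have hiv : ⅟(ξ⁻¹) = ξ := by rw [invOf_eq_inv, inv_inv]
      rw [hiv] at this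
      exact this
    have hPG' : aeval ξ F.reverse = aeval ξ P * aeval ξ G' := by rw [hG', map_mul]
    -- coprimality
    have huv : ¬ s ≡ (p - 1) * s [MOD p] := by
      intro hc
      have h3 : (p : ℤ) ∣ ((p - 1) * s : ℕ) - (s : ℤ) := (Nat.modEq_iff_dvd).mp hc
      have h4 : (p : ℤ) ∣ 2 * s := by
        have h5 : (((p - 1) * s : ℕ) : ℤ) - (s : ℤ) = p * s - 2 * s := by
          rw [Nat.cast_mul, Nat.cast_sub (by omega)]; push_cast; ring
        rw [h5] at h3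
        have h6 : (p : ℤ) ∣ p * s := dvd_mul_right _ _
        exact (dvd_sub_right h6).mp h3
      have h7 : p ∣ 2 * s := by exact_mod_cast h4
      rcases (Nat.Prime.dvd_mul hp).mp h7 with h8 | h8
      · have := Nat.le_of_dvd (by omega) h8; omega
      · exact hps h8
    obtain ⟨U, V, hUV⟩ := coprime_conj p hp ξ hξ b hb s ((p - 1) * s) huv
    refine ⟨G * T * U + G' * X ^ ((p - 1) * F.natDegree) * T.comp (X ^ (p - 1)) * V, ?_⟩
    have hcomp : aeval ξ (T.comp (X ^ (p - 1))) = aeval (ξ ^ (p - 1)) T := by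
      rw [aeval_comp]; simp
    have e1 : aeval ξ P * (aeval ξ G * aeval ξ T) = (b : ℂ) + ξ ^ s := by
      rw [← hFT, hFev]; ring
    have e2 : aeval ξ P * (aeval ξ G' * ξ ^ ((p - 1) * F.natDegree) * aeval (ξ ^ (p - 1)) T) =
        (b : ℂ) + ξ ^ ((p - 1) * s) := by
      rw [pow_mul ξ (p - 1) s, ← h1, hinv, ← hrev, hPG', pow_mul ξ (p - 1) F.natDegree, hinv]; ring
    simp only [map_add, map_mul, map_pow, aeval_X, hcomp]
    calc aeval ξ P * (aeval ξ G * aeval ξ T * aeval ξ U + aeval ξ G' * ξ ^ ((p - 1) * F.natDegree) *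
          aeval (ξ ^ (p - 1)) T * aeval ξ V)
        = aeval ξ U * (aeval ξ P * (aeval ξ G * aeval ξ T)) + aeval ξ V *
          (aeval ξ P * (aeval ξ G' * ξ ^ ((p - 1) * F.natDegree) * aeval (ξ ^ (p - 1)) T)) := by ring
      _ = 1 := by rw [e1, e2, hUV]
  obtain ⟨hg, hP0, hcirc⟩ := no_circle P F hP ⟨G, hG⟩ hF0 hPR
  have hn : 1 ≤ F.natDegree := hg.trans (natDegree_le_of_dvd ⟨G, hG⟩ hF)
  have hgap := circle_gap' w F.natDegree hn P F hP ⟨G, hG⟩ hF0 hL le_rfl hPR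
  have hnorm := norm_lower' p F.natDegree hp (by omega) hn (by omega) ξ hξ P hP.ne_zero hcirc
  have hμ := one_le_mm hP.ne_zero
  -- the polynomial B
  obtain ⟨k, κ, B, hk, hk1, hBdeg, hBev, hBbd, hBirr⟩ : ∃ (k κ : ℕ) (B : ℤ[X]), 2 * k ≤ p ∧ 1 ≤ k ∧ B.natDegree = k ∧
      aeval ξ B = ξ ^ κ * ((b : ℂ) + ξ ^ s) ∧ (∀ z : ℂ, ‖aeval z B‖ ≤ ((b : ℝ) + 1) * max 1 ‖z‖ ^ k) ∧ Irreducible B := by
    have hmax : ∀ (z : ℂ) (k : ℕ), (1:ℝ) ≤ max 1 ‖z‖ ^ k := fun z k => one_le_pow₀ (le_max_left _ _)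
    have hmax2 : ∀ (z : ℂ) (k : ℕ), ‖z‖ ^ k ≤ max 1 ‖z‖ ^ k := fun z k =>
      pow_le_pow_left₀ (norm_nonneg _) (le_max_right _ _) _
    by_cases h : 2 * s ≤ p
    · refine ⟨s, 0, X ^ s + C (b : ℤ), h, hs1, natDegree_X_pow_add_C, ?_, ?_, (hirr s hs1).1⟩
      · simp; ring
      · intro z
        simp only [map_add, map_pow, aeval_X, eq_intCast, Int.cast_natCast]
        have e : aeval z (C (b : ℤ) : ℤ[X]) = (b : ℂ) := by simp
        calc ‖z ^ s + _‖ ≤ ‖z ^ s‖ + ‖aeval z (C (b : ℤ) : ℤ[X])‖ := norm_add_le _ _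
          _ = ‖z‖ ^ s + b := by rw [norm_pow, e, Complex.norm_natCast]
          _ ≤ max 1 ‖z‖ ^ s + b * max 1 ‖z‖ ^ s := by
              have := hmax2 z s
              have h2 := hmax z s
              have hb0 : (0:ℝ) ≤ b := by positivity
              nlinarith
          _ = _ := by ring
    · refine ⟨p - s, p - s, C (b : ℤ) * X ^ (p - s) + 1, by omega, by omega, ?_, ?_, ?_, (hirr (p - s) (by omega)).2⟩
      · have hbz : (b : ℤ) ≠ 0 := by exact_mod_cast (by omega : b ≠ 0)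
        rw [show (1 : ℤ[X]) = C 1 from (map_one C).symm, natDegree_add_C, natDegree_C_mul_X_pow _ _ hbz]
      · have : ξ ^ (p - s) * ξ ^ s = 1 := by rw [← pow_add, Nat.sub_add_cancel hsp.le, hξp]
        simp
        rw [mul_add, this]; ring
      · intro z
        have e : aeval z (C (b : ℤ) * X ^ (p - s) + 1 : ℤ[X]) = (b : ℂ) * z ^ (p - s) + 1 := by simp
        rw [e]
        calc ‖(b : ℂ) * z ^ (p - s) + 1‖ ≤ ‖(b : ℂ) * z ^ (p - s)‖ + ‖(1:ℂ)‖ := norm_add_le _ _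
          _ = b * ‖z‖ ^ (p - s) + 1 := by rw [norm_mul, norm_pow, Complex.norm_natCast, norm_one]
          _ ≤ b * max 1 ‖z‖ ^ (p - s) + max 1 ‖z‖ ^ (p - s) := by
              have := hmax2 z (p - s)
              have h2 := hmax z (p - s)
              have hb0 : (0:ℝ) ≤ b := by positivity
              gcongr
          _ = _ := by ring
  obtain ⟨y, U, V, hUV, hybd, hy0⟩ := resultant_bound P B k b hg hBdeg.le hBbd
  have hyev : (y : ℂ) = aeval ξ P * aeval ξ (U + X ^ κ * G * T * V) := by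
    have h1 : aeval ξ (P * U + B * V) = (y : ℂ) := by rw [hUV]; simp
    rw [← h1]
    simp only [map_add, map_mul, map_pow, aeval_X]
    rw [hBev, ← hFT, hFev]; ring
  by_cases hy : y = 0
  · -- common root
    obtain ⟨z, hz, hzB⟩ := hy0 hy
    have hzP : aeval z P = 0 := by
      have := (mem_roots'.mp hz).2
      rw [IsRoot, eval_map] at this
      rw [aeval_def]; exact this
    obtain ⟨E, hE⟩ := dvd_of_common_root P B hP hg hBirr (by omega) z hzP hzB
    apply hcT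
    refine ⟨X ^ κ * E * G, ?_⟩
    have hFne : aeval ξ F ≠ 0 := by
      intro h0
      rw [h0, zero_mul] at hFT
      have : (b : ℂ) = - ξ ^ s := by linear_combination -hFT
      have h2 : ‖(b : ℂ)‖ = 1 := by rw [this, norm_neg, norm_pow, hξ.norm'_eq_one hp.ne_zero, one_pow]
      rw [Complex.norm_natCast] at h2
      have hb1' : b = 1 := by exact_mod_cast h2
      omega
    have e1 : aeval ξ F = aeval ξ F * (aeval ξ T * (ξ ^ κ * aeval ξ E * aeval ξ G)) := by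
      conv_lhs => rw [hFev, hE, map_mul, hBev, ← hFT]
      ring
    have e2 : aeval ξ T * (ξ ^ κ * aeval ξ E * aeval ξ G) = 1 := by
      have := mul_left_cancel₀ hFne ((mul_one _).trans e1)
      exact this.symm
    simpa using e2
  · -- size contradiction
    have hx := norm_dvd p hp ξ hξ b hb s hps P (G * T) (U + X ^ κ * G * T * V) y hy
      (by rw [map_mul, ← hFT, hFev]; ring) hyev
    set x : ℝ := ‖∏ j ∈ Finset.Icc 1 (p - 1), aeval (ξ ^ j) P‖ with hxdef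
    set μ : ℝ := mm P with hμdef
    set g := P.natDegree with hgdef
    set n := F.natDegree with hndef
    set PP : ℝ := ((rts P).map fun z => min 1 ((n : ℝ) * |1 - ‖z‖ ^ 2|)).prod with hPPd
    have hμ0 : 0 < μ := by linarith
    have hw0 : (0:ℝ) ≤ w := by positivity
    refine Hc P hP ⟨G, hG⟩ hPR hg hn (num_a (4 * (w : ℝ) * (b + 1)) p k n g μ hμ hF32 hk (by omega) ?_)
    calc μ ^ (p - 3) = μ ^ (p - 3) * 1 := (mul_one _).symm
      _ ≤ μ ^ (p - 3) * ((w : ℝ) ^ g * μ ^ (2 * n) * PP) := by gcongr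
      _ = (w : ℝ) ^ g * μ ^ (2 * n) * (μ ^ (p - 3) * PP) := by ring
      _ ≤ (w : ℝ) ^ g * μ ^ (2 * n) * (4 ^ g * x) := by gcongr
      _ ≤ (w : ℝ) ^ g * μ ^ (2 * n) * (4 ^ g * (((b : ℝ) + 1) ^ g * μ ^ k)) := by
          gcongr; exact hx.trans hybd
      _ = (4 * (w : ℝ) * (b + 1)) ^ g * μ ^ (2 * n + k) := by
          rw [pow_add, mul_pow, mul_pow]; ring

end CZF
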