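import Mathlib

namespace CZF

theorem log_five_quarter : (1:ℝ) / 5 ≤ Real.log (5 / 4) := by
  have h := Real.one_sub_inv_le_log_of_pos (show (0:ℝ) < 5 / 4 by norm_num)
  norm_num at h ⊢
  linarith

theorem log_bL (b L : ℕ) (hb : 2 ≤ b) (hL : 1 ≤ L) : (0.69 : ℝ) ≤ Real.log ((b : ℝ) * L) := by
  have hb2 : (2:ℝ) ≤ b := by exact_mod_cast hb
  have hL1 : (1:ℝ) ≤ L := by exact_mod_cast hL
  have h2 : (2:ℝ) ≤ (b:ℝ) * L := by nlinarith
  have := Real.log_le_log (by norm_num) h2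
  have h3 := Real.log_two_gt_d9
  norm_num at *
  linarith

theorem NU4 (n L b p : ℕ) (hn : 1 ≤ n) (hL : 1 ≤ L) (hb : 2 ≤ b)
    (H : 100 * (n : ℝ) * Real.log ((b : ℝ) * L) ≤ p) :
    32 * n ≤ p ∧ (4 * (L : ℝ) * (b + 1)) ^ n < (5 / 4) ^ (p / 4) := by
  have hlog := log_bL b L hb hL
  have hb2 : (2:ℝ) ≤ b := by exact_mod_cast hb
  have hL1 : (1:ℝ) ≤ L := by exact_mod_cast hL
  have hn1 : (1:ℝ) ≤ n := by exact_mod_cast hn
  have h69 : 69 * (n:ℝ) ≤ p := by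
    have : 100 * (n : ℝ) * 0.69 ≤ 100 * (n : ℝ) * Real.log ((b : ℝ) * L) := by gcongr
    linarith
  refine ⟨?_, ?_⟩
  · have : ((32 * n : ℕ) : ℝ) ≤ p := by push_cast; linarith
    exact_mod_cast this
  · set x : ℝ := (b : ℝ) * L with hx
    have h2 : (2:ℝ) ≤ x := by rw [hx]; nlinarith
    have hy : 4 * (L : ℝ) * (b + 1) ≤ x ^ 4 := by
      have h3 : 4 * (L : ℝ) * (b + 1) ≤ 6 * x := by rw [hx]; nlinarith
      have h4 : (8:ℝ) ≤ x ^ 3 := by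
        calc (8:ℝ) = 2 ^ 3 := by norm_num
          _ ≤ x ^ 3 := by gcongr
      nlinarith
    have hy0 : 0 < 4 * (L : ℝ) * (b + 1) := by positivity
    rw [← Real.log_lt_log_iff (by positivity) (by positivity), Real.log_pow, Real.log_pow]
    have h6 : Real.log (4 * (L : ℝ) * (b + 1)) ≤ 4 * Real.log x := by
      have := Real.log_le_log hy0 hy
      rwa [Real.log_pow] at this
    have h7 : (p:ℝ) / 4 - 3 / 4 ≤ ((p / 4 : ℕ) : ℝ) := by
      have : p / 4 * 4 + 3 ≥ p := by omega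
      have h8 : ((p / 4 : ℕ) : ℝ) * 4 + 3 ≥ p := by exact_mod_cast this
      linarith
    have h9 : (n:ℝ) * Real.log (4 * (L : ℝ) * (b + 1)) ≤ (n:ℝ) * (4 * Real.log x) := by gcongr
    have h10 : ((p / 4 : ℕ) : ℝ) * (1 / 5) ≤ ((p / 4 : ℕ) : ℝ) * Real.log (5 / 4) := by
      gcongr; exact log_five_quarter
    nlinarith

/-- the choice of `N` -/
theorem NU5 (L b p w : ℕ) (hL : 1 ≤ L) (hb : 2 ≤ b) (hw : 1 ≤ w)
    (H : (210 * Real.log ((b : ℝ) * L)) ^ w ≤ p) :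
    ∃ N : ℕ, 1 ≤ N ∧ N ^ w < p ∧ ∀ n : ℕ, n * N ≤ 2 * p → 100 * (n : ℝ) * Real.log ((b : ℝ) * L) ≤ p := by
  have hlog := log_bL b L hb hL
  set l := Real.log ((b : ℝ) * L) with hl
  refine ⟨⌈200 * l⌉₊, ?_, ?_, ?_⟩
  · exact Nat.one_le_iff_ne_zero.mpr (by
      have : (0:ℝ) < 200 * l := by linarith
      exact (Nat.ceil_pos.mpr this).ne')
  · have h1 : (⌈200 * l⌉₊ : ℝ) < 210 * l := by
      have := Nat.ceil_lt_add_one (show 0 ≤ 200 * l by linarith)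
      norm_num at hlog
      linarith
    have h2 : ((⌈200 * l⌉₊ ^ w : ℕ) : ℝ) < p := by
      push_cast
      exact lt_of_lt_of_le (pow_lt_pow_left₀ h1 (by positivity) (by omega)) H
    exact_mod_cast h2
  · intro n hnN
    have h3 : (n:ℝ) * ⌈200 * l⌉₊ ≤ 2 * p := by exact_mod_cast hnN
    have h4 : 200 * l ≤ ⌈200 * l⌉₊ := Nat.le_ceil _
    have h5 : (n:ℝ) * (200 * l) ≤ 2 * p := le_trans (by gcongr) h3
    linarith

end CZF
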