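import Pool.Agent.CZF.S1

open Polynomial

namespace CZF

theorem s1p_len_sum (w : ℕ) (c : Fin w → ℤ) (n : Fin w → ℕ) :
    len (∑ i, C (c i) * X ^ n i) ≤ ∑ i, |c i| := by
  unfold len
  have h1 : ∀ k, (∑ i, C (c i) * X ^ n i : ℤ[X]).coeff k = ∑ i, if k = n i then c i else 0 := by
    intro k
    rw [finsetSum_coeff]
    refine Finset.sum_congr rfl fun i _ => ?_
    rw [coeff_C_mul_X_pow]
  calc ∑ k ∈ (∑ i, C (c i) * X ^ n i : ℤ[X]).support, |(∑ i, C (c i) * X ^ n i : ℤ[X]).coeff k|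
      ≤ ∑ k ∈ (∑ i, C (c i) * X ^ n i : ℤ[X]).support, ∑ i, |if k = n i then c i else 0| := by
        refine Finset.sum_le_sum fun k _ => ?_
        rw [h1]; exact Finset.abs_sum_le_sum_abs _ _
    _ = ∑ i, ∑ k ∈ (∑ i, C (c i) * X ^ n i : ℤ[X]).support, |if k = n i then c i else 0| := Finset.sum_comm
    _ ≤ ∑ i, |c i| := by
        refine Finset.sum_le_sum fun i _ => ?_
        have : ∀ k, |if k = n i then c i else 0| = if k = n i then |c i| else 0 := by
          intro k; split_ifs <;> simp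
        simp_rw [this]
        rw [Finset.sum_ite_eq']
        split_ifs
        · exact le_rfl
        · exact abs_nonneg _

theorem s1p_divX (F : ℤ[X]) (hF : F ≠ 0) : ∃ (a : ℕ) (G : ℤ[X]), F = X ^ a * G ∧ G.coeff 0 ≠ 0 ∧
    len G = len F ∧ G.natDegree ≤ F.natDegree := by
  induction hn : F.natDegree using Nat.strong_induction_on generalizing F with
  | _ n ih =>
    by_cases h0 : F.coeff 0 ≠ 0
    · exact ⟨0, F, by simp, h0, rfl, hn.le⟩
    · push Not at h0
      have hX : X ∣ F := X_dvd_iff.mpr h0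
      obtain ⟨H, rfl⟩ := hX
      have hH : H ≠ 0 := fun h => hF (by rw [h, mul_zero])
      have hdeg : (X * H).natDegree = H.natDegree + 1 := by
        rw [natDegree_X_mul hH]
      obtain ⟨a, G, e1, e2, e3, e4⟩ := ih H.natDegree (by omega) H hH rfl
      refine ⟨a + 1, G, ?_, e2, ?_, by omega⟩
      · rw [pow_succ', mul_assoc, ← e1]
      · rw [e3]
        unfold len
        have hs : (X * H).support = H.support.map ⟨fun i => i + 1, fun a b h => by simpa using h⟩ := by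
          ext k
          rw [mem_support_iff, Finset.mem_map]
          constructor
          · intro hk
            rcases k with _ | k
            · simp at hk
            · rw [coeff_X_mul] at hk
              exact ⟨k, mem_support_iff.mpr hk, rfl⟩
          · rintro ⟨j, hj, rfl⟩
            simpa [coeff_X_mul] using hj
        rw [hs, Finset.sum_map]
        refine Finset.sum_congr rfl fun i _ => ?_
        simp [coeff_X_mul]

/-- row S1' -/
theorem short_poly (p w N : ℕ) (hp : p.Prime) (hN : 1 ≤ N) (hNp : N ^ w < p) (ζ : ℂ)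
    (hζ : IsPrimitiveRoot ζ p) (e : Fin w → ℕ) (c : Fin w → ℤ) (L : ℕ) (hc : ∑ i, |c i| ≤ (L : ℤ))
    (α : ℂ) (hα : α = ∑ i, (c i : ℂ) * ζ ^ e i) (hα0 : α ≠ 0) :
    ∃ (ξ : ℂ) (s : ℕ) (F : ℤ[X]) (t : ℕ), IsPrimitiveRoot ξ p ∧ 1 ≤ s ∧ s < p ∧ ξ ^ s = ζ ∧
      F.coeff 0 ≠ 0 ∧ len F ≤ L ∧ F.natDegree * N ≤ 2 * p ∧ α * ξ ^ t = aeval ξ F := by
  classical
  obtain ⟨s, hs1, hsp, r, hr⟩ := dirichlet p w N hp hN hNp e
  have hcop : Nat.Coprime s p := by
    rw [Nat.coprime_comm, Nat.Prime.coprime_iff_not_dvd hp]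
    intro h; have := Nat.le_of_dvd (by omega) h; omega
  -- ξ with ξ^s = ζ
  obtain ⟨t0, ht0⟩ : ∃ t0 : ℕ, s * t0 ≡ 1 [MOD p] := by
    obtain ⟨m, _, hm⟩ := Nat.exists_mul_mod_eq_one_of_coprime hcop hp.one_lt
    exact ⟨m, by rw [Nat.ModEq, hm, Nat.mod_eq_of_lt hp.one_lt]⟩
  have hcop2 : Nat.Coprime t0 p := by
    have h1 : Nat.Coprime (s * t0) p := by
      rw [Nat.Coprime, ht0.gcd_eq]; simp
    exact Nat.Coprime.coprime_mul_left h1
  set ξ := ζ ^ t0 with hξdef
  have hξ : IsPrimitiveRoot ξ p := hζ.pow_of_coprime t0 hcop2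
  have hζp := hζ.pow_eq_one
  have hξs : ξ ^ s = ζ := by
    rw [hξdef, ← pow_mul, mul_comm t0 s]
    have := pow_eq_pow_of_modEq ht0 hζp
    rw [this, pow_one]
  have hξ0 : ξ ≠ 0 := hξ.ne_zero hp.ne_zero
  have hξp := hξ.pow_eq_one
  -- D
  set D : ℕ := (p - 1) / N with hD
  have hrD : ∀ j, |r j| ≤ D := by
    intro j
    have h1 := (hr j).2
    have h2 : |r j| * N ≤ (p - 1 : ℕ) := by
      rw [Nat.cast_sub hp.one_lt.le]; push_cast; linarith
    have h3 : (|r j|.toNat) * N ≤ p - 1 := by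
      zify
      rw [Int.toNat_of_nonneg (abs_nonneg _), Nat.cast_sub hp.one_lt.le]
      push_cast; linarith
    have h4 : |r j|.toNat ≤ D := (Nat.le_div_iff_mul_le (by omega)).mpr h3
    have h5 : |r j| = (|r j|.toNat : ℤ) := (Int.toNat_of_nonneg (abs_nonneg _)).symm
    rw [h5]; exact_mod_cast h4
  let n : Fin w → ℕ := fun j => (r j + D).toNat
  have hn : ∀ j, ((n j : ℕ) : ℤ) = r j + D := by
    intro j
    have := (abs_le.mp (hrD j)).1
    exact Int.toNat_of_nonneg (by linarith)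
  have hn2 : ∀ j, n j ≤ 2 * D := by
    intro j
    have h1 := (abs_le.mp (hrD j)).2
    have h2 := hn j
    zify; linarith
  set F₀ : ℤ[X] := ∑ i, C (c i) * X ^ n i with hF₀
  have hpw : ∀ j, ζ ^ e j * ξ ^ D = ξ ^ n j := by
    intro j
    have h1 : (p : ℤ) ∣ (s : ℤ) * e j + D - n j := by
      rw [hn j]
      have := (hr j).1
      have e2 : (s : ℤ) * e j + D - (r j + D) = (s : ℤ) * e j - r j := by ring
      rw [e2]; exact this
    have h2 : n j ≡ s * e j + D [MOD p] := by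
      rw [Nat.modEq_iff_dvd]; push_cast; exact h1
    rw [← hξs, ← pow_mul, ← pow_add]
    exact (pow_eq_pow_of_modEq h2 hξp).symm
  have hev : α * ξ ^ D = aeval ξ F₀ := by
    rw [hα, Finset.sum_mul, hF₀, map_sum]
    refine Finset.sum_congr rfl fun j _ => ?_
    rw [mul_assoc, hpw j]; simp
  have hF₀0 : F₀ ≠ 0 := by
    intro h
    rw [h, map_zero] at hev
    exact (mul_ne_zero hα0 (pow_ne_zero _ hξ0)) hev
  obtain ⟨a, F, e1, e2, e3, e4⟩ := s1p_divX F₀ hF₀0
  refine ⟨ξ, s, F, D + (p - 1) * a, hξ, hs1, hsp, hξs, e2, ?_, ?_, ?_⟩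
  · rw [e3, hF₀]
    exact (s1p_len_sum w c n).trans hc
  · have h1 : F₀.natDegree ≤ 2 * D := by
      refine natDegree_sum_le_of_forall_le _ _ fun i _ => ?_
      exact (natDegree_C_mul_X_pow_le _ _).trans (hn2 i)
    have h2 : D * N ≤ p := (Nat.div_mul_le_self (p - 1) N).trans (Nat.sub_le _ _)
    nlinarith
  · have h1 : ξ ^ a * ξ ^ ((p - 1) * a) = 1 := by
      rw [← pow_add]
      have : a + (p - 1) * a = p * a := by
        have := hp.pos
        obtain ⟨q, rfl⟩ : ∃ q, p = q + 1 := ⟨p - 1, by omega⟩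
        simp; ring
      rw [this, pow_mul, hξp, one_pow]
    rw [pow_add, ← mul_assoc, hev, e1, map_mul, map_pow, aeval_X]
    linear_combination (aeval ξ F) * h1

end CZF
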