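import Pool.Agent.CZF.Defs

/-!
# A weak form of Smyth's theorem: a non-reciprocal integer polynomial without zeros on the unit
circle has Mahler measure at least `5 / 4`
-/

set_option autoImplicit false

open Polynomial

namespace CZF

theorem sm_normSq (z r : ℂ) :
    ‖1 - (starRingEnd ℂ) r * z‖ ^ 2 - ‖z - r‖ ^ 2 = (1 - ‖r‖ ^ 2) * (1 - ‖z‖ ^ 2) := by
  rw [← Complex.normSq_eq_norm_sq, ← Complex.normSq_eq_norm_sq, ← Complex.normSq_eq_norm_sq,
    ← Complex.normSq_eq_norm_sq]
  simp only [Complex.normSq_apply, Complex.sub_re, Complex.sub_im, Complex.mul_re, Complex.mul_im,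
    Complex.one_re, Complex.one_im, Complex.conj_re, Complex.conj_im]
  ring

theorem sm_le_in {z r : ℂ} (hz : ‖z‖ ≤ 1) (hr : ‖r‖ < 1) : ‖z - r‖ ≤ ‖1 - (starRingEnd ℂ) r * z‖ := by
  have h := sm_normSq z r
  have h1 : 0 ≤ (1 - ‖r‖ ^ 2) * (1 - ‖z‖ ^ 2) :=
    mul_nonneg (by nlinarith [norm_nonneg r]) (by nlinarith [norm_nonneg z])
  exact le_of_sq_le_sq (by linarith) (norm_nonneg _)

theorem sm_le_out {z r : ℂ} (hz : ‖z‖ ≤ 1) (hr : 1 < ‖r‖) : ‖1 - (starRingEnd ℂ) r * z‖ ≤ ‖z - r‖ := by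
  have h := sm_normSq z r
  have h1 : (1 - ‖r‖ ^ 2) * (1 - ‖z‖ ^ 2) ≤ 0 :=
    mul_nonpos_of_nonpos_of_nonneg (by nlinarith [norm_nonneg r]) (by nlinarith [norm_nonneg z])
  exact le_of_sq_le_sq (by linarith) (norm_nonneg _)

theorem sm_eq {z : ℂ} (r : ℂ) (hz : ‖z‖ = 1) : ‖1 - (starRingEnd ℂ) r * z‖ = ‖z - r‖ := by
  have h := sm_normSq z r
  rw [hz] at h
  have h1 : ‖1 - (starRingEnd ℂ) r * z‖ ^ 2 = ‖z - r‖ ^ 2 := by linarith
  exact (sq_eq_sq₀ (norm_nonneg _) (norm_nonneg _)).1 h1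

/-- `∏ (z - r)` -/
noncomputable def smA (S : Multiset ℂ) : ℂ[X] := (S.map fun r => X - C r).prod

/-- `∏ (1 - conj r z)` -/
noncomputable def smA' (S : Multiset ℂ) : ℂ[X] := (S.map fun r => 1 - C ((starRingEnd ℂ) r) * X).prod

theorem smA_eval (S : Multiset ℂ) (z : ℂ) : (smA S).eval z = (S.map fun r => z - r).prod := by
  unfold smA
  rw [eval_multiset_prod, Multiset.map_map]
  simp [Function.comp_def]

theorem smA'_eval (S : Multiset ℂ) (z : ℂ) :
    (smA' S).eval z = (S.map fun r => 1 - (starRingEnd ℂ) r * z).prod := by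
  unfold smA'
  rw [eval_multiset_prod, Multiset.map_map]
  simp [Function.comp_def]

theorem sm_norm_prod (S : Multiset ℂ) (f : ℂ → ℂ) : ‖(S.map f).prod‖ = (S.map fun r => ‖f r‖).prod := by
  induction S using Multiset.induction with
  | empty => simp
  | cons a s ih => rw [Multiset.map_cons, Multiset.prod_cons, norm_mul, ih, Multiset.map_cons,
      Multiset.prod_cons]

theorem sm_prod_le (S : Multiset ℂ) (f g : ℂ → ℂ) (h : ∀ r ∈ S, ‖f r‖ ≤ ‖g r‖) :
    ‖(S.map f).prod‖ ≤ ‖(S.map g).prod‖ := by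
  induction S using Multiset.induction with
  | empty => simp
  | cons a s ih =>
    rw [Multiset.map_cons, Multiset.prod_cons, norm_mul, Multiset.map_cons, Multiset.prod_cons,
      norm_mul]
    exact mul_le_mul (h a (Multiset.mem_cons_self a s))
      (ih fun r hr => h r (Multiset.mem_cons_of_mem hr)) (norm_nonneg _) (norm_nonneg _)

theorem sm_conj_roots (P : ℤ[X]) : (rts P).map (starRingEnd ℂ) = rts P := by
  unfold rts
  have h1 : ((P.map (Int.castRingHom ℂ)).map (starRingEnd ℂ)) = P.map (Int.castRingHom ℂ) := by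
    rw [Polynomial.map_map]
    congr 1
    exact Subsingleton.elim _ _
  conv_rhs => rw [← h1]
  exact ((IsAlgClosed.splits (P.map (Int.castRingHom ℂ))).roots_map _).symm

theorem sm_eval_P (P : ℤ[X]) (z : ℂ) :
    aeval z P = (P.leadingCoeff : ℂ) * ((rts P).map fun r => z - r).prod := by
  have h1 := (IsAlgClosed.splits (P.map (Int.castRingHom ℂ))).eq_prod_roots
  have h2 : aeval z P = (P.map (Int.castRingHom ℂ)).eval z := by
    rw [eval_map, aeval_def]; rfl
  rw [h2, h1, eval_mul, eval_C, eval_multiset_prod, Multiset.map_map]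
  rw [leadingCoeff_map_of_injective (RingHom.injective_int _)]
  unfold rts
  simp [Function.comp_def]

theorem sm_eval_rev_ne (P : ℤ[X]) (z : ℂ) (hz : z ≠ 0) :
    aeval z P.reverse = (P.leadingCoeff : ℂ) * ((rts P).map fun r => 1 - (starRingEnd ℂ) r * z).prod := by
  have hcard : Multiset.card (rts P) = P.natDegree := by
    unfold rts
    rw [← (IsAlgClosed.splits (P.map (Int.castRingHom ℂ))).natDegree_eq_card_roots,
      natDegree_map_eq_of_injective (RingHom.injective_int _)]
  have hzi : z⁻¹ ≠ 0 := inv_ne_zero hz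
  letI : Invertible (z⁻¹) := invertibleOfNonzero hzi
  have h1 := eval₂_reverse_mul_pow (Int.castRingHom ℂ) (z⁻¹) P
  rw [invOf_eq_inv, inv_inv] at h1
  have h2 := sm_eval_P P (z⁻¹)
  have h3 : aeval z P.reverse * (z⁻¹) ^ P.natDegree = aeval (z⁻¹) P := by
    rw [aeval_def, aeval_def]; exact h1
  have h4 : ((rts P).map fun r => 1 - (starRingEnd ℂ) r * z).prod
      = ((rts P).map fun r => z⁻¹ - r).prod * z ^ P.natDegree := by
    have e1 : ((rts P).map fun r => 1 - (starRingEnd ℂ) r * z).prod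
        = ((rts P).map fun r => 1 - r * z).prod := by
      conv_rhs => rw [← sm_conj_roots P, Multiset.map_map]
      rfl
    rw [e1, ← hcard, ← Multiset.prod_replicate, ← Multiset.map_const', ← Multiset.prod_map_mul]
    apply congrArg
    apply Multiset.map_congr rfl
    intro r _
    field_simp
  rw [h4]
  have h5 : (z⁻¹) ^ P.natDegree * z ^ P.natDegree = 1 := by
    rw [← mul_pow, inv_mul_cancel₀ hz, one_pow]
  calc aeval z P.reverse = (aeval z P.reverse * (z⁻¹) ^ P.natDegree) * z ^ P.natDegree := by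
        rw [mul_assoc, h5, mul_one]
    _ = _ := by rw [h3, h2]; ring

theorem sm_eval_rev (P : ℤ[X]) (z : ℂ) :
    aeval z P.reverse = (P.leadingCoeff : ℂ) * ((rts P).map fun r => 1 - (starRingEnd ℂ) r * z).prod := by
  by_cases hz : z = 0
  · subst hz
    rw [aeval_def, eval₂_at_zero, coeff_zero_reverse]
    simp
  · exact sm_eval_rev_ne P z hz

/-- the analytic core -/
theorem sm_core (S L : Multiset ℂ) (hS : ∀ r ∈ S, ‖r‖ < 1) (hL : ∀ r ∈ L, 1 < ‖r‖) (ε c : ℂ)
    (hε : ‖ε‖ = 1) (hc : ‖c‖ < 1) (T : ℂ[X]) (k : ℕ) (hT : ∀ z : ℂ, z ^ k * T.eval z =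
      ε * ((smA S).eval z * (smA L).eval z) - (smA' S).eval z * (smA' L).eval z)
    (h1 : c = ε * (smA S).eval 0) (h2 : c * (smA L).eval 0 = 1) :
    ‖T.eval 0‖ * ‖c‖ ≤ 2 * (1 - ‖c‖ ^ 2) := by
  set cc := (starRingEnd ℂ) c with hcc
  have hncc : ‖cc‖ = ‖c‖ := by rw [hcc, Complex.norm_conj]
  have hccc : c * cc = ((‖c‖ ^ 2 : ℝ) : ℂ) := by
    rw [hcc, Complex.mul_conj, Complex.normSq_eq_norm_sq]
  set u : ℂ[X] := smA' S - C (cc * ε) * smA S with hu
  set v : ℂ[X] := smA L - C cc * smA' L with hv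
  have hu0 : ∀ z : ℂ, ‖z‖ ≤ 1 → u.eval z ≠ 0 := by
    intro z hz h
    have hne : (smA' S).eval z ≠ 0 := by
      rw [smA'_eval, Ne, Multiset.prod_eq_zero_iff, Multiset.mem_map]
      rintro ⟨r, hr, h3⟩
      have h4 : (starRingEnd ℂ) r * z = 1 := by linear_combination -h3
      have h5 : ‖(starRingEnd ℂ) r * z‖ = 1 := by rw [h4, norm_one]
      rw [norm_mul, Complex.norm_conj] at h5
      nlinarith [hS r hr, norm_nonneg z, norm_nonneg r]
    have hle : ‖(smA S).eval z‖ ≤ ‖(smA' S).eval z‖ := by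
      rw [smA_eval, smA'_eval]
      exact sm_prod_le S _ _ fun r hr => sm_le_in hz (hS r hr)
    have h3 : (smA' S).eval z = cc * ε * (smA S).eval z := by
      rw [hu, eval_sub, eval_mul, eval_C] at h
      linear_combination h
    have h4 : ‖(smA' S).eval z‖ = ‖c‖ * ‖(smA S).eval z‖ := by
      rw [h3, norm_mul, norm_mul, hncc, hε, mul_one]
    have h5 : 0 < ‖(smA' S).eval z‖ := norm_pos_iff.2 hne
    nlinarith [norm_nonneg c, norm_nonneg ((smA S).eval z)]
  have hv0 : ∀ z : ℂ, ‖z‖ ≤ 1 → v.eval z ≠ 0 := by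
    intro z hz h
    have hne : (smA L).eval z ≠ 0 := by
      rw [smA_eval, Ne, Multiset.prod_eq_zero_iff, Multiset.mem_map]
      rintro ⟨r, hr, h3⟩
      have h4 : z = r := by linear_combination h3
      rw [h4] at hz
      linarith [hL r hr]
    have hle : ‖(smA' L).eval z‖ ≤ ‖(smA L).eval z‖ := by
      rw [smA_eval, smA'_eval]
      exact sm_prod_le L _ _ fun r hr => sm_le_out hz (hL r hr)
    have h3 : (smA L).eval z = cc * (smA' L).eval z := by
      rw [hv, eval_sub, eval_mul, eval_C] at h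
      linear_combination h
    have h4 : ‖(smA L).eval z‖ = ‖c‖ * ‖(smA' L).eval z‖ := by
      rw [h3, norm_mul, hncc]
    have h5 : 0 < ‖(smA L).eval z‖ := norm_pos_iff.2 hne
    nlinarith [norm_nonneg c, norm_nonneg ((smA' L).eval z)]
  set Φ : ℂ → ℂ := fun z => (1 - c * cc) * T.eval z / (u.eval z * v.eval z) with hΦ
  have hdiff : DiffContOnCl ℂ Φ (Metric.ball (0 : ℂ) 1) := by
    apply DifferentiableOn.diffContOnCl
    rw [closure_ball (0 : ℂ) one_ne_zero]
    intro z hz
    have hz1 : ‖z‖ ≤ 1 := by simpa using hz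
    apply DifferentiableAt.differentiableWithinAt
    apply DifferentiableAt.div
    · exact (T.differentiable z).const_mul _
    · exact (u.differentiable z).mul (v.differentiable z)
    · exact mul_ne_zero (hu0 z hz1) (hv0 z hz1)
  have hcirc : ∀ z ∈ frontier (Metric.ball (0 : ℂ) 1), ‖Φ z‖ ≤ 2 := by
    intro z hz
    rw [frontier_ball (0 : ℂ) one_ne_zero] at hz
    have hz1 : ‖z‖ = 1 := by simpa using hz
    have hun := norm_pos_iff.2 (hu0 z hz1.le)
    have hvn := norm_pos_iff.2 (hv0 z hz1.le)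
    have hA : ‖(smA' S).eval z‖ = ‖(smA S).eval z‖ := by
      rw [smA_eval, smA'_eval]
      apply le_antisymm
      · exact sm_prod_le S _ _ fun r _ => (sm_eq r hz1).le
      · exact sm_prod_le S _ _ fun r _ => (sm_eq r hz1).ge
    have hB : ‖(smA' L).eval z‖ = ‖(smA L).eval z‖ := by
      rw [smA_eval, smA'_eval]
      apply le_antisymm
      · exact sm_prod_le L _ _ fun r _ => (sm_eq r hz1).le
      · exact sm_prod_le L _ _ fun r _ => (sm_eq r hz1).ge
    -- the two Moebius transforms have modulus one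
    have key : ∀ x y : ℂ, ‖x‖ = ‖y‖ → ‖x - c * y‖ = ‖y - cc * x‖ := by
      intro x y hxy
      have h3 : ‖x - c * y‖ ^ 2 = ‖y - cc * x‖ ^ 2 := by
        rw [← Complex.normSq_eq_norm_sq, ← Complex.normSq_eq_norm_sq]
        have h4 : Complex.normSq x = Complex.normSq y := by
          rw [Complex.normSq_eq_norm_sq, Complex.normSq_eq_norm_sq, hxy]
        simp only [Complex.normSq_apply, Complex.sub_re, Complex.sub_im, Complex.mul_re,
          Complex.mul_im, Complex.conj_re, Complex.conj_im, hcc] at h4 ⊢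
        linear_combination (1 - (c.re ^ 2 + c.im ^ 2)) * h4
      exact (sq_eq_sq₀ (norm_nonneg _) (norm_nonneg _)).1 h3
    have hFu : ‖ε * (smA S).eval z - c * (smA' S).eval z‖ = ‖u.eval z‖ := by
      rw [key _ _ (by rw [norm_mul, hε, one_mul, hA]), hu, eval_sub, eval_mul, eval_C, mul_assoc]
    have hGv : ‖(smA' L).eval z - c * (smA L).eval z‖ = ‖v.eval z‖ := by
      rw [key _ _ hB, hv, eval_sub, eval_mul, eval_C]
    have hid : (1 - c * cc) * (z ^ k * T.eval z) =
        (ε * (smA S).eval z - c * (smA' S).eval z) * v.eval z -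
          ((smA' L).eval z - c * (smA L).eval z) * u.eval z := by
      rw [hT, hu, hv, eval_sub, eval_mul, eval_C, eval_sub, eval_mul, eval_C]
      ring
    have hnum : ‖(1 - c * cc) * T.eval z‖ ≤ 2 * (‖u.eval z‖ * ‖v.eval z‖) := by
      have h5 : ‖(1 - c * cc) * T.eval z‖ = ‖(1 - c * cc) * (z ^ k * T.eval z)‖ := by
        rw [norm_mul, norm_mul, norm_mul, norm_pow, hz1, one_pow, one_mul]
      rw [h5, hid]
      refine (norm_sub_le _ _).trans ?_
      rw [norm_mul, norm_mul, hFu, hGv]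
      linarith
    rw [hΦ]
    simp only []
    rw [norm_div, norm_mul (u.eval z), div_le_iff₀ (by positivity)]
    exact hnum
  have h0 := Complex.norm_le_of_forall_mem_frontier_norm_le Metric.isBounded_ball hdiff hcirc
    (subset_closure (Metric.mem_ball_self one_pos))
  -- the value at the origin
  have hS0 : (smA' S).eval 0 = 1 := by rw [smA'_eval]; simp
  have hL0 : (smA' L).eval 0 = 1 := by rw [smA'_eval]; simp
  have hc0 : c ≠ 0 := by
    rintro h
    rw [h, zero_mul] at h2
    exact zero_ne_one h2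
  have hd0 : (1 : ℝ) - ‖c‖ ^ 2 ≠ 0 := by nlinarith [norm_nonneg c]
  have hd : (1 - c * cc : ℂ) = ((1 - ‖c‖ ^ 2 : ℝ) : ℂ) := by rw [hccc]; push_cast; ring
  have hd1 : (1 - c * cc : ℂ) ≠ 0 := by
    rw [hd]
    exact_mod_cast hd0
  have hu1 : u.eval 0 = 1 - c * cc := by
    rw [hu, eval_sub, eval_mul, eval_C, hS0]
    linear_combination cc * h1
  have hv1 : c * v.eval 0 = 1 - c * cc := by
    rw [hv, eval_sub, eval_mul, eval_C, hL0]
    linear_combination h2
  have hval : Φ 0 * (1 - c * cc) = T.eval 0 * c := by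
    rw [hΦ]
    simp only []
    have hv2 : v.eval 0 = (1 - c * cc) / c := by
      rw [eq_div_iff hc0]; linear_combination hv1
    rw [hu1, hv2]
    field_simp
  have h6 : ‖Φ 0‖ * (1 - ‖c‖ ^ 2) = ‖T.eval 0‖ * ‖c‖ := by
    have h7 := congrArg (fun x : ℂ => ‖x‖) hval
    simp only [norm_mul] at h7
    rw [hd, Complex.norm_real, Real.norm_eq_abs, abs_of_nonneg (by nlinarith [norm_nonneg c])] at h7
    exact h7
  rw [← h6]
  exact mul_le_mul_of_nonneg_right h0 (by nlinarith [norm_nonneg c])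

theorem sm_prod_lt_one (S : Multiset ℂ) (h0 : S ≠ 0) (h : ∀ r ∈ S, ‖r‖ < 1) :
    (S.map fun r => ‖r‖).prod < 1 := by
  induction S using Multiset.induction with
  | empty => exact absurd rfl h0
  | cons a s ih =>
    rw [Multiset.map_cons, Multiset.prod_cons]
    have h1 : ‖a‖ < 1 := h a (Multiset.mem_cons_self a s)
    by_cases hs : s = 0
    · rw [hs, Multiset.map_zero, Multiset.prod_zero, mul_one]; exact h1
    · have h2 := ih hs fun r hr => h r (Multiset.mem_cons_of_mem hr)
      have h3 : 0 ≤ (s.map fun r => ‖r‖).prod := Multiset.prod_nonneg (by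
        intro x hx
        obtain ⟨y, _, rfl⟩ := Multiset.mem_map.1 hx
        exact norm_nonneg y)
      nlinarith [norm_nonneg a]

theorem sm_one_lt_prod (S : Multiset ℂ) (h0 : S ≠ 0) (h : ∀ r ∈ S, 1 < ‖r‖) :
    1 < (S.map fun r => ‖r‖).prod := by
  induction S using Multiset.induction with
  | empty => exact absurd rfl h0
  | cons a s ih =>
    rw [Multiset.map_cons, Multiset.prod_cons]
    have h1 : 1 < ‖a‖ := h a (Multiset.mem_cons_self a s)
    by_cases hs : s = 0
    · rw [hs, Multiset.map_zero, Multiset.prod_zero, mul_one]; exact h1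
    · have h2 := ih hs fun r hr => h r (Multiset.mem_cons_of_mem hr)
      nlinarith [norm_nonneg a]

/-- row SM -/
theorem smyth_weak (P : ℤ[X]) (hg : 1 ≤ P.natDegree) (h0 : P.coeff 0 ≠ 0)
    (hr : ∀ z ∈ rts P, ‖z‖ ≠ 1) (h1 : P.reverse ≠ P) (h2 : P.reverse ≠ -P) :
    5 / 4 ≤ mm P := by
  classical
  by_contra hcon
  push Not at hcon
  have hP : P ≠ 0 := by
    intro h
    rw [h, natDegree_zero] at hg
    omega
  set S := (rts P).filter (fun r => ‖r‖ < 1) with hS
  set L := (rts P).filter (fun r => ¬ ‖r‖ < 1) with hL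
  have hSL : S + L = rts P := Multiset.filter_add_not _ _
  have hSm : ∀ r ∈ S, ‖r‖ < 1 := fun r hr => (Multiset.mem_filter.1 hr).2
  have hLm : ∀ r ∈ L, 1 < ‖r‖ := by
    intro r hrL
    have h3 := Multiset.mem_filter.1 hrL
    exact lt_of_le_of_ne (not_lt.1 h3.2) (Ne.symm (hr r h3.1))
  have hcard : Multiset.card (rts P) = P.natDegree := by
    unfold rts
    rw [← (IsAlgClosed.splits (P.map (Int.castRingHom ℂ))).natDegree_eq_card_roots,
      natDegree_map_eq_of_injective (RingHom.injective_int _)]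
  have hlc : P.leadingCoeff ≠ 0 := leadingCoeff_ne_zero.2 hP
  have hlc1 : (1 : ℝ) ≤ |(P.leadingCoeff : ℝ)| := by exact_mod_cast Int.one_le_abs hlc
  -- the Mahler measure is `|lc| * ∏_{L} |r|`
  have hmm : mm P = |(P.leadingCoeff : ℝ)| * (L.map fun r => ‖r‖).prod := by
    unfold mm
    rw [← hSL, Multiset.map_add, Multiset.prod_add]
    have e1 : (S.map fun z => max 1 ‖z‖).prod = 1 := by
      have : (S.map fun z => max 1 ‖z‖) = S.map fun _ => (1 : ℝ) :=
        Multiset.map_congr rfl fun r hr => max_eq_left (hSm r hr).le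
      rw [this, Multiset.map_const', Multiset.prod_replicate, one_pow]
    have e2 : (L.map fun z => max 1 ‖z‖) = L.map fun r => ‖r‖ :=
      Multiset.map_congr rfl fun r hr => max_eq_right (hLm r hr).le
    rw [e1, e2, one_mul]
  have hLprod : 1 ≤ (L.map fun r => ‖r‖).prod := by
    by_cases hL0 : L = 0
    · rw [hL0]; simp
    · exact (sm_one_lt_prod L hL0 hLm).le
  have hlc2 : |P.leadingCoeff| = 1 := by
    have h3 : |(P.leadingCoeff : ℝ)| < 2 := by nlinarith
    have h4 : |P.leadingCoeff| < 2 := by exact_mod_cast h3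
    have h5 := Int.one_le_abs hlc
    omega
  have hlcR : |(P.leadingCoeff : ℝ)| = 1 := by exact_mod_cast hlc2
  rw [hlcR, one_mul] at hmm
  -- the constant coefficient
  have hev0 : ((P.coeff 0 : ℤ) : ℂ) = (P.leadingCoeff : ℂ) *
      ((smA S).eval 0 * (smA L).eval 0) := by
    have h3 := sm_eval_P P 0
    rw [aeval_def, eval₂_at_zero, ← hSL, Multiset.map_add, Multiset.prod_add] at h3
    rw [smA_eval, smA_eval]
    exact h3
  have hA0 : ‖(smA S).eval 0‖ = (S.map fun r => ‖r‖).prod := by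
    rw [smA_eval, sm_norm_prod]
    simp
  have hB0 : ‖(smA L).eval 0‖ = (L.map fun r => ‖r‖).prod := by
    rw [smA_eval, sm_norm_prod]
    simp
  have hlcC : ‖(P.leadingCoeff : ℂ)‖ = 1 := by rw [Complex.norm_intCast]; exact hlcR
  have hSle : (S.map fun r => ‖r‖).prod ≤ 1 := by
    by_cases hS0 : S = 0
    · rw [hS0]; simp
    · exact (sm_prod_lt_one S hS0 hSm).le
  have hSnn : 0 ≤ (S.map fun r => ‖r‖).prod := by rw [← hA0]; exact norm_nonneg _
  have hc0n : |(P.coeff 0 : ℝ)| = (S.map fun r => ‖r‖).prod * (L.map fun r => ‖r‖).prod := by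
    have h3 := congrArg (fun x : ℂ => ‖x‖) hev0
    simp only [norm_mul] at h3
    rw [Complex.norm_intCast, hlcC, one_mul, hA0, hB0] at h3
    exact h3
  have hc02 : |P.coeff 0| = 1 := by
    have h3 : |(P.coeff 0 : ℝ)| < 2 := by rw [hc0n]; nlinarith
    have h4 : |P.coeff 0| < 2 := by exact_mod_cast h3
    have h5 := Int.one_le_abs h0
    omega
  have hc0R : |(P.coeff 0 : ℝ)| = 1 := by exact_mod_cast hc02
  rw [hc0R] at hc0n
  -- signs
  set lc := P.leadingCoeff with hlcdef
  set e : ℤ := P.coeff 0 * lc with he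
  have hlcsq : lc * lc = 1 := by
    rcases (abs_eq (by norm_num)).1 hlc2 with h | h <;> rw [h] <;> norm_num
  have hc0sq : P.coeff 0 * P.coeff 0 = 1 := by
    rcases (abs_eq (by norm_num)).1 hc02 with h | h <;> rw [h] <;> norm_num
  have hesq : e * e = 1 := by rw [he]; linear_combination hlcsq + lc * lc * (hc0sq - 1) + lc * lc - 1 + 1 - lc * lc * 0 - (lc * lc - 1)
  have he1 : e = 1 ∨ e = -1 := by
    have : (e - 1) * (e + 1) = 0 := by linear_combination hesq
    rcases mul_eq_zero.1 this with h | h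
    · left; omega
    · right; omega
  -- the polynomial `T = e P - P.reverse`
  set T : ℤ[X] := C e * P - P.reverse with hTdef
  have hT0 : T ≠ 0 := by
    intro h
    rcases he1 with h3 | h3
    · apply h1
      rw [hTdef, h3, C_1, one_mul] at h
      exact (sub_eq_zero.1 h).symm
    · apply h2
      rw [hTdef, h3, C_neg, C_1, neg_one_mul] at h
      exact (sub_eq_zero.1 h).symm
  obtain ⟨q, hq1, hq2⟩ := exists_eq_pow_rootMultiplicity_mul_and_not_dvd T hT0 0
  set k := rootMultiplicity 0 T with hk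
  rw [C_0, sub_zero] at hq1 hq2
  have hq0 : q.coeff 0 ≠ 0 := by
    intro h
    exact hq2 (X_dvd_iff.2 h)
  have hlcne : (lc : ℂ) ≠ 0 := by exact_mod_cast hlc
  have heC : ((e : ℤ) : ℂ) * (e : ℂ) = 1 := by exact_mod_cast hesq
  have hlcC2 : (lc : ℂ) * lc = 1 := by exact_mod_cast hlcsq
  have heq : ((e : ℤ) : ℂ) = (P.coeff 0 : ℂ) * lc := by rw [he]; push_cast; ring
  -- `e = A(0) B(0)`
  have hAB : (smA S).eval 0 * (smA L).eval 0 = (e : ℂ) := by
    rw [heq, hev0]
    linear_combination -((smA S).eval 0 * (smA L).eval 0) * hlcC2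
  set c : ℂ := (e : ℂ) * (smA S).eval 0 with hc
  have hcB : c * (smA L).eval 0 = 1 := by
    rw [hc, mul_assoc, hAB, heC]
  have hε : ‖((e : ℤ) : ℂ)‖ = 1 := by
    rw [Complex.norm_intCast]
    rcases he1 with h | h <;> rw [h] <;> norm_num
  have hcn : ‖c‖ = (S.map fun r => ‖r‖).prod := by rw [hc, norm_mul, hε, one_mul, hA0]
  have hclt : ‖c‖ < 1 := by
    rw [hcn]
    by_cases hS0 : S = 0
    · exfalso
      have hL0 : L ≠ 0 := by
        intro h
        rw [hS0, h, add_zero] at hSL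
        rw [← hSL, Multiset.card_zero] at hcard
        omega
      have h3 := sm_one_lt_prod L hL0 hLm
      rw [hS0, Multiset.map_zero, Multiset.prod_zero, one_mul] at hc0n
      linarith
    · exact sm_prod_lt_one S hS0 hSm
  have hTz : ∀ z : ℂ, z ^ k * (C (lc : ℂ) * q.map (Int.castRingHom ℂ)).eval z =
      (e : ℂ) * ((smA S).eval z * (smA L).eval z) - (smA' S).eval z * (smA' L).eval z := by
    intro z
    have h3 : aeval z T = z ^ k * (q.map (Int.castRingHom ℂ)).eval z := by
      conv_lhs => rw [hq1]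
      rw [map_mul, map_pow, aeval_X, eval_map, aeval_def]
      rfl
    have h4 : aeval z T = (e : ℂ) * aeval z P - aeval z P.reverse := by
      rw [hTdef, map_sub, map_mul, aeval_C]
      rfl
    have h5 := sm_eval_P P z
    have h6 := sm_eval_rev P z
    rw [← hSL, Multiset.map_add, Multiset.prod_add] at h5 h6
    rw [smA_eval, smA_eval, smA'_eval, smA'_eval, eval_mul, eval_C]
    have h7 : z ^ k * (q.map (Int.castRingHom ℂ)).eval z =
        (e : ℂ) * ((lc : ℂ) * ((S.map fun r => z - r).prod * (L.map fun r => z - r).prod)) -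
          (lc : ℂ) * ((S.map fun r => 1 - (starRingEnd ℂ) r * z).prod *
            (L.map fun r => 1 - (starRingEnd ℂ) r * z).prod) := by
      rw [← h3, h4, h5, h6]
    linear_combination (lc : ℂ) * h7 + ((e : ℂ) * ((S.map fun r => z - r).prod * (L.map fun r => z - r).prod) -
      (S.map fun r => 1 - (starRingEnd ℂ) r * z).prod * (L.map fun r => 1 - (starRingEnd ℂ) r * z).prod) * hlcC2
  have hfin := sm_core S L hSm hLm (e : ℂ) c hε hclt (C (lc : ℂ) * q.map (Int.castRingHom ℂ)) k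
    hTz hc hcB
  have hT1 : 1 ≤ ‖(C (lc : ℂ) * q.map (Int.castRingHom ℂ)).eval 0‖ := by
    rw [eval_mul, eval_C, norm_mul, hlcC, one_mul, ← coeff_zero_eq_eval_zero, coeff_map]
    have : ‖(Int.castRingHom ℂ) (q.coeff 0)‖ = |((q.coeff 0 : ℤ) : ℝ)| := Complex.norm_intCast _
    rw [this]
    exact_mod_cast Int.one_le_abs hq0
  have hM : ‖c‖ * mm P = 1 := by rw [hcn, hmm]; linarith
  have hcnn := norm_nonneg c
  have hc45 : 4 / 5 < ‖c‖ := by nlinarith
  nlinarith

end CZF
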