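import Pool.Agent.CZF.Key
import Pool.Agent.CZF.S1p
import Pool.Agent.CZF.SM
import Pool.Agent.CZF.NU4
import Pool.Agent.CZF.CA
import Pool.Agent.CZF.CO

open Polynomial

namespace CZF

/-- `x` is a sum of at most `w` numbers `±ζ^e`. -/
def IsShort (w : ℕ) (ζ x : ℂ) : Prop :=
  ∃ (ε : Fin w → ℤ) (e : Fin w → ℕ), (∀ i, |ε i| ≤ 1) ∧ x = ∑ i, (ε i : ℂ) * ζ ^ e i

theorem IsShort.add {w v : ℕ} {ζ x y : ℂ} (hx : IsShort w ζ x) (hy : IsShort v ζ y) :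
    IsShort (w + v) ζ (x + y) := by
  obtain ⟨ε, e, h1, h2⟩ := hx
  obtain ⟨ε', e', h3, h4⟩ := hy
  refine ⟨Fin.append ε ε', Fin.append e e', ?_, ?_⟩
  · intro i
    refine Fin.addCases (fun j => ?_) (fun j => ?_) i
    · rw [Fin.append_left]; exact h1 j
    · rw [Fin.append_right]; exact h3 j
  · rw [Fin.sum_univ_add, h2, h4]
    simp [Fin.append_left, Fin.append_right]

theorem isShort_monomial (n : ℕ) (a : ℤ) (ζ : ℂ) : IsShort a.natAbs ζ (a * ζ ^ n) := by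
  refine ⟨fun _ => a.sign, fun _ => n, fun _ => ?_, ?_⟩
  · rcases Int.sign_trichotomy a with h | h | h <;> rw [h] <;> norm_num
  · rw [Finset.sum_const, Finset.card_univ, Fintype.card_fin, nsmul_eq_mul]
    have : (a : ℂ) = (a.natAbs : ℂ) * (a.sign : ℂ) := by
      have h := Int.sign_mul_natAbs a
      have h2 : ((a.sign * (a.natAbs : ℤ) : ℤ) : ℂ) = (a : ℂ) := by rw [h]
      rw [Int.cast_mul, Int.cast_natCast] at h2
      rw [← h2]; ring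
    conv_lhs => rw [this]
    ring

theorem exists_short (A : ℤ[X]) : ∃ w : ℕ, ∀ ζ : ℂ, IsShort w ζ (aeval ζ A) := by
  induction A using Polynomial.induction_on' with
  | add p q hp hq =>
    obtain ⟨w, hw⟩ := hp
    obtain ⟨v, hv⟩ := hq
    exact ⟨w + v, fun ζ => by rw [map_add]; exact (hw ζ).add (hv ζ)⟩
  | monomial n a =>
    refine ⟨a.natAbs, fun ζ => ?_⟩
    rw [aeval_monomial]
    simpa using isShort_monomial n a ζ

theorem IsShort.pow_base {w t : ℕ} {ζ η x : ℂ} (h : η = ζ ^ t) (hx : IsShort w η x) : IsShort w ζ x := by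
  obtain ⟨ε, e, h1, h2⟩ := hx
  refine ⟨ε, fun i => t * e i, h1, ?_⟩
  rw [h2, h]
  refine Finset.sum_congr rfl fun i _ => ?_
  rw [← pow_mul]

theorem mem_adjoin_iff (ζ x : ℂ) : x ∈ Algebra.adjoin ℤ ({ζ} : Set ℂ) ↔ ∃ A : ℤ[X], aeval ζ A = x := by
  rw [Algebra.adjoin_singleton_eq_range_aeval]; rfl

/-- units of `ℤ[ζ]` in terms of a generator `ξ` with `ξ ∈ ζ^ℕ` -/
theorem isUnit_of_un {ζ ξ : ℂ} {t u : ℕ} (hξ : ξ = ζ ^ t) (α : Algebra.adjoin ℤ ({ζ} : Set ℂ))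
    (h : Un ξ ((α : ℂ) * ξ ^ u)) : IsUnit α := by
  obtain ⟨U, hU⟩ := h
  have hmem : ξ ^ u * aeval ξ U ∈ Algebra.adjoin ℤ ({ζ} : Set ℂ) := by
    rw [mem_adjoin_iff]
    refine ⟨(X ^ t) ^ u * U.comp (X ^ t), ?_⟩
    rw [map_mul, map_pow, map_pow, aeval_X, aeval_comp, map_pow, aeval_X, ← hξ]
  refine IsUnit.of_mul_eq_one (⟨ξ ^ u * aeval ξ U, hmem⟩ : Algebra.adjoin ℤ ({ζ} : Set ℂ)) ?_
  apply Subtype.ext
  rw [MulMemClass.coe_mul, OneMemClass.coe_one]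
  rw [← mul_assoc]; exact hU

theorem not_isUnit_of {ζ η : ℂ} {m : ℕ} (hη : η ^ m = ζ) (α : Algebra.adjoin ℤ ({ζ} : Set ℂ)) (A : ℤ[X])
    (hA : aeval η A = α) (h : ∀ U : ℤ[X], aeval η A * aeval η U ≠ 1) : ¬ IsUnit α := by
  intro hu
  obtain ⟨β, hβ⟩ := hu.exists_right_inv
  obtain ⟨V, hV⟩ := (mem_adjoin_iff ζ β).mp β.2
  have h1 : (α : ℂ) * (β : ℂ) = 1 := by
    rw [← MulMemClass.coe_mul, hβ, OneMemClass.coe_one]
  apply h (V.comp (X ^ m))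
  rw [hA, aeval_comp, map_pow, aeval_X, hη, hV, h1]

theorem irr_rev (b k : ℕ) (hb : 2 ≤ b) (hk : 1 ≤ k) (hi : Irreducible (X ^ k + C (b : ℤ) : ℤ[X])) :
    Irreducible (C (b : ℤ) * X ^ k + 1 : ℤ[X]) := by
  have hbz : (b : ℤ) ≠ 0 := by exact_mod_cast (by omega : b ≠ 0)
  have hdeg : (C (b : ℤ) * X ^ k + 1 : ℤ[X]).natDegree = k := by
    rw [show (1 : ℤ[X]) = C 1 from (map_one C).symm, natDegree_add_C, natDegree_C_mul_X_pow _ _ hbz]
  have hrev : (C (b : ℤ) * X ^ k + 1 : ℤ[X]).reverse = X ^ k + C (b : ℤ) := by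
    ext n
    rw [coeff_reverse, hdeg]
    have hl : ∀ j : ℕ, (C (b : ℤ) * X ^ k + 1 : ℤ[X]).coeff j = (if j = k then (b : ℤ) else 0) + (if j = 0 then 1 else 0) := by
      intro j
      rw [coeff_add, coeff_C_mul_X_pow, coeff_one]
      
    have hr : ∀ j : ℕ, (X ^ k + C (b : ℤ) : ℤ[X]).coeff j = (if j = k then 1 else 0) + (if j = 0 then (b : ℤ) else 0) := by
      intro j
      rw [coeff_add, coeff_X_pow, coeff_C]
    rw [hl, hr]
    by_cases hn : n ≤ k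
    · rw [revAt_le hn]
      split_ifs <;> first | omega | simp
    · rw [revAt_eq_self_of_lt (by omega)]
      split_ifs <;> first | omega | simp
  refine ⟨?_, ?_⟩
  · intro hu
    have := natDegree_eq_zero_of_isUnit hu
    omega
  · intro U V hUV
    have h0 : U.coeff 0 * V.coeff 0 = 1 := by
      rw [← mul_coeff_zero, ← hUV, coeff_add, coeff_C_mul_X_pow, coeff_one, if_neg (by omega : ¬ 0 = k), if_pos rfl, zero_add]
    have key : ∀ W : ℤ[X], IsUnit (W.coeff 0) → IsUnit W.reverse → IsUnit W := by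
      intro W h1 h2
      have h3 := natDegree_eq_zero_of_isUnit h2
      rw [reverse_natDegree] at h3
      have h4 : W.natTrailingDegree = 0 := by
        rw [natTrailingDegree_eq_zero]; right; exact h1.ne_zero
      have h5 : W.natDegree = 0 := by omega
      rw [eq_C_of_natDegree_eq_zero h5]
      exact isUnit_C.mpr h1
    have hUV2 : X ^ k + C (b : ℤ) = U.reverse * V.reverse := by
      rw [← hrev, hUV, reverse_mul_of_domain]
    rcases hi.isUnit_or_isUnit hUV2 with h | h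
    · left; exact key U (IsUnit.of_mul_eq_one _ h0) h
    · right; exact key V (IsUnit.of_mul_eq_one _ (by rw [mul_comm]; exact h0)) h

theorem b_add_ne (b p : ℕ) (hb : 2 ≤ b) (hp : p.Prime) (ζ : ℂ) (hζ : IsPrimitiveRoot ζ p) : (b : ℂ) + ζ ≠ 0 := by
  intro h0
  have h2 : (b : ℂ) = - ζ := by linear_combination h0
  have h3 : ‖(b : ℂ)‖ = 1 := by rw [h2, norm_neg, hζ.norm'_eq_one hp.ne_zero]
  rw [Complex.norm_natCast] at h3
  have : b = 1 := by exact_mod_cast h3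
  omega

/-- the main implication for `α ξ^t = F(ξ)` -/
theorem core_F (b : ℕ) (hb : 2 ≤ b) (h1 : ∀ a m : ℕ, 3 ≤ m → Odd m → a ^ m ≠ b)
    (h4 : ∀ c : ℕ, 4 * c ^ 4 ≠ b) (p L : ℕ) (hp : p.Prime) (hp3 : 3 ≤ p)
    (hnd : ¬ p ∣ b + 1) (hL1 : 1 ≤ L) (ζ : ℂ) (hζ : IsPrimitiveRoot ζ p) (ξ : ℂ) (hξ : IsPrimitiveRoot ξ p) (s : ℕ)
    (hs1 : 1 ≤ s) (hsp : s < p) (hξs : ξ ^ s = ζ) (F : ℤ[X]) (hF0 : F.coeff 0 ≠ 0) (hL : len F ≤ L)
    (H : 100 * (F.natDegree : ℝ) * Real.log ((b : ℝ) * L) ≤ p) (t : ℕ)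
    (α β : Algebra.adjoin ℤ ({ζ} : Set ℂ)) (hαβ : (α : ℂ) * β = b + ζ) (hev : (α : ℂ) * ξ ^ t = aeval ξ F) :
    IsUnit α ∨ IsUnit β := by
  have hirr : ∀ k : ℕ, 1 ≤ k → Irreducible (X ^ k + C (b : ℤ) : ℤ[X]) ∧ Irreducible (C (b : ℤ) * X ^ k + 1 : ℤ[X]) := by
    intro k hk
    have hcap := capelli b hb h1 h4 k hk
    have hmon : (X ^ k + C (b : ℤ) : ℤ[X]).Monic := monic_X_pow_add_C _ (by omega)
    have hi : Irreducible (X ^ k + C (b : ℤ) : ℤ[X]) := by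
      rw [Polynomial.IsPrimitive.Int.irreducible_iff_irreducible_map_cast hmon.isPrimitive]
      have : (X ^ k + C (b : ℤ) : ℤ[X]).map (Int.castRingHom ℚ) = X ^ k + C (b : ℚ) := by
        simp
      rw [this]; exact hcap
    exact ⟨hi, irr_rev b k hb hk hi⟩
  have hF32 : 32 * F.natDegree ≤ p := by
    rcases Nat.eq_zero_or_pos F.natDegree with h | h
    · omega
    · exact (NU4 F.natDegree L b p h hL1 hb H).1
  obtain ⟨B, hB⟩ := (mem_adjoin_iff ζ β).mp β.2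
  have hξp := hξ.pow_eq_one
  have hξ0 : ξ ≠ 0 := hξ.ne_zero hp.ne_zero
  have Hc : ∀ P : ℤ[X], Irreducible P → P ∣ F → ¬ P ∣ F.reverse → 1 ≤ P.natDegree → 1 ≤ F.natDegree →
      mm P ^ (p / 4) ≤ (4 * (L : ℝ) * (b + 1)) ^ P.natDegree → False := by
    intro P hP hPF hPR hg hn hcon
    obtain ⟨_, hP0, hcirc⟩ := no_circle P F hP hPF hF0 hPR
    have hF : F ≠ 0 := fun h => hF0 (by rw [h]; simp)
    obtain ⟨G, hG⟩ := hPF
    have hrevmul : F.reverse = P.reverse * G.reverse := by rw [hG, reverse_mul_of_domain]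
    have hr1 : P.reverse ≠ P := fun h => hPR (by rw [hrevmul, h]; exact dvd_mul_right _ _)
    have hr2 : P.reverse ≠ -P := fun h => hPR (by rw [hrevmul, h, neg_mul]; exact (dvd_mul_right _ _).neg_right)
    have hsm := smyth_weak P hg hP0 hcirc hr1 hr2
    have hgn : P.natDegree ≤ F.natDegree := natDegree_le_of_dvd ⟨G, hG⟩ hF
    have hbase : (1:ℝ) ≤ 4 * (L : ℝ) * (b + 1) := by
      have a1 : (1:ℝ) ≤ L := by exact_mod_cast hL1
      have a3 : (0:ℝ) ≤ b := by positivity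
      nlinarith
    have h5 : ((5:ℝ) / 4) ^ (p / 4) ≤ (4 * (L : ℝ) * (b + 1)) ^ F.natDegree :=
      calc ((5:ℝ) / 4) ^ (p / 4) ≤ mm P ^ (p / 4) := by gcongr
        _ ≤ _ := hcon
        _ ≤ _ := pow_le_pow_right₀ hbase hgn
    have h6 := (NU4 F.natDegree L b p hn hL1 hb H).2
    linarith
  obtain ⟨q, rfl⟩ : ∃ q, p = q + 1 := ⟨p - 1, by omega⟩
  have hT : aeval ξ F * aeval ξ (X ^ (q * t) * B.comp (X ^ s)) = (b : ℂ) + ξ ^ s := by
    rw [← hev, map_mul, map_pow, aeval_X, aeval_comp, map_pow, aeval_X, hξs, hB, ← hαβ]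
    have : ξ ^ t * ξ ^ (q * t) = 1 := by
      rw [← pow_add, show t + q * t = (q + 1) * t by ring, pow_mul, hξp, one_pow]
    linear_combination (α : ℂ) * β * this
  obtain ⟨i, _, hi⟩ := hζ.eq_pow_of_pow_eq_one hξp
  rcases key L b (q + 1) hp hp3 hnd hirr hb ξ hξ s hs1 hsp F _ hF0 hL hF32 Hc hT with h | h
  · left
    refine isUnit_of_un (t := i) (u := t) hi.symm α ?_
    rw [hev]; exact h
  · right
    refine isUnit_of_un (t := i) (u := q * t) hi.symm β ?_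
    rw [map_mul, map_pow, aeval_X, aeval_comp, map_pow, aeval_X, hξs, hB] at h
    rw [mul_comm]; exact h

/-- clause (2): polynomials of small degree in a power of `ζ` -/
theorem main_deg (b : ℕ) (hb : 2 ≤ b) (h1 : ∀ a m : ℕ, 3 ≤ m → Odd m → a ^ m ≠ b)
    (h4 : ∀ c : ℕ, 4 * c ^ 4 ≠ b) (p L : ℕ) (hp : p.Prime) (hp3 : 3 ≤ p)
    (hnd : ¬ p ∣ b + 1) (hL1 : 1 ≤ L) (ζ : ℂ) (hζ : IsPrimitiveRoot ζ p) (t : ℕ) (ht : ¬ p ∣ t)
    (F : ℤ[X]) (hL : len F ≤ L) (H : 100 * (F.natDegree : ℝ) * Real.log ((b : ℝ) * L) ≤ p)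
    (α β : Algebra.adjoin ℤ ({ζ} : Set ℂ)) (hαβ : (α : ℂ) * β = b + ζ) (hev : (α : ℂ) = aeval (ζ ^ t) F) :
    IsUnit α ∨ IsUnit β := by
  have hcop : Nat.Coprime t p := by
    rw [Nat.coprime_comm, Nat.Prime.coprime_iff_not_dvd hp]; exact ht
  have hξ : IsPrimitiveRoot (ζ ^ t) p := hζ.pow_of_coprime t hcop
  set ξ := ζ ^ t with hξd
  have : NeZero p := ⟨hp.ne_zero⟩
  obtain ⟨s, hsp, hs⟩ := hξ.eq_pow_of_pow_eq_one hζ.pow_eq_one
  have hs1 : 1 ≤ s := by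
    by_contra hlt
    have : s = 0 := by omega
    rw [this, pow_zero] at hs
    exact hζ.ne_one hp.one_lt hs.symm
  have hF : F ≠ 0 := by
    rintro rfl
    apply b_add_ne b p hb hp ζ hζ
    rw [← hαβ, hev, map_zero, zero_mul]
  obtain ⟨a, G, e1, e2, e3, e4⟩ := s1p_divX F hF
  have hξp := hξ.pow_eq_one
  have hb2 : (2:ℝ) ≤ b := by exact_mod_cast hb
  have hLr : (1:ℝ) ≤ L := by exact_mod_cast hL1
  have hlog : 0 ≤ Real.log ((b : ℝ) * L) := Real.log_nonneg (by nlinarith)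
  refine core_F b hb h1 h4 p L hp hp3 hnd hL1 ζ hζ ξ hξ s hs1 hsp hs G e2 (by rw [e3]; exact hL) ?_
    ((p - 1) * a) α β hαβ ?_
  · refine le_trans ?_ H
    have : (G.natDegree : ℝ) ≤ F.natDegree := by exact_mod_cast e4
    gcongr
  · rw [hev, e1, map_mul, map_pow, aeval_X]
    have h2 : ξ ^ a * ξ ^ ((p - 1) * a) = 1 := by
      obtain ⟨q, rfl⟩ : ∃ q, p = q + 1 := ⟨p - 1, by omega⟩
      rw [← pow_add, show a + (q + 1 - 1) * a = (q + 1) * a by simp; ring, pow_mul, hξp, one_pow]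
    linear_combination (aeval ξ G) * h2

/-- clause (3): sums of `w` terms -/
theorem main_short (b : ℕ) (hb : 2 ≤ b) (h1 : ∀ a m : ℕ, 3 ≤ m → Odd m → a ^ m ≠ b)
    (h4 : ∀ c : ℕ, 4 * c ^ 4 ≠ b) (p w L : ℕ) (hp : p.Prime) (hp3 : 3 ≤ p) (hnd : ¬ p ∣ b + 1) (hw : 1 ≤ w)
    (hL1 : 1 ≤ L) (H : (210 * Real.log ((b : ℝ) * L)) ^ w ≤ p) (ζ : ℂ) (hζ : IsPrimitiveRoot ζ p)
    (α β : Algebra.adjoin ℤ ({ζ} : Set ℂ)) (hαβ : (α : ℂ) * β = b + ζ)
    (c : Fin w → ℤ) (e : Fin w → ℕ) (hc : ∑ i, |c i| ≤ (L : ℤ))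
    (hsum : (α : ℂ) = ∑ i, (c i : ℂ) * ζ ^ e i) : IsUnit α ∨ IsUnit β := by
  obtain ⟨N, hN, hNp, HN⟩ := NU5 L b p w hL1 hb hw H
  have hα0 : (α : ℂ) ≠ 0 := fun h => b_add_ne b p hb hp ζ hζ (by rw [← hαβ, h, zero_mul])
  obtain ⟨ξ, s, F, t, hξ, hs1, hsp, hξs, hF0, hL, hFN, hev⟩ :=
    short_poly p w N hp hN hNp ζ hζ e c L hc α hsum hα0
  exact core_F b hb h1 h4 p L hp hp3 hnd hL1 ζ hζ ξ hξ s hs1 hsp hξs F hF0 hL (HN _ hFN) t α β hαβ hev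

/-- the case `w ≤ 1` -/
theorem short_one (b : ℕ) (hb : 2 ≤ b) (p w : ℕ) (hw : w ≤ 1) (hp : p.Prime) (ζ : ℂ) (hζ : IsPrimitiveRoot ζ p)
    (α β : Algebra.adjoin ℤ ({ζ} : Set ℂ)) (hαβ : (α : ℂ) * β = b + ζ) (hα : IsShort w ζ α) : IsUnit α := by
  have hbz : b + ζ ≠ 0 := by
    intro h0
    have h2 : (b : ℂ) = - ζ := by linear_combination h0
    have h3 : ‖(b : ℂ)‖ = 1 := by rw [h2, norm_neg, hζ.norm'_eq_one hp.ne_zero]
    rw [Complex.norm_natCast] at h3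
    have : b = 1 := by exact_mod_cast h3
    omega
  have hα0 : (α : ℂ) ≠ 0 := fun h => hbz (by rw [← hαβ, h, zero_mul])
  obtain ⟨ε, e, hε, hsum⟩ := hα
  interval_cases w
  · rw [Fin.sum_univ_zero] at hsum; exact absurd hsum hα0
  · rw [Fin.sum_univ_one] at hsum
    have hζp := hζ.pow_eq_one
    have hε0 : ε 0 ≠ 0 := fun h => hα0 (by rw [hsum, h]; simp)
    have hεε : (ε 0 : ℂ) * (ε 0 : ℂ) = 1 := by
      have h1 := abs_le.mp (hε 0)
      have h2 : ε 0 = 1 ∨ ε 0 = -1 := by omega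
      rcases h2 with h2 | h2 <;> rw [h2] <;> norm_num
    obtain ⟨q, rfl⟩ : ∃ q, p = q + 1 := ⟨p - 1, by have := hp.pos; omega⟩
    refine isUnit_of_un (ζ := ζ) (ξ := ζ) (t := 1) (u := 0) (pow_one ζ).symm α ⟨C (ε 0) * X ^ (q * e 0), ?_⟩
    rw [hsum]
    have : ζ ^ e 0 * ζ ^ (q * e 0) = 1 := by
      rw [← pow_add, show e 0 + q * e 0 = (q + 1) * e 0 by ring, pow_mul, hζp, one_pow]
    have e1 : aeval ζ (C (ε 0) * X ^ (q * e 0) : ℤ[X]) = (ε 0 : ℂ) * ζ ^ (q * e 0) := by simp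
    rw [e1, pow_zero, mul_one]
    linear_combination (ε 0 : ℂ) * (ε 0 : ℂ) * this + hεε

/-- excluded bases: nontrivial short factorisations for all large primes -/
theorem excluded (b : ℕ) (hb : 2 ≤ b) (h : ¬ ((∀ a m : ℕ, 3 ≤ m → Odd m → a ^ m ≠ b) ∧ (∀ c : ℕ, 4 * c ^ 4 ≠ b))) :
    ∃ w p₀ : ℕ, ∀ p : ℕ, p.Prime → p₀ < p → ∀ ζ : ℂ, IsPrimitiveRoot ζ p →
      ∃ α β : Algebra.adjoin ℤ ({ζ} : Set ℂ), (α : ℂ) * β = b + ζ ∧ IsShort w ζ α ∧ ¬ IsUnit α ∧ ¬ IsUnit β := by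
  obtain ⟨m, A, A', hm, hA, hA', hAA⟩ : ∃ (m : ℕ) (A A' : ℤ[X]), 1 ≤ m ∧ 1 ≤ A.natDegree ∧ 1 ≤ A'.natDegree ∧
      A * A' = X ^ m + C (b : ℤ) := by
    rw [not_and_or] at h
    rcases h with h | h
    · push Not at h
      obtain ⟨a, m, hm3, hodd, ham⟩ := h
      obtain ⟨A', hA'⟩ : (X + C (a : ℤ) : ℤ[X]) ∣ X ^ m + C (a : ℤ) ^ m := hodd.add_dvd_pow_add_pow _ _
      have hprod : (X + C (a : ℤ)) * A' = X ^ m + C (b : ℤ) := by
        rw [← hA', ← ham]; simp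
      refine ⟨m, X + C (a : ℤ), A', by omega, by rw [natDegree_X_add_C], ?_, hprod⟩
      have hd : (X ^ m + C (b : ℤ) : ℤ[X]).natDegree = m := natDegree_X_pow_add_C
      have hA0 : A' ≠ 0 := by
        rintro rfl
        rw [mul_zero] at hprod
        rw [← hprod, natDegree_zero] at hd; omega
      have h2 : ((X + C (a : ℤ)) * A').natDegree = 1 + A'.natDegree := by
        rw [natDegree_mul (X_add_C_ne_zero _) hA0, natDegree_X_add_C]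
      rw [hprod, hd] at h2
      omega
    · push Not at h
      obtain ⟨c, hc⟩ := h
      refine ⟨4, X ^ 2 + C (2 * c : ℤ) * X + C (2 * c ^ 2 : ℤ), X ^ 2 - C (2 * c : ℤ) * X + C (2 * c ^ 2 : ℤ), by norm_num, ?_, ?_, ?_⟩
      · have : (X ^ 2 + C (2 * c : ℤ) * X + C (2 * c ^ 2 : ℤ) : ℤ[X]).natDegree = 2 := by compute_degree!
        omega
      · have : (X ^ 2 - C (2 * c : ℤ) * X + C (2 * c ^ 2 : ℤ) : ℤ[X]).natDegree = 2 := by compute_degree!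
        omega
      · rw [← hc]
        simp only [map_mul, map_pow, Nat.cast_mul, Nat.cast_pow, Nat.cast_ofNat, C_ofNat]
        ring
  obtain ⟨w, hw⟩ := exists_short A
  obtain ⟨p₁, h1⟩ := converse b m hb hm A A' hA hA' hAA
  obtain ⟨p₂, h2⟩ := converse b m hb hm A' A hA' hA (by rw [mul_comm]; exact hAA)
  refine ⟨w, p₁ + p₂ + m, fun p hp hpp ζ hζ => ?_⟩
  have hcop : Nat.Coprime m p := by
    rw [Nat.coprime_comm, Nat.Prime.coprime_iff_not_dvd hp]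
    intro hd; have := Nat.le_of_dvd (by omega) hd; omega
  obtain ⟨t, ht⟩ : ∃ t : ℕ, m * t ≡ 1 [MOD p] := by
    obtain ⟨t, _, ht⟩ := Nat.exists_mul_mod_eq_one_of_coprime hcop hp.one_lt
    exact ⟨t, by rw [Nat.ModEq, ht, Nat.mod_eq_of_lt hp.one_lt]⟩
  have hcop2 : Nat.Coprime t p := by
    have h3 : Nat.Coprime (m * t) p := by
      rw [Nat.Coprime, ht.gcd_eq]; simp
    exact Nat.Coprime.coprime_mul_left h3
  have hη : IsPrimitiveRoot (ζ ^ t) p := hζ.pow_of_coprime t hcop2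
  have hηm : (ζ ^ t) ^ m = ζ := by
    rw [← pow_mul, mul_comm t m]
    have := pow_eq_pow_of_modEq ht hζ.pow_eq_one
    rw [this, pow_one]
  have hmA : ∀ A : ℤ[X], aeval (ζ ^ t) A ∈ Algebra.adjoin ℤ ({ζ} : Set ℂ) := by
    intro A
    rw [mem_adjoin_iff]
    exact ⟨A.comp (X ^ t), by rw [aeval_comp, map_pow, aeval_X]⟩
  refine ⟨⟨aeval (ζ ^ t) A, hmA A⟩, ⟨aeval (ζ ^ t) A', hmA A'⟩, ?_, ?_, ?_, ?_⟩
  · show aeval (ζ ^ t) A * aeval (ζ ^ t) A' = b + ζ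
    rw [← map_mul, hAA, map_add, map_pow, aeval_X, hηm]; simp [add_comm]
  · exact (hw (ζ ^ t)).pow_base rfl
  · exact not_isUnit_of hηm _ A rfl (h1 p hp (by omega) _ hη)
  · exact not_isUnit_of hηm _ A' rfl (h2 p hp (by omega) _ hη)

end CZF
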