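import Pool.Agent.CZF.CR
import Pool.Agent.CZF.S2
import Pool.Agent.CZF.Key

/-!
# Norms of proper factors of `b + ζ`

The norm of a nonunit factor of `b + ζ` in `ℤ[ζ]`, `ζ` a primitive `p`-th root of unity, is at least
`(7 / 2) ^ ((p - 1) / 8)` (the method of Amoroso and Dvornicich, by the Frobenius automorphism at `7`).
-/

set_option autoImplicit false

open Polynomial

namespace CZF

theorem nd_frob (q : ℕ) (hq : q.Prime) (G : ℤ[X]) :
    ∃ E : ℤ[X], expand ℤ q G = G ^ q + C (q : ℤ) * E := by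
  haveI : Fact q.Prime := ⟨hq⟩
  have h1 : (expand ℤ q G - G ^ q).map (Int.castRingHom (ZMod q)) = 0 := by
    rw [Polynomial.map_sub, Polynomial.map_pow, map_expand, ZMod.expand_card, sub_self]
  have h2 : C (q : ℤ) ∣ expand ℤ q G - G ^ q := by
    rw [C_dvd_iff_dvd_coeff]
    intro i
    have h3 := congrArg (fun f => f.coeff i) h1
    simp only [coeff_map, coeff_zero] at h3
    exact (ZMod.intCast_zmod_eq_zero_iff_dvd _ _).1 (by simpa using h3)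
  obtain ⟨E, hE⟩ := h2
  exact ⟨E, by rw [← hE]; ring⟩

/-- complex conjugation of a value at a root of unity -/
theorem nd_conj (p : ℕ) (hp : p.Prime) (ξ : ℂ) (hξ : IsPrimitiveRoot ξ p) (P : ℤ[X]) (j : ℕ) :
    ‖aeval ((ξ ^ j) ^ (p - 1)) P‖ = ‖aeval (ξ ^ j) P‖ := by
  have hξp : ξ ^ p = 1 := hξ.pow_eq_one
  have hn : ‖ξ‖ = 1 := hξ.norm'_eq_one hp.ne_zero
  have h1 : (ξ ^ j) ^ (p - 1) = (starRingEnd ℂ) (ξ ^ j) := by
    have h2 : (ξ ^ j) ^ (p - 1) * ξ ^ j = 1 := by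
      rw [← pow_succ, Nat.sub_add_cancel hp.one_lt.le, ← pow_mul, mul_comm, pow_mul, hξp, one_pow]
    have h3 : (starRingEnd ℂ) (ξ ^ j) * ξ ^ j = 1 := by
      rw [mul_comm, Complex.mul_conj, Complex.normSq_eq_norm_sq, norm_pow, hn]
      simp
    have h4 : ξ ^ j ≠ 0 := pow_ne_zero _ (hξ.ne_zero hp.ne_zero)
    exact mul_right_cancel₀ h4 (h2.trans h3.symm)
  have h5 : aeval ((starRingEnd ℂ) (ξ ^ j)) P = (starRingEnd ℂ) (aeval (ξ ^ j) P) := by
    rw [aeval_eq_sum_range, aeval_eq_sum_range, map_sum]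
    refine Finset.sum_congr rfl (fun i _ => ?_)
    rw [zsmul_eq_mul, zsmul_eq_mul, map_mul, ← map_pow, map_intCast]
  rw [h1, h5, Complex.norm_conj]

/-- `j ↦ a j` permutes the nonzero residues -/
theorem nd_perm (p a : ℕ) (hp : p.Prime) (ha : ¬ p ∣ a) (ξ : ℂ) (hξ : IsPrimitiveRoot ξ p) (f : ℂ → ℝ) :
    ∏ j ∈ Finset.Icc 1 (p - 1), f (ξ ^ (a * j)) = ∏ j ∈ Finset.Icc 1 (p - 1), f (ξ ^ j) := by
  have hξp : ξ ^ p = 1 := hξ.pow_eq_one
  have hmod : ∀ n : ℕ, ξ ^ n = ξ ^ (n % p) := by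
    intro n
    conv_lhs => rw [← Nat.div_add_mod n p]
    rw [pow_add, pow_mul, hξp, one_pow, one_mul]
  refine Finset.prod_nbij (fun j => a * j % p) ?_ ?_ ?_ (fun j _ => by rw [hmod (a * j)])
  · intro j hj
    rw [Finset.mem_Icc] at hj ⊢
    have h1 : a * j % p < p := Nat.mod_lt _ hp.pos
    have h2 : a * j % p ≠ 0 := by
      intro h
      rcases (Nat.Prime.dvd_mul hp).1 (Nat.dvd_of_mod_eq_zero h) with h3 | h3
      · exact ha h3
      · have := Nat.le_of_dvd (by omega) h3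
        omega
    omega
  · intro i hi j hj hij
    rw [Finset.mem_coe, Finset.mem_Icc] at hi hj
    have hij' : a * i % p = a * j % p := hij
    have h1 : a * i ≡ a * j [MOD p] := hij'
    have hcop : Nat.Coprime p a := (Nat.Prime.coprime_iff_not_dvd hp).2 ha
    have h2 : i ≡ j [MOD p] := Nat.ModEq.cancel_left_of_coprime hcop h1
    exact Nat.ModEq.eq_of_lt_of_lt h2 (by omega) (by omega)
  · intro k hk
    rw [Finset.mem_coe, Finset.mem_Icc] at hk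
    have hcop : Nat.Coprime a p := (Nat.coprime_comm.1 ((Nat.Prime.coprime_iff_not_dvd hp).2 ha))
    obtain ⟨i, _, hi⟩ := Nat.exists_mul_mod_eq_one_of_coprime hcop hp.one_lt
    refine ⟨i * k % p, ?_, ?_⟩
    · rw [Finset.mem_coe, Finset.mem_Icc]
      have h1 : i * k % p < p := Nat.mod_lt _ hp.pos
      have h2 : i * k % p ≠ 0 := by
        intro h
        rcases (Nat.Prime.dvd_mul hp).1 (Nat.dvd_of_mod_eq_zero h) with h3 | h3
        · have h4 : a * i % p = 0 := Nat.mod_eq_zero_of_dvd (Dvd.dvd.mul_left h3 a)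
          omega
        · have := Nat.le_of_dvd (by omega) h3
          omega
      omega
    · show a * (i * k % p) % p = k
      rw [Nat.mul_mod, Nat.mod_mod, ← Nat.mul_mod, ← mul_assoc, Nat.mul_mod, hi, one_mul, Nat.mod_mod]
      exact Nat.mod_eq_of_lt (by omega)

/-- row ND -/
theorem norm_bound (p : ℕ) (hp : p.Prime) (hp11 : 11 ≤ p) (ξ : ℂ) (hξ : IsPrimitiveRoot ξ p) (b : ℕ)
    (hb : ¬ p ∣ b + 1) (s : ℕ) (hs : ¬ p ∣ s) (P T : ℤ[X])
    (h1 : (b : ℂ) + ξ ^ s = aeval ξ P * aeval ξ T) (hu : ¬ Un ξ (aeval ξ P)) :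
    ((7 : ℝ) / 2) ^ (p - 1) ≤ ‖∏ j ∈ Finset.Icc 1 (p - 1), aeval (ξ ^ j) P‖ ^ 8 := by
  obtain ⟨E, hE⟩ := nd_frob 7 (by norm_num) P
  set Q : ℤ[X] := P.comp (X ^ (p - 1)) with hQ
  obtain ⟨E', hE'⟩ := nd_frob 7 (by norm_num) Q
  set Δ : ℤ[X] := expand ℤ 7 P * Q ^ 7 - expand ℤ 7 Q * P ^ 7 with hΔ
  set W : ℤ[X] := E * Q ^ 7 - E' * P ^ 7 with hW
  have hΔW : Δ = C 7 * W := by
    rw [hΔ, hW, hE, hE']
    push_cast
    ring
  have hξp : ξ ^ p = 1 := hξ.pow_eq_one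
  have hQev : ∀ z : ℂ, aeval z Q = aeval (z ^ (p - 1)) P := by
    intro z
    rw [hQ, aeval_comp]
    simp
  -- relation for all conjugates
  have hrel0 : aeval ξ (P * T - (C (b : ℤ) + X ^ s)) = 0 := by
    rw [map_sub, map_mul, ← h1]; simp
  have hrel : ∀ j : ℕ, ¬ p ∣ j → aeval (ξ ^ j) P * aeval (ξ ^ j) T = (b : ℂ) + ξ ^ (j * s) := by
    intro j hj
    have := conj_rel p hp ξ hξ _ hrel0 j hj
    rw [map_sub, map_mul] at this
    have h2 := sub_eq_zero.mp this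
    rw [h2, pow_mul]; simp
  -- `Δ` does not vanish
  have hne1 : aeval ξ Δ ≠ 0 := by
    intro h0
    apply hu
    have hd7 : ¬ p ∣ 7 := fun h => by
      have := Nat.le_of_dvd (by norm_num) h
      omega
    have hd1 : ¬ p ∣ p - 1 := fun h => by
      have := Nat.le_of_dvd (by omega) h
      omega
    have e1 : aeval (ξ ^ 7) P * aeval (ξ ^ (p - 1)) P ^ 7 =
        aeval ((ξ ^ 7) ^ (p - 1)) P * aeval ξ P ^ 7 := by
      rw [hΔ, map_sub, map_mul, map_mul, map_pow, map_pow, expand_aeval, expand_aeval, hQev, hQev] at h0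
      exact sub_eq_zero.1 h0
    -- work in the ring ℤ[ξ]
    let R := Algebra.adjoin ℤ ({ξ} : Set ℂ)
    have hmem : ∀ U : ℤ[X], ∀ n : ℕ, aeval (ξ ^ n) U ∈ R := by
      intro U n
      have h3 : Algebra.adjoin ℤ ({ξ ^ n} : Set ℂ) ≤ R :=
        Algebra.adjoin_le (Set.singleton_subset_iff.2
          (Subalgebra.pow_mem _ (Algebra.self_mem_adjoin_singleton ℤ ξ) n))
      exact h3 (aeval_mem_adjoin_singleton ℤ (ξ ^ n))
    have hmem1 : ∀ U : ℤ[X], aeval ξ U ∈ R := fun U => by simpa using hmem U 1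
    have hbm : ∀ n : ℕ, (b : ℂ) + ξ ^ n ∈ R := fun n =>
      Subalgebra.add_mem _ (natCast_mem R b)
        (Subalgebra.pow_mem _ (Algebra.self_mem_adjoin_singleton ℤ ξ) n)
    have hcop : ∀ u v : ℕ, ¬ u ≡ v [MOD p] →
        IsCoprime (⟨(b : ℂ) + ξ ^ u, hbm u⟩ : R) ⟨(b : ℂ) + ξ ^ v, hbm v⟩ := by
      intro u v huv
      obtain ⟨U, V, hUV⟩ := coprime_conj p hp ξ hξ b hb u v huv
      exact ⟨⟨aeval ξ U, hmem1 U⟩, ⟨aeval ξ V, hmem1 V⟩, Subtype.ext hUV⟩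
    set a1 : R := ⟨aeval ξ P, hmem1 P⟩ with ha1
    set a7 : R := ⟨aeval (ξ ^ 7) P, hmem P 7⟩ with ha7
    set am : R := ⟨aeval (ξ ^ (p - 1)) P, hmem P (p - 1)⟩ with ham
    have hdvd1 : a1 ∣ ⟨(b : ℂ) + ξ ^ s, hbm s⟩ := ⟨⟨aeval ξ T, hmem1 T⟩, Subtype.ext h1⟩
    have hdvd7 : a7 ∣ ⟨(b : ℂ) + ξ ^ (7 * s), hbm _⟩ :=
      ⟨⟨aeval (ξ ^ 7) T, hmem T 7⟩, Subtype.ext (hrel 7 hd7).symm⟩
    have hdvdm : am ∣ ⟨(b : ℂ) + ξ ^ ((p - 1) * s), hbm _⟩ :=
      ⟨⟨aeval (ξ ^ (p - 1)) T, hmem T (p - 1)⟩, Subtype.ext (hrel (p - 1) hd1).symm⟩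
    have hn7 : ¬ s ≡ 7 * s [MOD p] := by
      intro hc
      have h3 : (p : ℤ) ∣ ((7 * s : ℕ) : ℤ) - (s : ℤ) := (Nat.modEq_iff_dvd).mp hc
      have h4 : (p : ℤ) ∣ ((6 * s : ℕ) : ℤ) := by
        have : ((7 * s : ℕ) : ℤ) - (s : ℤ) = ((6 * s : ℕ) : ℤ) := by push_cast; ring
        rwa [this] at h3
      have h5 : p ∣ 6 * s := by exact_mod_cast h4
      rcases (Nat.Prime.dvd_mul hp).mp h5 with h6 | h6
      · have := Nat.le_of_dvd (by norm_num) h6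
        omega
      · exact hs h6
    have hnm : ¬ s ≡ (p - 1) * s [MOD p] := by
      intro hc
      have h3 : (p : ℤ) ∣ (((p - 1) * s : ℕ) : ℤ) - (s : ℤ) := (Nat.modEq_iff_dvd).mp hc
      have h5 : (((p - 1) * s : ℕ) : ℤ) - (s : ℤ) = p * s - 2 * s := by
        rw [Nat.cast_mul, Nat.cast_sub (by omega)]; push_cast; ring
      rw [h5] at h3
      have h4 : (p : ℤ) ∣ 2 * s := (dvd_sub_right (dvd_mul_right _ _)).mp h3
      have h7 : p ∣ 2 * s := by exact_mod_cast h4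
      rcases (Nat.Prime.dvd_mul hp).mp h7 with h8 | h8
      · have := Nat.le_of_dvd (by omega) h8; omega
      · exact hs h8
    have hc7 : IsCoprime a1 a7 :=
      ((hcop s (7 * s) hn7).of_isCoprime_of_dvd_left hdvd1).of_isCoprime_of_dvd_right hdvd7
    have hcm : IsCoprime a1 am :=
      ((hcop s ((p - 1) * s) hnm).of_isCoprime_of_dvd_left hdvd1).of_isCoprime_of_dvd_right hdvdm
    have hcc : IsCoprime a1 (a7 * am ^ 7) := hc7.mul_right (hcm.pow_right)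
    have hdiv : a1 ∣ a7 * am ^ 7 := by
      refine ⟨⟨aeval ((ξ ^ 7) ^ (p - 1)) P, by rw [← pow_mul]; exact hmem P _⟩ * a1 ^ 6, ?_⟩
      apply Subtype.ext
      show aeval (ξ ^ 7) P * (aeval (ξ ^ (p - 1)) P) ^ 7 =
        aeval ξ P * (aeval ((ξ ^ 7) ^ (p - 1)) P * (aeval ξ P) ^ 6)
      rw [e1]; ring
    have hunit : IsUnit a1 := hcc.isUnit_of_dvd' dvd_rfl hdiv
    obtain ⟨v, hv⟩ := hunit.exists_right_inv
    have hv1 : aeval ξ P * (v : ℂ) = 1 := congrArg Subtype.val hv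
    obtain ⟨U, hU⟩ : ∃ U : ℤ[X], aeval ξ U = (v : ℂ) := by
      have h3 : (v : ℂ) ∈ (Polynomial.aeval ξ : ℤ[X] →ₐ[ℤ] ℂ).range := by
        rw [← Algebra.adjoin_singleton_eq_range_aeval]; exact v.2
      exact h3
    exact ⟨U, by rw [hU, hv1]⟩
  have hne : ∀ j ∈ Finset.Icc 1 (p - 1), aeval (ξ ^ j) Δ ≠ 0 := by
    intro j hj h0
    rw [Finset.mem_Icc] at hj
    have hjp : ¬ p ∣ j := fun h => by
      have := Nat.le_of_dvd (by omega) h
      omega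
    -- go back from `ξ ^ j` to `ξ`
    have hcopj : Nat.Coprime j p := (Nat.coprime_comm.1 ((Nat.Prime.coprime_iff_not_dvd hp).2 hjp))
    obtain ⟨i, _, hi⟩ := Nat.exists_mul_mod_eq_one_of_coprime hcopj hp.one_lt
    have hξj : IsPrimitiveRoot (ξ ^ j) p := hξ.pow_of_coprime j hcopj
    have hip : ¬ p ∣ i := by
      intro h
      have h4 : j * i % p = 0 := Nat.mod_eq_zero_of_dvd (Dvd.dvd.mul_left h j)
      omega
    have h2 := conj_rel p hp (ξ ^ j) hξj Δ h0 i hip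
    have h3 : (ξ ^ j) ^ i = ξ := by
      rw [← pow_mul]
      conv_lhs => rw [← Nat.div_add_mod (j * i) p]
      rw [pow_add, pow_mul, hξp, one_pow, one_mul, hi, pow_one]
    rw [h3] at h2
    exact hne1 h2
  -- lower bound
  obtain ⟨z, hz⟩ := prod_int p hp ξ hξ W
  have hprod : ∏ j ∈ Finset.Icc 1 (p - 1), aeval (ξ ^ j) Δ = (7 : ℂ) ^ (p - 1) * (z : ℂ) := by
    rw [← hz, hΔW]
    have : ∀ j ∈ Finset.Icc 1 (p - 1), aeval (ξ ^ j) (C 7 * W) = 7 * aeval (ξ ^ j) W := by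
      intro j _
      rw [map_mul, aeval_C]
      simp
    rw [Finset.prod_congr rfl this, Finset.prod_mul_distrib, Finset.prod_const, Nat.card_Icc]
    congr 2
  have hz0 : z ≠ 0 := by
    intro h
    rw [h, Int.cast_zero, mul_zero] at hprod
    obtain ⟨j, hj, hj0⟩ := Finset.prod_eq_zero_iff.1 hprod
    exact hne j hj hj0
  have hlow : (7 : ℝ) ^ (p - 1) ≤ ‖∏ j ∈ Finset.Icc 1 (p - 1), aeval (ξ ^ j) Δ‖ := by
    rw [hprod, norm_mul, norm_pow, Complex.norm_intCast]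
    have h3 : (1 : ℝ) ≤ |(z : ℝ)| := by exact_mod_cast Int.one_le_abs hz0
    have h4 : ‖(7 : ℂ)‖ = 7 := by simp
    rw [h4]
    nlinarith [pow_pos (show (0 : ℝ) < 7 by norm_num) (p - 1)]
  -- upper bound
  have hterm : ∀ j : ℕ, ‖aeval (ξ ^ j) Δ‖ ≤ 2 * (‖aeval (ξ ^ (7 * j)) P‖ * ‖aeval (ξ ^ j) P‖ ^ 7) := by
    intro j
    have e7 : (ξ ^ j) ^ 7 = ξ ^ (7 * j) := by rw [← pow_mul, mul_comm]
    rw [hΔ, map_sub, map_mul, map_mul, map_pow, map_pow, expand_aeval, expand_aeval, hQev, hQev]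
    refine (norm_sub_le _ _).trans ?_
    rw [norm_mul, norm_mul, norm_pow, norm_pow, e7, nd_conj p hp ξ hξ P j, nd_conj p hp ξ hξ P (7 * j)]
    linarith
  have hup : ‖∏ j ∈ Finset.Icc 1 (p - 1), aeval (ξ ^ j) Δ‖ ≤
      2 ^ (p - 1) * ‖∏ j ∈ Finset.Icc 1 (p - 1), aeval (ξ ^ j) P‖ ^ 8 := by
    rw [norm_prod, norm_prod]
    refine (Finset.prod_le_prod (fun j _ => norm_nonneg _) (fun j _ => hterm j)).trans ?_
    have hd7 : ¬ p ∣ 7 := fun h => by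
      have := Nat.le_of_dvd (by norm_num) h
      omega
    have hperm := nd_perm p 7 hp hd7 ξ hξ (fun z => ‖aeval z P‖)
    rw [Finset.prod_mul_distrib, Finset.prod_mul_distrib, Finset.prod_const, Nat.card_Icc,
      Finset.prod_pow, hperm]
    have : p - 1 + 1 - 1 = p - 1 := by omega
    rw [this]
    apply le_of_eq
    ring
  have h27 : ((7 : ℝ) / 2) ^ (p - 1) = 7 ^ (p - 1) / 2 ^ (p - 1) := div_pow _ _ _
  rw [h27, div_le_iff₀ (by positivity)]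
  calc (7 : ℝ) ^ (p - 1) ≤ _ := hlow.trans hup
    _ = _ := mul_comm _ _

end CZF
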