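import Pool.Agent.CZF.Defs

open Polynomial

namespace CZF

/-- row S1 -/
theorem dirichlet (p w N : ℕ) (hp : p.Prime) (hN : 1 ≤ N) (hNp : N ^ w < p) (e : Fin w → ℕ) :
    ∃ s : ℕ, 1 ≤ s ∧ s < p ∧ ∃ r : Fin w → ℤ, ∀ j, (p : ℤ) ∣ (s : ℤ) * e j - r j ∧ |r j| * N < p := by
  classical
  have hp0 : 0 < p := hp.pos
  -- boxes
  let box : ℕ → (Fin w → Fin N) := fun s j =>
    ⟨(s * e j % p) * N / p, by
      rw [Nat.div_lt_iff_lt_mul hp0]
      have := Nat.mod_lt (s * e j) hp0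
      nlinarith⟩
  have hcard : (Finset.univ : Finset (Fin w → Fin N)).card < (Finset.range p).card := by
    rw [Finset.card_univ, Fintype.card_fun, Fintype.card_fin, Fintype.card_fin, Finset.card_range]
    exact hNp
  obtain ⟨s1, h1, s2, h2, hne, heq⟩ :=
    Finset.exists_ne_map_eq_of_card_lt_of_maps_to hcard (f := box) (fun _ _ => Finset.mem_univ _)
  rw [Finset.mem_range] at h1 h2
  wlog hlt : s1 < s2 generalizing s1 s2
  · exact this s2 h2 s1 h1 hne.symm heq.symm (by omega)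
  refine ⟨s2 - s1, by omega, by omega, fun j => ((s2 * e j % p : ℕ) : ℤ) - ((s1 * e j % p : ℕ) : ℤ), fun j => ⟨?_, ?_⟩⟩
  · have a1 : (p : ℤ) ∣ (s1 : ℤ) * e j - ((s1 * e j % p : ℕ) : ℤ) := by
      push_cast
      exact Int.dvd_self_sub_emod
    have a2 : (p : ℤ) ∣ (s2 : ℤ) * e j - ((s2 * e j % p : ℕ) : ℤ) := by
      push_cast
      exact Int.dvd_self_sub_emod
    have a3 := dvd_sub a2 a1
    have : ((s2 - s1 : ℕ) : ℤ) * e j - (((s2 * e j % p : ℕ) : ℤ) - ((s1 * e j % p : ℕ) : ℤ)) =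
        (s2 : ℤ) * e j - ((s2 * e j % p : ℕ) : ℤ) - ((s1 : ℤ) * e j - ((s1 * e j % p : ℕ) : ℤ)) := by
      rw [Nat.cast_sub hlt.le]; ring
    rw [this]; exact a3
  · have hb : (s1 * e j % p) * N / p = (s2 * e j % p) * N / p := by
      have := congrFun heq j
      exact congrArg Fin.val this
    set x := s1 * e j % p
    set y := s2 * e j % p
    have hx1 := Nat.div_add_mod (x * N) p
    have hy1 := Nat.div_add_mod (y * N) p
    have hx2 := Nat.mod_lt (x * N) hp0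
    have hy2 := Nat.mod_lt (y * N) hp0
    rw [hb] at hx1
    set q := y * N / p
    have hx3 : (p : ℤ) * q + (x * N % p : ℕ) = x * N := by exact_mod_cast hx1
    have hy3 : (p : ℤ) * q + (y * N % p : ℕ) = y * N := by exact_mod_cast hy1
    have hN0 : (0 : ℤ) ≤ N := by positivity
    have e1 : |(y : ℤ) - x| * N = |(y : ℤ) * N - x * N| := by
      rw [← sub_mul, abs_mul, abs_of_nonneg hN0]
    rw [e1, abs_lt]
    have hx4 : (0:ℤ) ≤ ((x * N % p : ℕ) : ℤ) := Int.natCast_nonneg _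
    have hy4 : (0:ℤ) ≤ ((y * N % p : ℕ) : ℤ) := Int.natCast_nonneg _
    have hx5 : ((x * N % p : ℕ) : ℤ) < p := by exact_mod_cast hx2
    have hy5 : ((y * N % p : ℕ) : ℤ) < p := by exact_mod_cast hy2
    constructor <;> linarith

end CZF
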