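import Pool.Agent.CZF.Defs
import Pool.Agent.CZF.SB

open scoped BigOperators
open Polynomial

namespace CZF

/-- an irreducible polynomial of positive degree divides every integer polynomial which vanishes
at one of its roots -/
theorem s3b_dvd {P : ℤ[X]} (hP : Irreducible P) (hg : 1 ≤ P.natDegree) (G : ℤ[X]) {z : ℂ}
    (hz : aeval z P = 0) (hG : aeval z G = 0) : P ∣ G := by
  have hprim : P.IsPrimitive := hP.isPrimitive (by omega)
  have hirr : Irreducible (P.map (Int.castRingHom ℚ)) :=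
    (IsPrimitive.Int.irreducible_iff_irreducible_map_cast hprim).1 hP
  have hc : ∀ (x : ℂ) (H : ℤ[X]), aeval x (H.map (Int.castRingHom ℚ)) = aeval x H := by
    intro x H
    rw [aeval_def, aeval_def, eval₂_map]
    congr 1
  have hm : minpoly ℚ z = P.map (Int.castRingHom ℚ) * C (P.map (Int.castRingHom ℚ)).leadingCoeff⁻¹ :=
    (minpoly.eq_of_irreducible hirr (by rw [hc, hz])).symm
  have h2 : minpoly ℚ z ∣ G.map (Int.castRingHom ℚ) := by
    rw [minpoly.dvd_iff, hc]; exact hG
  rw [hm] at h2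
  have h3 : P.map (Int.castRingHom ℚ) ∣ G.map (Int.castRingHom ℚ) := (Dvd.intro _ rfl).trans h2
  exact (IsPrimitive.Int.dvd_iff_map_cast_dvd_map_cast P G hprim).2 h3

/-- row S3b: no root on the circle -/
theorem no_circle (P F : ℤ[X]) (hP : Irreducible P) (hPF : P ∣ F) (hF0 : F.coeff 0 ≠ 0)
    (hR : ¬ P ∣ F.reverse) : 1 ≤ P.natDegree ∧ P.coeff 0 ≠ 0 ∧ ∀ z ∈ rts P, ‖z‖ ≠ 1 := by
  have hdeg : 1 ≤ P.natDegree := by
    by_contra hcon
    have h0 : P.natDegree = 0 := by omega
    obtain ⟨c, hc⟩ := natDegree_eq_zero.1 h0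
    apply hR
    rw [← hc, C_dvd_iff_dvd_coeff]
    intro i
    rw [coeff_reverse]
    rw [← hc, C_dvd_iff_dvd_coeff] at hPF
    exact hPF _
  refine ⟨hdeg, ?_, ?_⟩
  · intro h
    obtain ⟨G, rfl⟩ := hPF
    rw [mul_coeff_zero, h, zero_mul] at hF0
    exact hF0 rfl
  · intro z hz h1
    have hPz : aeval z P = 0 := (sb_mem hP.ne_zero z).1 hz
    have hz0 : z ≠ 0 := by
      intro h
      rw [h, norm_zero] at h1
      exact zero_ne_one h1
    apply hR
    refine s3b_dvd hP hdeg F.reverse hPz ?_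
    have hFz : aeval z F = 0 := by
      obtain ⟨G, rfl⟩ := hPF
      rw [map_mul, hPz, zero_mul]
    have hconj : (starRingEnd ℂ) z = z⁻¹ := by
      rw [Complex.inv_def, Complex.normSq_eq_norm_sq, h1]
      simp
    have hFc : aeval z⁻¹ F = 0 := by
      rw [← hconj, aeval_def, eval₂_eq_sum_range]
      have h2 := congrArg (starRingEnd ℂ) hFz
      rw [aeval_def, eval₂_eq_sum_range, map_sum, map_zero] at h2
      rw [← h2]
      refine Finset.sum_congr rfl fun i _ => ?_
      rw [map_mul, map_pow]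
      congr 1
      simp
    letI : Invertible (z⁻¹) := invertibleOfNonzero (inv_ne_zero hz0)
    have h4 := (eval₂_reverse_eq_zero_iff (algebraMap ℤ ℂ) z⁻¹ F).2 hFc
    rw [invOf_eq_inv, inv_inv] at h4
    exact h4

end CZF
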