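import Pool.Agent.CZF.Defs

open Polynomial

namespace CZF

theorem s5_map_ne_zero {P : ℤ[X]} (hP : P ≠ 0) : P.map (Int.castRingHom ℂ) ≠ 0 :=
  (Polynomial.map_ne_zero_iff (RingHom.injective_int (Int.castRingHom ℂ))).2 hP

theorem s5_card (P : ℤ[X]) : (rts P).card = P.natDegree := by
  unfold rts
  rw [← (IsAlgClosed.splits (P.map (Int.castRingHom ℂ))).natDegree_eq_card_roots]
  exact natDegree_map_eq_of_injective (RingHom.injective_int (Int.castRingHom ℂ)) P

/-- the resultant as a product over the roots -/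
theorem s5_res (P G : ℤ[X]) (k : ℕ) (hk : G.natDegree ≤ k) :
    ((resultant P G P.natDegree k : ℤ) : ℂ) =
      (P.leadingCoeff : ℂ) ^ k * ((rts P).map fun z => aeval z G).prod := by
  have hinj := RingHom.injective_int (Int.castRingHom ℂ)
  have h1 := resultant_eq_prod_eval (P.map (Int.castRingHom ℂ)) (G.map (Int.castRingHom ℂ)) k
    (natDegree_map_le.trans hk) (IsAlgClosed.splits _)
  rw [natDegree_map_eq_of_injective hinj, resultant_map_map, leadingCoeff_map_of_injective hinj]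
    at h1
  rw [eq_intCast, eq_intCast] at h1
  rw [h1]
  congr 2
  refine Multiset.map_congr rfl (fun z _ => ?_)
  rw [eval_map, aeval_def]
  rfl

theorem s5_norm (P G : ℤ[X]) (k : ℕ) (hk : G.natDegree ≤ k) :
    |((resultant P G P.natDegree k : ℤ) : ℝ)| =
      |(P.leadingCoeff : ℝ)| ^ k * ((rts P).map fun z => ‖aeval z G‖).prod := by
  have h1 := congrArg (fun z : ℂ => ‖z‖) (s5_res P G k hk)
  simp only [norm_mul, norm_pow, Complex.norm_intCast] at h1
  rw [h1]
  congr 1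
  have h2 := map_multiset_prod (normHom (α := ℂ)) ((rts P).map fun z => aeval z G)
  rw [Multiset.map_map] at h2
  exact h2


/-- `|1 - r^(2j)| ≤ j |1 - r²| max(1,r)^(2j)` -/
theorem s5_pow (r : ℝ) (hr : 0 ≤ r) (j : ℕ) :
    |1 - (r ^ 2) ^ j| ≤ j * |1 - r ^ 2| * max 1 r ^ (2 * j) := by
  have hm : 1 ≤ max 1 r := le_max_left _ _
  have hm2 : r ^ 2 ≤ max 1 r ^ 2 := pow_le_pow_left₀ hr (le_max_right _ _) 2
  have h1 : 1 - (r ^ 2) ^ j = (∑ i ∈ Finset.range j, (r ^ 2) ^ i) * (1 - r ^ 2) := by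
    have := geom_sum_mul (r ^ 2) j
    linarith
  rw [h1, abs_mul, abs_of_nonneg (Finset.sum_nonneg (fun i _ => pow_nonneg (sq_nonneg r) i))]
  have h2 : ∑ i ∈ Finset.range j, (r ^ 2) ^ i ≤ j * max 1 r ^ (2 * j) := by
    calc ∑ i ∈ Finset.range j, (r ^ 2) ^ i ≤ ∑ _i ∈ Finset.range j, max 1 r ^ (2 * j) := by
          refine Finset.sum_le_sum (fun i hi => ?_)
          have hi' := Finset.mem_range.1 hi
          calc (r ^ 2) ^ i ≤ (max 1 r ^ 2) ^ i := pow_le_pow_left₀ (sq_nonneg r) hm2 i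
            _ = max 1 r ^ (2 * i) := by rw [pow_mul]
            _ ≤ max 1 r ^ (2 * j) := pow_le_pow_right₀ hm (by omega)
      _ = j * max 1 r ^ (2 * j) := by rw [Finset.sum_const, Finset.card_range, nsmul_eq_mul]
  calc (∑ i ∈ Finset.range j, (r ^ 2) ^ i) * |1 - r ^ 2|
      ≤ (j * max 1 r ^ (2 * j)) * |1 - r ^ 2| := mul_le_mul_of_nonneg_right h2 (abs_nonneg _)
    _ = j * |1 - r ^ 2| * max 1 r ^ (2 * j) := by ring

theorem s5_aeval_conj (F : ℤ[X]) (z : ℂ) :
    aeval ((starRingEnd ℂ) z) F = (starRingEnd ℂ) (aeval z F) := by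
  rw [aeval_eq_sum_range, aeval_eq_sum_range, map_sum]
  refine Finset.sum_congr rfl (fun i _ => ?_)
  rw [zsmul_eq_mul, zsmul_eq_mul, map_mul, map_pow]
  congr 1
  exact (map_intCast _ _).symm

theorem s5_aeval_reverse (F : ℤ[X]) (z : ℂ) :
    aeval z F.reverse = ∑ j ∈ Finset.range (F.natDegree + 1),
      (F.coeff j : ℂ) * z ^ (F.natDegree - j) := by
  have h1 : aeval z F.reverse = ∑ i ∈ Finset.range (F.natDegree + 1),
      (F.reverse.coeff i : ℂ) * z ^ i := by
    have := aeval_eq_sum_range' (p := F.reverse) (n := F.natDegree + 1)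
      (Nat.lt_succ_of_le (reverse_natDegree_le F)) z
    rw [this]
    refine Finset.sum_congr rfl (fun i _ => ?_)
    rw [zsmul_eq_mul]
  rw [h1, ← Finset.sum_range_reflect]
  refine Finset.sum_congr rfl (fun j hj => ?_)
  have hj' := Finset.mem_range.1 hj
  rw [show F.natDegree + 1 - 1 - j = F.natDegree - j by omega, coeff_reverse,
    revAt_le (by omega), show F.natDegree - (F.natDegree - j) = j by omega]

theorem s5_point (F : ℤ[X]) (w d : ℕ) (hL : len F ≤ w) (hd : F.natDegree ≤ d) (z : ℂ)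
    (hz : aeval z F = 0) :
    ‖aeval z F.reverse‖ ≤ (w : ℝ) * d * |1 - ‖z‖ ^ 2| * max 1 ‖z‖ ^ (2 * d) := by
  have hm : 1 ≤ max 1 ‖z‖ := le_max_left _ _
  -- the conjugate root
  have hc : aeval ((starRingEnd ℂ) z) F = 0 := by rw [s5_aeval_conj, hz, map_zero]
  have h1 : aeval z F.reverse = ∑ j ∈ Finset.range (F.natDegree + 1),
      (F.coeff j : ℂ) * (z ^ (F.natDegree - j) * (1 - ((‖z‖ ^ 2 : ℝ) : ℂ) ^ j)) := by
    have h2 : ∑ j ∈ Finset.range (F.natDegree + 1),
        (F.coeff j : ℂ) * (z ^ (F.natDegree - j) * ((‖z‖ ^ 2 : ℝ) : ℂ) ^ j) = 0 := by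
      have h3 : z ^ F.natDegree * aeval ((starRingEnd ℂ) z) F = 0 := by rw [hc, mul_zero]
      rw [aeval_eq_sum_range, Finset.mul_sum] at h3
      rw [← h3]
      refine Finset.sum_congr rfl (fun j hj => ?_)
      have hj' := Finset.mem_range.1 hj
      have h4 : ((‖z‖ ^ 2 : ℝ) : ℂ) = z * (starRingEnd ℂ) z := by
        rw [Complex.mul_conj, Complex.normSq_eq_norm_sq]
      rw [h4, mul_pow, zsmul_eq_mul]
      have h5 : z ^ F.natDegree = z ^ (F.natDegree - j) * z ^ j := by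
        rw [← pow_add]
        congr 1
        omega
      rw [h5]
      ring
    rw [s5_aeval_reverse]
    have h6 : ∑ j ∈ Finset.range (F.natDegree + 1), (F.coeff j : ℂ) * z ^ (F.natDegree - j) =
        ∑ j ∈ Finset.range (F.natDegree + 1),
          (F.coeff j : ℂ) * (z ^ (F.natDegree - j) * (1 - ((‖z‖ ^ 2 : ℝ) : ℂ) ^ j)) +
        ∑ j ∈ Finset.range (F.natDegree + 1),
          (F.coeff j : ℂ) * (z ^ (F.natDegree - j) * ((‖z‖ ^ 2 : ℝ) : ℂ) ^ j) := by
      rw [← Finset.sum_add_distrib]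
      refine Finset.sum_congr rfl (fun j _ => ?_)
      ring
    rw [h6, h2, add_zero]
  rw [h1]
  refine (norm_sum_le _ _).trans ?_
  have hterm : ∀ j ∈ Finset.range (F.natDegree + 1),
      ‖(F.coeff j : ℂ) * (z ^ (F.natDegree - j) * (1 - ((‖z‖ ^ 2 : ℝ) : ℂ) ^ j))‖ ≤
        |(F.coeff j : ℝ)| * ((d : ℝ) * |1 - ‖z‖ ^ 2| * max 1 ‖z‖ ^ (2 * d)) := by
    intro j hj
    have hj' := Finset.mem_range.1 hj
    rw [norm_mul, norm_mul, Complex.norm_intCast, norm_pow]
    refine mul_le_mul_of_nonneg_left ?_ (abs_nonneg _)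
    have h7 : ‖(1 : ℂ) - ((‖z‖ ^ 2 : ℝ) : ℂ) ^ j‖ = |1 - (‖z‖ ^ 2) ^ j| := by
      rw [← Complex.ofReal_pow, ← Complex.ofReal_one, ← Complex.ofReal_sub, Complex.norm_real,
        Real.norm_eq_abs]
    rw [h7]
    calc ‖z‖ ^ (F.natDegree - j) * |1 - (‖z‖ ^ 2) ^ j|
        ≤ max 1 ‖z‖ ^ (F.natDegree - j) * (j * |1 - ‖z‖ ^ 2| * max 1 ‖z‖ ^ (2 * j)) :=
          mul_le_mul (pow_le_pow_left₀ (norm_nonneg z) (le_max_right _ _) _)
            (s5_pow ‖z‖ (norm_nonneg z) j) (abs_nonneg _) (pow_nonneg (by linarith) _)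
      _ = j * |1 - ‖z‖ ^ 2| * max 1 ‖z‖ ^ (F.natDegree - j + 2 * j) := by
          rw [pow_add]; ring
      _ ≤ d * |1 - ‖z‖ ^ 2| * max 1 ‖z‖ ^ (2 * d) := by
          refine mul_le_mul ?_ (pow_le_pow_right₀ hm (by omega)) (pow_nonneg (by linarith) _)
            (mul_nonneg (Nat.cast_nonneg _) (abs_nonneg _))
          exact mul_le_mul_of_nonneg_right (by exact_mod_cast (by omega : j ≤ d)) (abs_nonneg _)
  refine (Finset.sum_le_sum hterm).trans ?_
  rw [← Finset.sum_mul]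
  have hlen : ∑ j ∈ Finset.range (F.natDegree + 1), |(F.coeff j : ℝ)| ≤ w := by
    have h8 : ((len F : ℤ) : ℝ) = ∑ j ∈ Finset.range (F.natDegree + 1), |(F.coeff j : ℝ)| := by
      unfold len
      push_cast
      refine Finset.sum_subset supp_subset_range_natDegree_succ (fun j _ hj => ?_)
      rw [notMem_support_iff.1 hj]
      simp
    rw [← h8]
    exact_mod_cast hL
  calc (∑ j ∈ Finset.range (F.natDegree + 1), |(F.coeff j : ℝ)|) *
        ((d : ℝ) * |1 - ‖z‖ ^ 2| * max 1 ‖z‖ ^ (2 * d))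
      ≤ (w : ℝ) * ((d : ℝ) * |1 - ‖z‖ ^ 2| * max 1 ‖z‖ ^ (2 * d)) := by
        refine mul_le_mul_of_nonneg_right hlen ?_
        exact mul_nonneg (mul_nonneg (Nat.cast_nonneg _) (abs_nonneg _))
          (pow_nonneg (by linarith) _)
    _ = (w : ℝ) * d * |1 - ‖z‖ ^ 2| * max 1 ‖z‖ ^ (2 * d) := by ring

/-- a common root of an irreducible polynomial -/
theorem s5_dvd (P G : ℤ[X]) (hP : Irreducible P) (hg : 1 ≤ P.natDegree) (z : ℂ) (hz : z ∈ rts P)
    (hG : aeval z G = 0) : P ∣ G := by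
  have hprim : P.IsPrimitive := hP.isPrimitive (by omega)
  have hirr : Irreducible (P.map (Int.castRingHom ℚ)) :=
    (IsPrimitive.Int.irreducible_iff_irreducible_map_cast hprim).1 hP
  have hPz : aeval z P = 0 := by
    unfold rts at hz
    have := (mem_roots'.1 hz).2
    rw [IsRoot.def, eval_map] at this
    rw [aeval_def]
    exact this
  have hmap : ∀ Q : ℤ[X], aeval z (Q.map (Int.castRingHom ℚ)) = aeval z Q := by
    intro Q
    rw [show (Int.castRingHom ℚ) = algebraMap ℤ ℚ from rfl, aeval_map_algebraMap]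
  have hd : P.map (Int.castRingHom ℚ) ∣ G.map (Int.castRingHom ℚ) := by
    rcases hirr.isCoprime_or_dvd (G.map (Int.castRingHom ℚ)) with h | h
    · exfalso
      obtain ⟨a, b, hab⟩ := h
      have := congrArg (fun Q => aeval z Q) hab
      simp only [map_add, map_mul, hmap, hPz, hG, mul_zero, add_zero, map_one] at this
      exact zero_ne_one this
    · exact h
  exact (IsPrimitive.Int.dvd_iff_map_cast_dvd_map_cast P G hprim).2 hd

theorem s5_deg (P F : ℤ[X]) (hPF : P ∣ F) (hR : ¬ P ∣ F.reverse) : 1 ≤ P.natDegree := by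
  by_contra hcon
  have h0 : P.natDegree = 0 := by omega
  obtain ⟨c, hc⟩ := natDegree_eq_zero.1 h0
  apply hR
  rw [← hc, C_dvd_iff_dvd_coeff]
  rw [← hc, C_dvd_iff_dvd_coeff] at hPF
  intro i
  rw [coeff_reverse]
  exact hPF _

/-- row S5 -/
theorem circle_gap (w d : ℕ) (P F : ℤ[X]) (hP : Irreducible P) (hPF : P ∣ F) (hF0 : F.coeff 0 ≠ 0)
    (hL : len F ≤ w) (hd : F.natDegree ≤ d) (hR : ¬ P ∣ F.reverse) :
    1 ≤ ((w : ℝ) * d) ^ P.natDegree * mm P ^ (2 * d) * ((rts P).map fun z => |1 - ‖z‖ ^ 2|).prod := by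
  have hg := s5_deg P F hPF hR
  have hroot : ∀ z ∈ rts P, aeval z P = 0 := by
    intro z hz
    unfold rts at hz
    have := (mem_roots'.1 hz).2
    rw [IsRoot.def, eval_map] at this
    rw [aeval_def]
    exact this
  have hFz : ∀ z ∈ rts P, aeval z F = 0 := by
    intro z hz
    obtain ⟨Q, hQ⟩ := hPF
    rw [hQ, map_mul, hroot z hz, zero_mul]
  have hrd : F.reverse.natDegree ≤ d := (reverse_natDegree_le F).trans hd
  -- the resultant is a nonzero integer
  have hne : resultant P F.reverse P.natDegree d ≠ 0 := by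
    intro h0
    have h1 := s5_res P F.reverse d hrd
    rw [h0, Int.cast_zero] at h1
    have hlc : (P.leadingCoeff : ℂ) ^ d ≠ 0 :=
      pow_ne_zero _ (by exact_mod_cast leadingCoeff_ne_zero.2 hP.ne_zero)
    have h2 := (mul_eq_zero.1 h1.symm).resolve_left hlc
    rw [Multiset.prod_eq_zero_iff, Multiset.mem_map] at h2
    obtain ⟨z, hz, hz0⟩ := h2
    exact hR (s5_dvd P F.reverse hP hg z hz hz0)
  have h1 : (1 : ℝ) ≤ |((resultant P F.reverse P.natDegree d : ℤ) : ℝ)| := by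
    exact_mod_cast Int.one_le_abs hne
  rw [s5_norm P F.reverse d hrd] at h1
  have hlc1 : (1 : ℝ) ≤ |(P.leadingCoeff : ℝ)| := by
    exact_mod_cast Int.one_le_abs (leadingCoeff_ne_zero.2 hP.ne_zero)
  have hbd : ((rts P).map fun z => ‖aeval z F.reverse‖).prod ≤
      ((rts P).map fun z => (w : ℝ) * d * |1 - ‖z‖ ^ 2| * max 1 ‖z‖ ^ (2 * d)).prod :=
    Multiset.prod_map_le_prod_map₀ _ _ (fun z _ => norm_nonneg _)
      (fun z hz => s5_point F w d hL hd z (hFz z hz))
  rw [Multiset.prod_map_mul, Multiset.prod_map_mul, Multiset.map_const', Multiset.prod_replicate,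
    s5_card, Multiset.prod_map_pow] at hbd
  set A := ((rts P).map fun z => |1 - ‖z‖ ^ 2|).prod with hA
  set B := ((rts P).map fun z => max 1 ‖z‖).prod with hB
  have hA0 : 0 ≤ A := Multiset.prod_nonneg (by
    intro a ha
    obtain ⟨z, -, rfl⟩ := Multiset.mem_map.1 ha
    exact abs_nonneg _)
  have hB0 : 0 ≤ B := Multiset.prod_nonneg (by
    intro a ha
    obtain ⟨z, -, rfl⟩ := Multiset.mem_map.1 ha
    exact le_trans zero_le_one (le_max_left _ _))
  have hwd : 0 ≤ ((w : ℝ) * d) ^ P.natDegree := by positivity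
  calc (1 : ℝ) ≤ |(P.leadingCoeff : ℝ)| ^ d * ((rts P).map fun z => ‖aeval z F.reverse‖).prod := h1
    _ ≤ |(P.leadingCoeff : ℝ)| ^ d * (((w : ℝ) * d) ^ P.natDegree * A * B ^ (2 * d)) :=
        mul_le_mul_of_nonneg_left hbd (pow_nonneg (abs_nonneg _) _)
    _ ≤ |(P.leadingCoeff : ℝ)| ^ (2 * d) * (((w : ℝ) * d) ^ P.natDegree * A * B ^ (2 * d)) :=
        mul_le_mul_of_nonneg_right (pow_le_pow_right₀ hlc1 (by omega))
          (mul_nonneg (mul_nonneg hwd hA0) (pow_nonneg hB0 _))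
    _ = ((w : ℝ) * d) ^ P.natDegree * mm P ^ (2 * d) * A := by
        unfold mm
        rw [← hB, mul_pow]
        ring

end CZF
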